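import Pool.Agent.H23R.Fun

/-!
Binary search.
-/

namespace Pool.Agent.H23R

noncomputable section

open scoped Classical in
/-- Binary search for a largest solution: after `j` of `L` steps. -/
def bz (P : ℕ → Prop) (a L : ℕ) : ℕ → ℕ
  | 0 => 0
  | j + 1 => if bz P a L j + 2 ^ (L - (j + 1)) ≤ a ∧ P (bz P a L j + 2 ^ (L - (j + 1))) then
      bz P a L j + 2 ^ (L - (j + 1)) else bz P a L j

/-- The result. -/
def bs (P : ℕ → Prop) (a : ℕ) : ℕ := bz P a a.size a.size

theorem bz_inv (P : ℕ → Prop) {a L : ℕ} (hL : a < 2 ^ L) (j : ℕ) (hj : j ≤ L) :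
    bz P a L j ≤ a ∧ (P 0 → P (bz P a L j)) ∧
      ¬ (bz P a L j + 2 ^ (L - j) ≤ a ∧ P (bz P a L j + 2 ^ (L - j))) := by
  induction j with
  | zero =>
    refine ⟨Nat.zero_le _, fun h => h, fun h => ?_⟩
    simp only [bz, Nat.sub_zero] at h
    omega
  | succ j ih =>
    obtain ⟨h1, h2, h3⟩ := ih (by omega)
    have e : 2 ^ (L - j) = 2 ^ (L - (j + 1)) + 2 ^ (L - (j + 1)) := by
      have : L - j = (L - (j + 1)) + 1 := by omega
      rw [this, pow_succ]; ring
    rw [e, ← add_assoc] at h3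
    simp only [bz]
    split_ifs with h
    · exact ⟨h.1, fun _ => h.2, h3⟩
    · exact ⟨h1, h2, h⟩

theorem bs_le (P : ℕ → Prop) (a : ℕ) : bs P a ≤ a :=
  (bz_inv P (Nat.lt_size_self a) a.size le_rfl).1

theorem bs_zero {P : ℕ → Prop} (a : ℕ) (h : P 0) : P (bs P a) :=
  (bz_inv P (Nat.lt_size_self a) a.size le_rfl).2.1 h

theorem bs_succ (P : ℕ → Prop) (a : ℕ) : ¬ (bs P a + 1 ≤ a ∧ P (bs P a + 1)) := by
  have := (bz_inv P (Nat.lt_size_self a) a.size le_rfl).2.2
  rw [Nat.sub_self, pow_zero] at this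
  exact this

/-- One step. -/
def Stp (P : ℕ → Prop) (a y' y d : ℕ) : Prop :=
  (y' + 2 ^ d ≤ a ∧ P (y' + 2 ^ d) ∧ y = y' + 2 ^ d) ∨
    (¬ (y' + 2 ^ d ≤ a ∧ P (y' + 2 ^ d)) ∧ y = y')

theorem stp_bz (P : ℕ → Prop) (a L : ℕ) {d : ℕ} (hd : d < L) :
    Stp P a (bz P a L (L - (d + 1))) (bz P a L (L - d)) d := by
  have e1 : L - d = (L - (d + 1)) + 1 := by omega
  have e2 : L - (L - (d + 1) + 1) = d := by omega
  unfold Stp
  rw [e1]
  simp only [bz]
  rw [e2]
  split_ifs with h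
  · exact Or.inl ⟨h.1, h.2, rfl⟩
  · exact Or.inr ⟨h, rfl⟩

theorem stp_unique {P : ℕ → Prop} {a y' y z d : ℕ} (h1 : Stp P a y' y d) (h2 : Stp P a y' z d) :
    y = z := by
  unfold Stp at h1 h2
  rcases h1 with ⟨a1, a2, a3⟩ | ⟨a1, a2⟩ <;> rcases h2 with ⟨b1, b2, b3⟩ | ⟨b1, b2⟩
  · omega
  · exact absurd ⟨a1, a2⟩ b1
  · exact absurd ⟨b1, b2⟩ a1
  · omega

/-- The computation of a binary search, coded by a number. -/
theorem bs_iff (P : ℕ → Prop) (a y : ℕ) : y = bs P a ↔
    ∃ w ≤ 2 ^ (a.size * a.size) * (2 ^ a.size * 2), ext w a.size a.size = 0 ∧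
      (∀ d ≤ a.size, d < a.size → Stp P a (ext w (d + 1) a.size) (ext w d a.size) d) ∧
      y = ext w 0 a.size := by
  set L := a.size with hL
  have hlt : a < 2 ^ L := Nat.lt_size_self a
  constructor
  · intro hy
    have hb : ∀ i < L + 1, bz P a L (L - i) < 2 ^ L := fun i _ =>
      lt_of_le_of_lt (bz_inv P hlt (L - i) (by omega)).1 hlt
    have he : ∀ d, d ≤ L → ext (sc (2 ^ L) (L + 1) fun i => bz P a L (L - i)) d L =
        bz P a L (L - d) := fun d hd => ext_sc hb (by omega)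
    refine ⟨sc (2 ^ L) (L + 1) fun i => bz P a L (L - i), ?_, ?_, ?_, ?_⟩
    · refine (sc_lt _ hb).le.trans (le_of_eq ?_)
      rw [← pow_mul, mul_add, mul_one, pow_add]
      ring
    · rw [he L le_rfl, Nat.sub_self]; rfl
    · intro d _ hd
      rw [he _ (by omega), he _ (by omega)]
      exact stp_bz P a L hd
    · rw [he 0 (by omega), Nat.sub_zero]
      exact hy
  · rintro ⟨w, -, h0, hs, rfl⟩
    have key : ∀ j ≤ L, ext w (L - j) L = bz P a L j := by
      intro j
      induction j with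
      | zero =>
        intro _
        rw [Nat.sub_zero, h0]
        rfl
      | succ j ih =>
        intro hj
        have h1 := hs (L - (j + 1)) (by omega) (by omega)
        have e1 : L - (j + 1) + 1 = L - j := by omega
        rw [e1, ih (by omega)] at h1
        have h2 := stp_bz P a L (d := L - (j + 1)) (by omega)
        have e2 : L - (L - (j + 1) + 1) = j := by omega
        have e3 : L - (L - (j + 1)) = j + 1 := by omega
        rw [e2, e3] at h2
        exact stp_unique h1 h2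
    have := key L le_rfl
    rw [Nat.sub_self] at this
    exact this

theorem fn_bs {n : ℕ} {t : (ℕ → ℕ) → ℕ} {R : (ℕ → ℕ) → Prop} (ht : TF t)
    (h1 : Df true (n + 1) R) (h2 : Df false (n + 1) R) :
    Fn (n + 1) fun v => bs (fun x => R (cs x v)) (t v) := by
  have hR : ∀ b, Df b (n + 1) R := fun b => by cases b; exacts [h2, h1]
  refine ⟨?_, ?_⟩
  · obtain ⟨u, hu⟩ := ht
    exact ⟨u, fun v => (bs_le _ _).trans (hu v).ge⟩
  -- the environment: `y 0 = d`, `y 1 = w`, `y 2` is the value, `y (i + 3)` the parameters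
  let par : (ℕ → ℕ) → ℕ → ℕ := fun y i => y (i + 3)
  have hpar : ∀ f, TF f → TF fun y => f (par y) := fun f hf => hf.comp fun i => TF.var (i + 3)
  let ee : (ℕ → ℕ) → ℕ → ℕ := fun y r => ext (y 1) r (t (par y)).size
  have hee : ∀ f, Fn (n + 1) f → Fn (n + 1) fun y => ee y (f y) := fun f hf =>
    Fn.ext (Fn.var 1) hf (Fn.tf (hpar t ht).size)
  let p2 : (ℕ → ℕ) → ℕ := fun y => pw (y 0) (t (par y))
  have hp2 : Fn (n + 1) p2 := Fn.pw (Fn.var 0) (Fn.tf (hpar t ht))
  let c1 : (ℕ → ℕ) → Prop := fun y => ee y (y 0 + 1) + p2 y ≤ t (par y) ∧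
    R (cs (ee y (y 0 + 1) + p2 y) (par y))
  have hz : Fn (n + 1) fun y => ee y (y 0 + 1) + p2 y :=
    (hee (fun y => y 0 + 1) (Fn.tf (TF.var 0).succ)).add hp2
  have hc1 : ∀ b, Df b (n + 1) c1 := by
    intro b
    refine Df.and (Df.fle hz (Fn.tf (hpar t ht))) ?_
    refine (hR b).comp (g := fun i y => cs (ee y (y 0 + 1) + p2 y) (par y) i) fun i => ?_
    rcases i with _ | i
    · exact hz
    · exact Fn.var (i + 3)
  let st : (ℕ → ℕ) → Prop := fun y => (c1 y ∧ ee y (y 0) = ee y (y 0 + 1) + p2 y) ∨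
    (¬ c1 y ∧ ee y (y 0) = ee y (y 0 + 1))
  have hst : ∀ b, Df b (n + 1) st := fun b =>
    ((hc1 b).and (Df.feq (hee (fun y => y 0) (Fn.var 0)) hz)).or
      ((hc1 _).not.and (Df.feq (hee (fun y => y 0) (Fn.var 0))
        (hee (fun y => y 0 + 1) (Fn.tf (TF.var 0).succ))))
  -- environment `u 0 = w`, `u 1` is the value, `u (i + 2)` the parameters
  let par2 : (ℕ → ℕ) → ℕ → ℕ := fun u i => u (i + 2)
  have hpar2 : ∀ f, TF f → TF fun y => f (par2 y) := fun f hf => hf.comp fun i => TF.var (i + 2)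
  have hmain : Df true (n + 1) fun u => ext (u 0) (t (par2 u)).size (t (par2 u)).size = 0 ∧
      ((∀ d ≤ (t (par2 u)).size, (fun y => y 0 < (t (par y)).size → st y) (cs d u)) ∧
      u 1 = ext (u 0) 0 (t (par2 u)).size) := by
    refine Df.and (Df.feq (Fn.ext (Fn.var 0) (Fn.tf (hpar2 t ht).size) (Fn.tf (hpar2 t ht).size))
      (Fn.const 0)) (Df.and ?_ (Df.feq (Fn.var 1) (Fn.ext (Fn.var 0) (Fn.const 0)
        (Fn.tf (hpar2 t ht).size))))
    refine Df.sball (hpar2 t ht) (R := fun y => y 0 < (t (par y)).size → st y) ?_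
    exact Df.imp (Df.lt (TF.var 0) (hpar t ht).size) (hst _)
  let bd : (ℕ → ℕ) → ℕ := fun v => 2 ^ ((t v).size * (t v).size) * (2 ^ (t v).size * 2)
  have hbd : TF bd := (ht.smash ht).mul (ht.pow_size.mul (TF.const 2))
  have hfin := Df.bex hbd.shift hmain
  refine hfin.congr fun v => ?_
  set v' : ℕ → ℕ := fun i => v (i + 1) with hv'
  have h3 := bs_iff (fun x => R (cs x v')) (t v') (v 0)
  refine Iff.trans ?_ h3.symm
  refine exists_congr fun w => and_congr Iff.rfl (and_congr Iff.rfl (and_congr ?_ Iff.rfl))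
  refine forall_congr' fun d => forall_congr' fun hd => forall_congr' fun _ => ?_
  have hd' : d ≤ (t v').size := hd
  have e : pw d (t v') = 2 ^ d := by unfold pw; rw [if_pos hd']
  change (((ext w (d + 1) (t v').size + pw d (t v') ≤ t v' ∧
      R (cs (ext w (d + 1) (t v').size + pw d (t v')) v')) ∧
      ext w d (t v').size = ext w (d + 1) (t v').size + pw d (t v')) ∨
      (¬ (ext w (d + 1) (t v').size + pw d (t v') ≤ t v' ∧
      R (cs (ext w (d + 1) (t v').size + pw d (t v')) v')) ∧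
      ext w d (t v').size = ext w (d + 1) (t v').size)) ↔
    Stp (fun x => R (cs x v')) (t v') (ext w (d + 1) (t v').size) (ext w d (t v').size) d
  rw [e]
  unfold Stp
  tauto

end

end Pool.Agent.H23R
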