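import Pool.Agent.H23R.Form

/-!
A calculus for the relations and functions on the natural numbers defined by `Σ^b_n` and `Π^b_n`
formulas.
-/

namespace Pool.Agent.H23R

noncomputable section

/-- Prepending a value. -/
def cs {α : Type} (a : α) (v : ℕ → α) : ℕ → α
  | 0 => a
  | i + 1 => v i

@[simp] theorem cs_zero {α : Type} (a : α) (v : ℕ → α) : cs a v 0 = a := rfl
@[simp] theorem cs_succ {α : Type} (a : α) (v : ℕ → α) (i : ℕ) : cs a v (i + 1) = v i := rfl
@[simp] theorem cs_one {α : Type} (a : α) (v : ℕ → α) : cs a v 1 = v 0 := rfl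
@[simp] theorem cs_two {α : Type} (a : α) (v : ℕ → α) : cs a v 2 = v 1 := rfl
@[simp] theorem cs_three {α : Type} (a : α) (v : ℕ → α) : cs a v 3 = v 2 := rfl
@[simp] theorem cs_four {α : Type} (a : α) (v : ℕ → α) : cs a v 4 = v 3 := rfl
@[simp] theorem cs_five {α : Type} (a : α) (v : ℕ → α) : cs a v 5 = v 4 := rfl
@[simp] theorem cs_six {α : Type} (a : α) (v : ℕ → α) : cs a v 6 = v 5 := rfl
@[simp] theorem cs_seven {α : Type} (a : α) (v : ℕ → α) : cs a v 7 = v 6 := rfl

/-- Relations defined by formulas. -/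
def Df (b : Bool) (n : ℕ) (R : (ℕ → ℕ) → Prop) : Prop := ∃ φ, IsSP b n φ ∧ ∀ v, SatN v φ ↔ R v

/-- Functions given by terms. -/
def TF (f : (ℕ → ℕ) → ℕ) : Prop := ∃ t, ∀ v, valN v t = f v

variable {b : Bool} {n : ℕ} {R S : (ℕ → ℕ) → Prop} {f g : (ℕ → ℕ) → ℕ}

theorem TF.var (i : ℕ) : TF fun v => v i := ⟨.var i, fun _ => rfl⟩
theorem TF.zero : TF fun _ => 0 := ⟨.zero, fun _ => rfl⟩
theorem TF.succ (h : TF f) : TF fun v => f v + 1 := by
  obtain ⟨t, ht⟩ := h
  exact ⟨.succ t, fun v => by rw [valN_succ, ht]⟩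
theorem TF.half (h : TF f) : TF fun v => f v / 2 := by
  obtain ⟨t, ht⟩ := h
  exact ⟨.half t, fun v => by rw [valN_half, ht]⟩
theorem TF.size (h : TF f) : TF fun v => (f v).size := by
  obtain ⟨t, ht⟩ := h
  exact ⟨.len t, fun v => by rw [valN_len, ht]⟩
theorem TF.add (h : TF f) (h' : TF g) : TF fun v => f v + g v := by
  obtain ⟨t, ht⟩ := h
  obtain ⟨u, hu⟩ := h'
  exact ⟨.add t u, fun v => by rw [valN_add, ht, hu]⟩
theorem TF.mul (h : TF f) (h' : TF g) : TF fun v => f v * g v := by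
  obtain ⟨t, ht⟩ := h
  obtain ⟨u, hu⟩ := h'
  exact ⟨.mul t u, fun v => by rw [valN_mul, ht, hu]⟩
theorem TF.smash (h : TF f) (h' : TF g) : TF fun v => 2 ^ ((f v).size * (g v).size) := by
  obtain ⟨t, ht⟩ := h
  obtain ⟨u, hu⟩ := h'
  exact ⟨.smash t u, fun v => by rw [valN_smash, ht, hu]⟩
theorem TF.const (c : ℕ) : TF fun _ => c := by
  induction c with
  | zero => exact TF.zero
  | succ c ih => exact ih.succ
theorem TF.comp (h : TF f) {g : ℕ → (ℕ → ℕ) → ℕ} (h' : ∀ i, TF (g i)) :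
    TF fun v => f fun i => g i v := by
  obtain ⟨t, ht⟩ := h
  choose u hu using h'
  refine ⟨t.sub u, fun v => ?_⟩
  beta_reduce
  rw [← ht, valN_sub]
  congr 1
  funext i
  exact hu i v
theorem TF.shift (h : TF f) : TF fun v => f fun i => v (i + 1) :=
  h.comp fun i => TF.var (i + 1)
theorem TF.mono (h : TF f) {v v' : ℕ → ℕ} (hv : ∀ i, v i ≤ v' i) : f v ≤ f v' := by
  obtain ⟨t, ht⟩ := h
  rw [← ht, ← ht]
  exact valN_mono t hv
theorem TF.dep (h : TF f) : ∃ m, ∀ v v' : ℕ → ℕ, (∀ i < m, v i = v' i) → f v = f v' := by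
  obtain ⟨t, ht⟩ := h
  obtain ⟨m, hm⟩ := valN_dep t
  exact ⟨m, fun v v' hv => by rw [← ht, ← ht]; exact hm v v' hv⟩
/-- `2 ^ n` for a length `n`. -/
theorem TF.pow_size (h : TF f) : TF fun v => 2 ^ (f v).size := by
  have := (TF.const 1).smash h
  simpa using this

theorem Df.congr (h : Df b n R) (e : ∀ v, R v ↔ S v) : Df b n S := by
  obtain ⟨φ, h1, h2⟩ := h
  exact ⟨φ, h1, fun v => (h2 v).trans (e v)⟩
theorem Df.le (h : TF f) (h' : TF g) : Df b n fun v => f v ≤ g v := by
  obtain ⟨t, ht⟩ := h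
  obtain ⟨u, hu⟩ := h'
  exact ⟨.le t u, .sharp (.le _ _), fun v => by rw [satN_le, ht, hu]⟩
theorem Df.eq (h : TF f) (h' : TF g) : Df b n fun v => f v = g v := by
  obtain ⟨t, ht⟩ := h
  obtain ⟨u, hu⟩ := h'
  exact ⟨.eq t u, .sharp (.eq _ _), fun v => by rw [satN_eq, ht, hu]⟩
theorem Df.lt (h : TF f) (h' : TF g) : Df b n fun v => f v < g v := Df.le h.succ h'
theorem Df.false : Df b n fun _ => False := ⟨.bot, .sharp .bot, fun _ => Iff.rfl⟩
theorem Df.imp (h : Df (!b) n R) (h' : Df b n S) : Df b n fun v => R v → S v := by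
  obtain ⟨φ, h1, h2⟩ := h
  obtain ⟨ψ, h3, h4⟩ := h'
  exact ⟨.imp φ ψ, .imp h1 h3, fun v => by rw [satN_imp, h2, h4]⟩
theorem Df.not (h : Df (!b) n R) : Df b n fun v => ¬ R v := h.imp Df.false
theorem Df.not' (h : Df b n R) : Df (!b) n fun v => ¬ R v := by
  refine Df.not ?_
  rw [Bool.not_not]
  exact h
theorem Df.true : Df b n fun _ => True := (Df.not Df.false).congr fun v => by simp
theorem Df.const (Q : Prop) : Df b n fun _ => Q := by
  by_cases h : Q
  · exact Df.true.congr fun v => by simp [h]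
  · exact Df.false.congr fun v => by simp [h]
theorem Df.and (h : Df b n R) (h' : Df b n S) : Df b n fun v => R v ∧ S v := by
  have h1 : Df (!b) n fun v => R v → ¬ S v := by
    refine Df.imp ?_ h'.not'
    rw [Bool.not_not]; exact h
  exact (Df.not h1).congr fun v => by tauto
theorem Df.or (h : Df b n R) (h' : Df b n S) : Df b n fun v => R v ∨ S v :=
  (Df.imp h.not' h').congr fun v => by tauto
theorem Df.mono {m : ℕ} (h : Df b n R) (hm : n ≤ m) : Df b m R := by
  obtain ⟨φ, h1, h2⟩ := h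
  exact ⟨φ, h1.mono hm, h2⟩
theorem Df.up {c : Bool} {m : ℕ} (h : Df b n R) (hm : n < m) : Df c m R := by
  obtain ⟨φ, h1, h2⟩ := h
  exact ⟨φ, h1.lt hm, h2⟩
theorem Df.ren (h : Df b n R) {ρ : ℕ → ℕ} (hρ : Function.Injective ρ) :
    Df b n fun v => R fun i => v (ρ i) := by
  obtain ⟨φ, h1, h2⟩ := h
  exact ⟨φ.ren ρ, h1.ren ρ, fun v => by beta_reduce; rw [← h2]; exact satN_ren hρ v φ⟩
theorem Df.dep (h : Df b n R) : ∃ m, ∀ v v' : ℕ → ℕ, (∀ i < m, v i = v' i) → (R v ↔ R v') := by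
  obtain ⟨φ, _, h2⟩ := h
  obtain ⟨m, hm⟩ := satN_dep φ
  exact ⟨m, fun v v' hv => by rw [← h2, ← h2]; exact hm v v' hv⟩

/-- The renaming `0 ↦ o`, `i + 1 ↦ i` for `i < o`. -/
def rot (o : ℕ) : ℕ → ℕ
  | 0 => o
  | i + 1 => if i < o then i else i + 1

theorem rot_inj (o : ℕ) : Function.Injective (rot o) := by
  intro i j h
  rcases i with _ | i <;> rcases j with _ | j
  · rfl
  · simp only [rot] at h; split_ifs at h <;> omega
  · simp only [rot] at h; split_ifs at h <;> omega
  · simp only [rot] at h; split_ifs at h <;> omega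

theorem upd_rot {M m : ℕ} (h : m ≤ M) (v : ℕ → ℕ) (a : ℕ) :
    ∀ i < m + 1, (Function.update v M a ∘ rot M) i = cs a v i := by
  intro i hi
  rcases i with _ | i
  · simp [rot]
  · have : i < M := by omega
    simp only [Function.comp_apply, rot, this, if_true, cs_succ]
    exact Function.update_of_ne (by omega) _ _

theorem exists_all {φ : Fm} {t : Tm} : ∃ M, ∀ v : ℕ → ℕ,
    (SatN v (.all M t (φ.ren (rot M))) ↔ ∀ a ≤ valN v t, SatN (cs a v) φ) := by
  obtain ⟨m, hm⟩ := satN_dep φ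
  refine ⟨m, fun v => ?_⟩
  rw [satN_all]
  refine forall_congr' fun a => forall_congr' fun _ => ?_
  rw [satN_ren (rot_inj m)]
  exact hm _ _ fun i hi => upd_rot le_rfl v a i (by omega)

theorem Df.ball {t : (ℕ → ℕ) → ℕ} (ht : TF t) (h : Df .false (n + 1) R) :
    Df .false (n + 1) fun v => ∀ a ≤ t v, R (cs a v) := by
  obtain ⟨φ, h1, h2⟩ := h
  obtain ⟨u, hu⟩ := ht
  obtain ⟨M, hM⟩ := exists_all (φ := φ) (t := u)
  refine ⟨_, .all M u (h1.ren (rot M)), fun v => (hM v).trans ?_⟩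
  rw [hu]
  exact forall_congr' fun a => forall_congr' fun _ => h2 _

theorem Df.sball {t : (ℕ → ℕ) → ℕ} (ht : TF t) (h : Df b n R) :
    Df b n fun v => ∀ a ≤ (t v).size, R (cs a v) := by
  obtain ⟨φ, h1, h2⟩ := h
  obtain ⟨u, hu⟩ := ht
  obtain ⟨M, hM⟩ := exists_all (φ := φ) (t := .len u)
  refine ⟨_, .sall M u (h1.ren (rot M)), fun v => (hM v).trans ?_⟩
  rw [valN_len, hu]
  exact forall_congr' fun a => forall_congr' fun _ => h2 _

theorem Df.bex {t : (ℕ → ℕ) → ℕ} (ht : TF t) (h : Df .true (n + 1) R) :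
    Df .true (n + 1) fun v => ∃ a ≤ t v, R (cs a v) :=
  (Df.not (b := .true) (Df.ball ht (Df.not (b := .false) h))).congr fun v => by push Not; rfl

theorem Df.sbex {t : (ℕ → ℕ) → ℕ} (ht : TF t) (h : Df b n R) :
    Df b n fun v => ∃ a ≤ (t v).size, R (cs a v) :=
  (Df.not (Df.sball ht h.not')).congr fun v => by push Not; rfl

/-! ### Functions -/

/-- Functions bounded by a term, with a graph defined by a `Σ^b_n` formula. -/
def Fn (n : ℕ) (g : (ℕ → ℕ) → ℕ) : Prop :=
  (∃ t, ∀ v, g v ≤ valN v t) ∧ Df .true n fun v => v 0 = g fun i => v (i + 1)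

theorem Fn.congr (h : Fn n f) (e : ∀ v, f v = g v) : Fn n g := by
  have : f = g := funext e
  rwa [← this]

theorem Fn.tf (h : TF f) : Fn n f := by
  refine ⟨?_, Df.eq (TF.var 0) h.shift⟩
  obtain ⟨t, ht⟩ := h
  exact ⟨t, fun v => (ht v).ge⟩

theorem Fn.mono {m : ℕ} (h : Fn n f) (hm : n ≤ m) : Fn m f := ⟨h.1, h.2.mono hm⟩

theorem Fn.var (i : ℕ) : Fn n fun v => v i := Fn.tf (TF.var i)

theorem Fn.const (c : ℕ) : Fn n fun _ => c := Fn.tf (TF.const c)

theorem Fn.dep (h : Fn n g) : ∃ m, ∀ v v' : ℕ → ℕ, (∀ i < m, v i = v' i) → g v = g v' := by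
  obtain ⟨m, hm⟩ := h.2.dep
  refine ⟨m, fun v v' hv => ?_⟩
  have h1 := hm (cs (g v) v) (cs (g v) v') fun i hi => by
    rcases i with _ | i
    · rfl
    · exact hv i (by omega)
  beta_reduce at h1
  rw [cs_zero, cs_zero] at h1
  exact h1.1 rfl

/-- The graph with the result in an arbitrary fresh variable. -/
theorem Fn.graph (h : Fn n g) : ∃ m, ∀ o, m ≤ o → ∃ G, IsSP .true n G ∧
    ∀ v : ℕ → ℕ, (SatN v G ↔ v o = g v) := by
  obtain ⟨m, hm⟩ := h.dep
  obtain ⟨G, h1, h2⟩ := h.2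
  refine ⟨m, fun o ho => ⟨G.ren (rot o), h1.ren _, fun v => ?_⟩⟩
  rw [satN_ren (rot_inj o), h2]
  have : g (fun i => v (rot o (i + 1))) = g v := by
    apply hm
    intro i hi
    have : i < o := by omega
    simp [rot, this]
  beta_reduce
  rw [this]
  rfl

/-- Substitution of functions in a relation. -/
theorem Df.comp (h : Df b (n + 1) R) {g : ℕ → (ℕ → ℕ) → ℕ} (hg : ∀ i, Fn (n + 1) (g i)) :
    Df b (n + 1) fun v => R fun i => g i v := by
  obtain ⟨φ, hφ, hR⟩ := h
  obtain ⟨m, hm⟩ := satN_dep φ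
  choose t ht using fun i => (hg i).1
  choose d hd using fun i => (hg i).dep
  choose e he using fun i => (hg i).graph
  let K := (Finset.range m).sup fun i => max (d i) (e i)
  have hK : ∀ i < m, d i ≤ K ∧ e i ≤ K := by
    intro i hi
    have : max (d i) (e i) ≤ K :=
      Finset.le_sup (f := fun i => max (d i) (e i)) (Finset.mem_range.2 hi)
    omega
  have key : ∀ j ≤ m, ∃ φ', IsSP b (n + 1) φ' ∧ ∀ v : ℕ → ℕ,
      (SatN v φ' ↔ SatN (fun i => if i < j then g i v else v (i + K)) φ) := by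
    intro j
    induction j with
    | zero =>
      intro _
      refine ⟨φ.ren fun i => i + K, hφ.ren _, fun v => ?_⟩
      rw [satN_ren (fun a b h => by simpa using h)]
      simp only [Nat.not_lt_zero, if_false]
    | succ j ih =>
      intro hj
      obtain ⟨φ', h1, h2⟩ := ih (by omega)
      obtain ⟨G, hG1, hG2⟩ := he j (j + K) (by have := (hK j (by omega)).2; omega)
      refine ⟨bq b (j + K) (t j) G φ', isSP_bq _ _ hG1 h1, fun v => ?_⟩
      have hdj : ∀ i < m, ∀ a, g i (Function.update v (j + K) a) = g i v := by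
        intro i hi a
        apply hd i
        intro l hl
        refine Function.update_of_ne ?_ _ _
        have := (hK i hi).1
        omega
      rw [satN_bq b (c := g j v) (ht j v), h2]
      · apply hm
        intro i hi
        by_cases h3 : i < j
        · rw [if_pos h3, if_pos (by omega), hdj i hi]
        · by_cases h4 : i = j
          · subst h4
            simp
          · rw [if_neg h3, if_neg (by omega), Function.update_of_ne (by omega)]
      · intro a _
        rw [hG2, Function.update_self, hdj j (by omega)]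
  obtain ⟨φ', h1, h2⟩ := key m le_rfl
  refine ⟨φ', h1, fun v => ?_⟩
  beta_reduce
  rw [h2, ← hR]
  apply hm
  intro i hi
  rw [if_pos hi]

theorem Fn.ren (h : Fn n f) {ρ : ℕ → ℕ} (hρ : Function.Injective ρ) :
    Fn n fun v => f fun i => v (ρ i) := by
  obtain ⟨⟨t, ht⟩, hG⟩ := h
  refine ⟨⟨t.ren ρ, fun v => ?_⟩, ?_⟩
  · refine (ht _).trans (le_of_eq ?_)
    exact (val_ren std ρ v t).symm
  · let ρ' : ℕ → ℕ := fun i => match i with
      | 0 => 0
      | i + 1 => ρ i + 1
    have hρ' : Function.Injective ρ' := by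
      intro i j hij
      rcases i with _ | i <;> rcases j with _ | j
      · rfl
      · simp [ρ'] at hij
      · simp [ρ'] at hij
      · simp only [ρ', Nat.add_right_cancel_iff] at hij
        rw [hρ hij]
    exact hG.ren hρ'

theorem Fn.shift (h : Fn n f) : Fn n fun v => f fun i => v (i + 1) :=
  h.ren (ρ := fun i => i + 1) fun a b hab => by simpa using hab

/-- Composition. -/
theorem Fn.comp (h : Fn (n + 1) f) {g : ℕ → (ℕ → ℕ) → ℕ} (hg : ∀ i, Fn (n + 1) (g i)) :
    Fn (n + 1) fun v => f fun i => g i v := by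
  refine ⟨?_, ?_⟩
  · obtain ⟨t, ht⟩ := h.1
    choose u hu using fun i => (hg i).1
    refine ⟨t.sub u, fun v => (ht _).trans ?_⟩
    rw [valN_sub]
    exact valN_mono t fun i => hu i v
  · let k : ℕ → (ℕ → ℕ) → ℕ := fun i => match i with
      | 0 => fun v => v 0
      | i + 1 => fun v => g i fun j => v (j + 1)
    have hk : ∀ i, Fn (n + 1) (k i) := by
      intro i
      rcases i with _ | i
      · exact Fn.var 0
      · exact (hg i).shift
    exact (h.2.comp hk).congr fun _ => Iff.rfl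

/-- Substitution in terms. -/
theorem Fn.tcomp (h : TF f) {g : ℕ → (ℕ → ℕ) → ℕ} (hg : ∀ i, Fn (n + 1) (g i)) :
    Fn (n + 1) fun v => f fun i => g i v := (Fn.tf h).comp hg

theorem Fn.add (h : Fn (n + 1) f) (h' : Fn (n + 1) g) : Fn (n + 1) fun v => f v + g v := by
  have := Fn.tcomp (n := n) (f := fun v => v 0 + v 1) ((TF.var 0).add (TF.var 1))
    (g := fun i => if i = 0 then f else g) (fun i => by split_ifs; exacts [h, h'])
  exact this.congr fun v => by simp

theorem Fn.mul (h : Fn (n + 1) f) (h' : Fn (n + 1) g) : Fn (n + 1) fun v => f v * g v := by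
  have := Fn.tcomp (n := n) (f := fun v => v 0 * v 1) ((TF.var 0).mul (TF.var 1))
    (g := fun i => if i = 0 then f else g) (fun i => by split_ifs; exacts [h, h'])
  exact this.congr fun v => by simp

theorem Fn.size (h : Fn (n + 1) f) : Fn (n + 1) fun v => (f v).size := by
  have := Fn.tcomp (n := n) (f := fun v => (v 0).size) (TF.var 0).size
    (g := fun _ => f) (fun _ => h)
  exact this.congr fun v => by simp

theorem Df.fle (h : Fn (n + 1) f) (h' : Fn (n + 1) g) : Df b (n + 1) fun v => f v ≤ g v := by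
  have := Df.comp (b := b) (n := n) (Df.le (TF.var 0) (TF.var 1))
    (g := fun i => if i = 0 then f else g) (fun i => by split_ifs; exacts [h, h'])
  exact this.congr fun v => by simp

theorem Df.feq (h : Fn (n + 1) f) (h' : Fn (n + 1) g) : Df b (n + 1) fun v => f v = g v := by
  have := Df.comp (b := b) (n := n) (Df.eq (TF.var 0) (TF.var 1))
    (g := fun i => if i = 0 then f else g) (fun i => by split_ifs; exacts [h, h'])
  exact this.congr fun v => by simp

theorem Df.flt (h : Fn (n + 1) f) (h' : Fn (n + 1) g) : Df b (n + 1) fun v => f v < g v :=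
  (Df.fle (h.add (Fn.const 1)) h').congr fun _ => Iff.rfl

end

end Pool.Agent.H23R
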