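import Pool.Agent.H23R.Om

/-!
Definability in the model.
-/

namespace Pool.Agent.H23R

open Set Filter Pool.Agent.H23 Pool.Agent.H23L

noncomputable section

/-- Contexts: parameters and a stack of bound variables. -/
@[ext] structure Cx (M : Str) (k : ℕ) where
  c : ℕ → M.N
  x : Fin k → M.N

section gen

variable {M : Str} {k : ℕ}

/-- The context of an assignment. -/
def cx (k : ℕ) (v : ℕ → M.N) : Cx M k := ⟨fun i => v (2 * i), fun j => v (2 * j + 1)⟩

def Cx.dN (z : Cx M (k + 1)) : Cx M k := ⟨z.c, fun j => z.x j.castSucc⟩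
def Cx.lN (z : Cx M (k + 1)) : M.N := z.x (Fin.last k)
def Cx.pN (z : Cx M k) (a : M.N) : Cx M (k + 1) := ⟨z.c, Fin.snoc (α := fun _ => M.N) z.x a⟩

@[simp] theorem dN_pN (z : Cx M k) (a : M.N) : (z.pN a).dN = z := by
  ext <;> simp [Cx.pN, Cx.dN]
@[simp] theorem lN_pN (z : Cx M k) (a : M.N) : (z.pN a).lN = a := by
  simp [Cx.pN, Cx.lN]

theorem cx_updN (v : ℕ → M.N) (a : M.N) :
    cx (k + 1) (Function.update v (2 * k + 1) a) = (cx k v).pN a := by
  ext i
  · exact congrArg _ (by rfl) |>.trans (Function.update_of_ne (by omega) _ _)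
  · refine Fin.lastCases ?_ (fun j => ?_) i
    · simp [cx, Cx.pN]
    · have : 2 * (j : ℕ) + 1 ≠ 2 * k + 1 := by have := j.2; omega
      simp only [cx, Cx.pN, Fin.snoc_castSucc, Fin.val_castSucc]
      exact Function.update_of_ne this _ _

/-- Elements given by terms. -/
def TM (F : Cx M k → M.N) : Prop := ∃ t : Tm, ∀ v, t.val M v = F (cx k v)
/-- Relations given by formulas. -/
def BD (R : Cx M k → Prop) : Prop := ∃ φ : Fm, ∀ v, Sat M v φ ↔ R (cx k v)

theorem TM.par (i : ℕ) : TM (M := M) (k := k) fun z => z.c i := ⟨.var (2 * i), fun _ => rfl⟩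
theorem TM.last : TM (M := M) (k := k + 1) fun z => z.lN := ⟨.var (2 * k + 1), fun _ => rfl⟩
theorem TM.lift {F : Cx M k → M.N} (h : TM F) : TM fun z : Cx M (k + 1) => F z.dN := h
theorem TM.succ {F : Cx M k → M.N} (h : TM F) : TM fun z => M.succ (F z) := by
  obtain ⟨t, ht⟩ := h
  exact ⟨.succ t, fun v => by simp only [Tm.val]; rw [ht]⟩
theorem TM.half {F : Cx M k → M.N} (h : TM F) : TM fun z => M.half (F z) := by
  obtain ⟨t, ht⟩ := h
  exact ⟨.half t, fun v => by simp only [Tm.val]; rw [ht]⟩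
theorem TM.len {F : Cx M k → M.N} (h : TM F) : TM fun z => M.len (F z) := by
  obtain ⟨t, ht⟩ := h
  exact ⟨.len t, fun v => by simp only [Tm.val]; rw [ht]⟩
theorem TM.add {F G : Cx M k → M.N} (h : TM F) (h' : TM G) : TM fun z => M.add (F z) (G z) := by
  obtain ⟨t, ht⟩ := h
  obtain ⟨u, hu⟩ := h'
  exact ⟨.add t u, fun v => by simp only [Tm.val]; rw [ht, hu]⟩
theorem TM.mul {F G : Cx M k → M.N} (h : TM F) (h' : TM G) : TM fun z => M.mul (F z) (G z) := by
  obtain ⟨t, ht⟩ := h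
  obtain ⟨u, hu⟩ := h'
  exact ⟨.mul t u, fun v => by simp only [Tm.val]; rw [ht, hu]⟩

theorem BD.le {F G : Cx M k → M.N} (h : TM F) (h' : TM G) : BD fun z => M.le (F z) (G z) := by
  obtain ⟨t, ht⟩ := h
  obtain ⟨u, hu⟩ := h'
  exact ⟨.le t u, fun v => by simp only [Sat]; rw [ht, hu]⟩
theorem BD.imp {R S : Cx M k → Prop} (h : BD R) (h' : BD S) : BD fun z => R z → S z := by
  obtain ⟨φ, h2⟩ := h
  obtain ⟨ψ, h4⟩ := h'
  exact ⟨φ.imp ψ, fun v => by simp only [Sat]; rw [h2, h4]⟩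
theorem BD.false : BD (M := M) (k := k) fun _ => False := ⟨.bot, fun _ => Iff.rfl⟩
theorem BD.not {R : Cx M k → Prop} (h : BD R) : BD fun z => ¬ R z := h.imp BD.false
theorem BD.congr {R S : Cx M k → Prop} (h : BD R) (e : ∀ z, R z ↔ S z) : BD S := by
  obtain ⟨φ, h2⟩ := h
  exact ⟨φ, fun v => (h2 v).trans (e _)⟩
theorem BD.and {R S : Cx M k → Prop} (h : BD R) (h' : BD S) : BD fun z => R z ∧ S z :=
  (h.imp h'.not).not.congr fun z => by tauto
theorem BD.or {R S : Cx M k → Prop} (h : BD R) (h' : BD S) : BD fun z => R z ∨ S z :=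
  (h.not.imp h').congr fun z => by tauto
theorem BD.iff {R S : Cx M k → Prop} (h : BD R) (h' : BD S) : BD fun z => (R z ↔ S z) :=
  ((h.imp h').and (h'.imp h)).congr fun z => by tauto
theorem BD.all {F : Cx M k → M.N} (h : TM F) (R : Cx M k → M.N → Prop)
    (hR : BD fun z : Cx M (k + 1) => R z.dN z.lN) :
    BD fun z => ∀ a, M.le a (F z) → R z a := by
  obtain ⟨t, ht⟩ := h
  obtain ⟨φ, h2⟩ := hR
  refine ⟨.all (2 * k + 1) t φ, fun v => ?_⟩
  simp only [Sat]
  rw [ht]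
  refine forall_congr' fun a => forall_congr' fun _ => ?_
  rw [h2, cx_updN]
  beta_reduce
  rw [dN_pN, lN_pN]
theorem BD.ex {F : Cx M k → M.N} (h : TM F) (R : Cx M k → M.N → Prop)
    (hR : BD fun z : Cx M (k + 1) => R z.dN z.lN) :
    BD fun z => ∃ a, M.le a (F z) ∧ R z a :=
  (BD.all h (fun z a => ¬ R z a) hR.not).not.congr fun z => by push Not; exact Iff.rfl

def prM (M : Str) (a b : M.N) : M.N := M.add (M.mul (M.add a b) (M.add a b)) a

theorem TM.pr {F G : Cx M k → M.N} (h : TM F) (h' : TM G) : TM fun z => prM M (F z) (G z) :=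
  ((h.add h').mul (h.add h')).add h

end gen

variable {k l : ℕ} {Q : Qd l} {D : Q.Y.Dat}

theorem BD.w {y U r c : Cx (M D) k → (M D).N} (hy : TM y) (hU : TM U) (hr : TM r) (hc : TM c) :
    BD fun z => Q.WR (M D) (y z) (U z) (r z) (c z) := by
  obtain ⟨t0, h0⟩ := hy
  obtain ⟨t1, h1⟩ := hU
  obtain ⟨t2, h2⟩ := hr
  obtain ⟨t3, h3⟩ := hc
  obtain ⟨φ', -, hφ'⟩ := exists_subst Q.φW_sp (q4 t0 t1 t2 t3)
  refine ⟨φ', fun v => ?_⟩
  rw [hφ' (M D) (M_refl D)]
  unfold Qd.WR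
  have : (fun i => (q4 t0 t1 t2 t3 i).val (M D) v) =
      q4 (y (cx k v)) (U (cx k v)) (r (cx k v)) (c (cx k v)) := by
    funext i
    rcases i with _ | _ | _ | i
    · exact h0 v
    · exact h1 v
    · exact h2 v
    · exact h3 v
  rw [this]

/-- The relations with the parameters taken from the context: parameter `1` is `2 ^ n`, parameter
`2` bounds the witnesses, parameter `3` is the number of the zero real. -/
def OmC (Q : Qd l) {M : Str} (c : ℕ → M.N) (n : M.N) : Prop := Q.OmR M (c 1) (c 2) (c 3) n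
def BitC (Q : Qd l) {M : Str} (c : ℕ → M.N) (x n : M.N) : Prop := Q.BitR M (c 1) (c 2) x n

theorem BD.om {n : Cx (M D) k → (M D).N} (hn : TM n) : BD fun z => OmC Q z.c (n z) :=
  (BD.le hn.succ (TM.par 1).half.len).and
    (BD.ex (TM.par 2)
      (fun z y => (Q.WR (M D) y (z.c 3) ((M D).add (n z) (n z)) (z.c 1) ∨
        Q.WR (M D) y (z.c 3) ((M D).succ ((M D).add (n z) (n z))) (z.c 1)))
      ((BD.w TM.last (TM.par 3) (hn.lift.add hn.lift) (TM.par 1)).or
        (BD.w TM.last (TM.par 3) (hn.lift.add hn.lift).succ (TM.par 1))))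

theorem BD.bit {X n : Cx (M D) k → (M D).N} (hX : TM X) (hn : TM n) :
    BD fun z => BitC Q z.c (X z) (n z) :=
  BD.ex (TM.par 2)
    (fun z y => Q.WR (M D) y (X z) ((M D).succ ((M D).add (n z) (n z))) (z.c 1))
    (BD.w TM.last hX.lift (hn.lift.add hn.lift).succ (TM.par 1))

/-- `z` codes the pair of the reals coded by `x` and `y`. -/
def PairC (Q : Qd l) {M : Str} (c : ℕ → M.N) (z x y : M.N) : Prop :=
  ∀ i, M.le i (c 1) → (OmC Q c i → ((BitC Q c z (M.add i i) ↔ BitC Q c x i) ∧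
    (BitC Q c z (M.succ (M.add i i)) ↔ BitC Q c y i)))

theorem BD.pair {Z X Y : Cx (M D) k → (M D).N} (hZ : TM Z) (hX : TM X) (hY : TM Y) :
    BD fun e => PairC Q e.c (Z e) (X e) (Y e) :=
  BD.all (TM.par 1) (fun e i => (OmC Q e.c i →
      ((BitC Q e.c (Z e) ((M D).add i i) ↔ BitC Q e.c (X e) i) ∧
      (BitC Q e.c (Z e) ((M D).succ ((M D).add i i)) ↔ BitC Q e.c (Y e) i))))
    ((BD.om TM.last).imp (((BD.bit hZ.lift (TM.last.add TM.last)).iff
      (BD.bit hX.lift TM.last)).and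
      ((BD.bit hZ.lift (TM.last.add TM.last).succ).iff (BD.bit hY.lift TM.last))))

/-- The relation of the base case; parameters `4` and `5` code the set. -/
def BaseC (Q : Qd l) {M : Str} (c : ℕ → M.N) (a : M.N) : Prop :=
  ∃ i, M.le i (c 1) ∧ (OmC Q c i ∧ ∀ q, M.le q (c 1) → (OmC Q c q → ∃ j, M.le j (c 1) ∧
    (OmC Q c j ∧ ((BitC Q c (c 5) (prM M (prM M i q) j) ∧ ¬ BitC Q c a j) ∨
      (BitC Q c (c 4) (prM M (prM M i q) j) ∧ BitC Q c a j)))))

theorem BD.base {X : Cx (M D) k → (M D).N} (hX : TM X) : BD fun e => BaseC Q e.c (X e) :=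
  BD.ex (TM.par 1) (fun e i => OmC Q e.c i ∧ ∀ q, (M D).le q (e.c 1) → (OmC Q e.c q → ∃ j,
      (M D).le j (e.c 1) ∧ (OmC Q e.c j ∧
      ((BitC Q e.c (e.c 5) (prM (M D) (prM (M D) i q) j) ∧ ¬ BitC Q e.c (X e) j) ∨
      (BitC Q e.c (e.c 4) (prM (M D) (prM (M D) i q) j) ∧ BitC Q e.c (X e) j)))))
    ((BD.om TM.last).and (BD.all (TM.par 1)
      (fun e q => (OmC Q e.c q → ∃ j, (M D).le j (e.c 1) ∧
        (OmC Q e.c j ∧
        ((BitC Q e.c (e.c 5) (prM (M D) (prM (M D) e.lN q) j) ∧ ¬ BitC Q e.c (X e.dN) j) ∨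
        (BitC Q e.c (e.c 4) (prM (M D) (prM (M D) e.lN q) j) ∧ BitC Q e.c (X e.dN) j)))))
      ((BD.om TM.last).imp (BD.ex (TM.par 1)
        (fun e j => (OmC Q e.c j ∧
          ((BitC Q e.c (e.c 5) (prM (M D) (prM (M D) e.dN.lN e.lN) j) ∧
            ¬ BitC Q e.c (X e.dN.dN) j) ∨
          (BitC Q e.c (e.c 4) (prM (M D) (prM (M D) e.dN.lN e.lN) j) ∧
            BitC Q e.c (X e.dN.dN) j))))
        ((BD.om TM.last).and
          (((BD.bit (TM.par 5) (TM.pr (TM.pr TM.last.lift.lift TM.last.lift) TM.last)).and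
            (BD.bit hX.lift.lift.lift TM.last).not).or
          ((BD.bit (TM.par 4) (TM.pr (TM.pr TM.last.lift.lift TM.last.lift) TM.last)).and
            (BD.bit hX.lift.lift.lift TM.last))))))))

end

end Pool.Agent.H23R
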