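import Pool.Agent.H23R.Defin

/-!
Every set of the hierarchy is definable in the model.
-/

namespace Pool.Agent.H23R

open Set Filter Pool.Agent.H23 Pool.Agent.H23L

noncomputable section

variable {l : ℕ} {Q : Qd l} (D : Q.Y.Dat)

open scoped Classical in
/-- The real coded by a number. -/
def rl (a : (M D).N) : Cantor := fun n => decide (Q.BitR (M D) (eC D) (eB D) a (nat D n))

theorem rl_eq_true (a : (M D).N) (n : ℕ) :
    rl D a n = true ↔ Q.BitR (M D) (eC D) (eB D) a (nat D n) := by simp [rl]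

theorem rl_eU (α : Cantor) : rl D (eU D α) = α := by
  funext n
  have h1 := rl_eq_true D (eU D α) n
  rw [bit_iff D] at h1
  cases h : α n <;> cases h' : rl D (eU D α) n <;> simp_all

/-- Bound for the numbers of reals. -/
def eM : (M D).N :=
  x1 D ⟨fun v => (2 ^ ((v 0).size * (v 0).size)) ^ (2 * (Q.m + 1)) * 2,
    Fn.tf ((((TF.var 0).smash (TF.var 0)).npow _).mul (TF.const 2))⟩ dA

theorem u1_eM : u1 D (eM D) = ((fun s => (2 ^ ((2 ^ Q.n s).size * (2 ^ Q.n s).size)) ^
    (2 * (Q.m + 1)) * 2 : ℕ → ℕ) : G1) := rfl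

theorem eU_le (α : Cantor) : (M D).le (eU D α) (eM D) := by
  rw [le_M D _ _ _ _ (u1_eU D α) (u1_eM D)]
  refine Eventually.of_forall fun s => ?_
  have h1 : Un Q.m (Q.n s) (fam D α s) < 2 * (2 ^ (Q.n s * (Q.m + 1))) ^ (2 * Q.n s) :=
    sc_lt _ fun i _ => insq_lt (by positivity) (fam_lt D α s) i
  refine h1.le.trans ?_
  rw [mul_comm, Nat.size_pow, ← pow_mul, ← pow_mul]
  refine Nat.mul_le_mul_right _ (Nat.pow_le_pow_right (by norm_num) ?_)
  set n := Q.n s
  calc n * (Q.m + 1) * (2 * n) = n * n * (2 * (Q.m + 1)) := by ring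
    _ ≤ (n + 1) * (n + 1) * (2 * (Q.m + 1)) := by gcongr <;> omega

/-- Good parameters. -/
structure GoodP (D : Q.Y.Dat) (c : ℕ → (M D).N) (g0 g1 : Cantor) : Prop where
  h1 : c 1 = eC D
  h2 : c 2 = eB D
  h3 : c 3 = eU D fun _ => false
  h4 : c 4 = eU D g0
  h5 : c 5 = eU D g1
  h6 : c 6 = eM D

variable {D}

theorem ex_om {e : ℕ → (M D).N} {g0 g1 : Cantor} (he : GoodP D e g0 g1) (P : (M D).N → Prop) :
    (∃ i, (M D).le i (e 1) ∧ (OmC Q e i ∧ P i)) ↔ ∃ n, P (nat D n) := by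
  constructor
  · rintro ⟨i, -, h2, h3⟩
    unfold OmC at h2
    rw [he.h1, he.h2, he.h3] at h2
    obtain ⟨n, rfl⟩ := om_std D _ i h2
    exact ⟨n, h3⟩
  · rintro ⟨n, hn⟩
    refine ⟨nat D n, by rw [he.h1]; exact nat_le_eC D n, ?_, hn⟩
    unfold OmC
    rw [he.h1, he.h2, he.h3]
    exact om_nat D _ n

theorem all_om {e : ℕ → (M D).N} {g0 g1 : Cantor} (he : GoodP D e g0 g1) (P : (M D).N → Prop) :
    (∀ i, (M D).le i (e 1) → (OmC Q e i → P i)) ↔ ∀ n, P (nat D n) := by
  have h := ex_om he fun i => ¬ P i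
  rw [← not_iff_not] at h
  push Not at h
  constructor
  · intro h1
    exact h.1 h1
  · intro h1
    exact h.2 h1

theorem prM_nat (i j : ℕ) : prM (M D) (nat D i) (nat D j) = nat D (prN i j) := by
  unfold prM prN
  rw [nat_add D, nat_mul D, nat_add D]

theorem pairC_iff {e : ℕ → (M D).N} {g0 g1 : Cantor} (he : GoodP D e g0 g1) (z x y : (M D).N) :
    PairC Q e z x y ↔ rl D z = pr2 (rl D x) (rl D y) := by
  unfold PairC
  rw [all_om he]
  unfold BitC
  rw [he.h1, he.h2]
  simp only [nat_add D, ← nat_succ D, ← rl_eq_true D]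
  constructor
  · intro h
    rw [← pr2_eta (rl D z)]
    congr 1
    · funext n
      have h1 := (h n).1
      unfold fstC
      rw [two_mul]
      cases h2 : rl D z (n + n) <;> cases h3 : rl D x n <;> simp_all
    · funext n
      have h1 := (h n).2
      unfold sndC
      rw [two_mul]
      cases h2 : rl D z (n + n + 1) <;> cases h3 : rl D y n <;> simp_all
  · intro h n
    have h1 : fstC (rl D z) n = rl D x n := by rw [h, fstC_pr2]
    have h2 : sndC (rl D z) n = rl D y n := by rw [h, sndC_pr2]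
    unfold fstC at h1
    unfold sndC at h2
    rw [two_mul] at h1 h2
    rw [h1, h2]
    exact ⟨Iff.rfl, Iff.rfl⟩

/-- Every set of the hierarchy is definable. -/
theorem definable (D : Q.Y.Dat) (n : ℕ) : ∀ S : Set Cantor, Sg n S →
    ∃ (g0 g1 : Cantor) (Rl : (ℕ → (M D).N) → (M D).N → Prop),
      (∀ {k : ℕ} (F : Cx (M D) k → (M D).N), TM F → BD fun e => Rl e.c (F e)) ∧
      ∀ (e : ℕ → (M D).N), GoodP D e g0 g1 → ∀ a, (Rl e a ↔ rl D a ∈ S) := by
  induction n with
  | zero =>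
    intro S hS
    obtain ⟨g0, g1, hg⟩ := isFs_code hS
    refine ⟨g0, g1, BaseC Q, fun F hF => BD.base hF, fun e he a => ?_⟩
    rw [hg]
    unfold BaseC
    rw [ex_om he]
    refine exists_congr fun i => ?_
    rw [all_om he]
    refine forall_congr' fun q => ?_
    rw [ex_om he]
    refine exists_congr fun j => ?_
    rw [prM_nat, prM_nat]
    unfold BitC
    rw [he.h1, he.h2, he.h4, he.h5, bit_iff D, bit_iff D, ← rl_eq_true D, Bool.not_eq_true]
  | succ n ih =>
    rintro S ⟨R, hR, rfl⟩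
    obtain ⟨g0, g1, Rl, h1, h2⟩ := ih R hR
    refine ⟨g0, g1, fun e a => ∃ y, (M D).le y (e 6) ∧ ∃ z,
      (M D).le z (e 6) ∧ (PairC Q e z a y ∧ ¬ Rl e z), ?_, ?_⟩
    · intro k F hF
      exact BD.ex (TM.par 6) (fun e y => ∃ z, (M D).le z (e.c 6) ∧
        (PairC Q e.c z (F e) y ∧ ¬ Rl e.c z))
        (BD.ex (TM.par 6) (fun e z => (PairC Q e.c z (F e.dN) e.lN ∧ ¬ Rl e.c z))
          ((BD.pair TM.last hF.lift.lift TM.last.lift).and (h1 _ TM.last).not))
    · intro e he a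
      constructor
      · rintro ⟨y, -, z, -, hp, hz⟩
        rw [pairC_iff he] at hp
        rw [h2 e he, hp] at hz
        exact ⟨rl D y, hz⟩
      · rintro ⟨β, hβ⟩
        refine ⟨eU D β, by rw [he.h6]; exact eU_le D _, eU D (pr2 (rl D a) β),
          by rw [he.h6]; exact eU_le D _, ?_, ?_⟩
        · rw [pairC_iff he, rl_eU D, rl_eU D]
        · rw [h2 e he, rl_eU D]
          exact hβ

end

end Pool.Agent.H23R
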