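import Pool.Agent.H23R.Lang

/-!
Basic facts on terms and formulas: dependence on finitely many variables, renaming, substitution,
growth of terms.
-/

namespace Pool.Agent.H23R

noncomputable section

/-- Truth in the standard structure. -/
abbrev SatN (v : ℕ → ℕ) (φ : Fm) : Prop := Sat std v φ

/-- Values in the standard structure. -/
abbrev valN (v : ℕ → ℕ) (t : Tm) : ℕ := t.val std v

@[simp] theorem valN_var (v : ℕ → ℕ) (i : ℕ) : valN v (.var i) = v i := rfl
@[simp] theorem valN_zero (v : ℕ → ℕ) : valN v .zero = 0 := rfl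
@[simp] theorem valN_succ (v : ℕ → ℕ) (t : Tm) : valN v (.succ t) = valN v t + 1 := rfl
@[simp] theorem valN_half (v : ℕ → ℕ) (t : Tm) : valN v (.half t) = valN v t / 2 := rfl
@[simp] theorem valN_len (v : ℕ → ℕ) (t : Tm) : valN v (.len t) = (valN v t).size := rfl
@[simp] theorem valN_add (v : ℕ → ℕ) (t u : Tm) : valN v (.add t u) = valN v t + valN v u := rfl
@[simp] theorem valN_mul (v : ℕ → ℕ) (t u : Tm) : valN v (.mul t u) = valN v t * valN v u := rfl
@[simp] theorem valN_smash (v : ℕ → ℕ) (t u : Tm) :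
    valN v (.smash t u) = 2 ^ ((valN v t).size * (valN v u).size) := rfl

@[simp] theorem satN_bot (v : ℕ → ℕ) : SatN v .bot ↔ False := Iff.rfl
@[simp] theorem satN_eq (v : ℕ → ℕ) (t u : Tm) : SatN v (.eq t u) ↔ valN v t = valN v u := Iff.rfl
@[simp] theorem satN_le (v : ℕ → ℕ) (t u : Tm) : SatN v (.le t u) ↔ valN v t ≤ valN v u := Iff.rfl
@[simp] theorem satN_imp (v : ℕ → ℕ) (φ ψ : Fm) :
    SatN v (.imp φ ψ) ↔ (SatN v φ → SatN v ψ) := Iff.rfl
@[simp] theorem satN_all (v : ℕ → ℕ) (k : ℕ) (t : Tm) (φ : Fm) :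
    SatN v (.all k t φ) ↔ ∀ a : ℕ, a ≤ valN v t → SatN (Function.update v k a) φ := Iff.rfl

/-- Only finitely many variables matter. -/
theorem val_dep (t : Tm) : ∃ m, ∀ (M : Str) (v v' : ℕ → M.N),
    (∀ i < m, v i = v' i) → t.val M v = t.val M v' := by
  induction t with
  | var i => exact ⟨i + 1, fun M v v' h => h i (Nat.lt_succ_self i)⟩
  | zero => exact ⟨0, fun _ _ _ _ => rfl⟩
  | succ t ih =>
    obtain ⟨m, h⟩ := ih
    exact ⟨m, fun M v v' hv => by simp only [Tm.val]; rw [h M v v' hv]⟩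
  | half t ih =>
    obtain ⟨m, h⟩ := ih
    exact ⟨m, fun M v v' hv => by simp only [Tm.val]; rw [h M v v' hv]⟩
  | len t ih =>
    obtain ⟨m, h⟩ := ih
    exact ⟨m, fun M v v' hv => by simp only [Tm.val]; rw [h M v v' hv]⟩
  | add t u iht ihu =>
    obtain ⟨m1, h1⟩ := iht
    obtain ⟨m2, h2⟩ := ihu
    refine ⟨max m1 m2, fun M v v' hv => ?_⟩
    simp only [Tm.val]
    rw [h1 M v v' fun i hi => hv i (lt_max_of_lt_left hi),
      h2 M v v' fun i hi => hv i (lt_max_of_lt_right hi)]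
  | mul t u iht ihu =>
    obtain ⟨m1, h1⟩ := iht
    obtain ⟨m2, h2⟩ := ihu
    refine ⟨max m1 m2, fun M v v' hv => ?_⟩
    simp only [Tm.val]
    rw [h1 M v v' fun i hi => hv i (lt_max_of_lt_left hi),
      h2 M v v' fun i hi => hv i (lt_max_of_lt_right hi)]
  | smash t u iht ihu =>
    obtain ⟨m1, h1⟩ := iht
    obtain ⟨m2, h2⟩ := ihu
    refine ⟨max m1 m2, fun M v v' hv => ?_⟩
    simp only [Tm.val]
    rw [h1 M v v' fun i hi => hv i (lt_max_of_lt_left hi),
      h2 M v v' fun i hi => hv i (lt_max_of_lt_right hi)]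

theorem update_agree {α : Type} {v v' : ℕ → α} {m k : ℕ} (h : ∀ i < m, v i = v' i) (a : α) :
    ∀ i < m, Function.update v k a i = Function.update v' k a i := by
  intro i hi
  by_cases hk : i = k
  · subst hk; simp
  · simp [hk, h i hi]

theorem sat_dep (φ : Fm) : ∃ m, ∀ (M : Str) (v v' : ℕ → M.N),
    (∀ i < m, v i = v' i) → (Sat M v φ ↔ Sat M v' φ) := by
  induction φ with
  | bot => exact ⟨0, fun _ _ _ _ => Iff.rfl⟩
  | eq t u =>
    obtain ⟨m1, h1⟩ := val_dep t
    obtain ⟨m2, h2⟩ := val_dep u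
    refine ⟨max m1 m2, fun M v v' hv => ?_⟩
    simp only [Sat]
    rw [h1 M v v' fun i hi => hv i (lt_max_of_lt_left hi),
      h2 M v v' fun i hi => hv i (lt_max_of_lt_right hi)]
  | le t u =>
    obtain ⟨m1, h1⟩ := val_dep t
    obtain ⟨m2, h2⟩ := val_dep u
    refine ⟨max m1 m2, fun M v v' hv => ?_⟩
    simp only [Sat]
    rw [h1 M v v' fun i hi => hv i (lt_max_of_lt_left hi),
      h2 M v v' fun i hi => hv i (lt_max_of_lt_right hi)]
  | imp φ ψ ih1 ih2 =>
    obtain ⟨m1, h1⟩ := ih1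
    obtain ⟨m2, h2⟩ := ih2
    refine ⟨max m1 m2, fun M v v' hv => ?_⟩
    simp only [Sat]
    rw [h1 M v v' fun i hi => hv i (lt_max_of_lt_left hi),
      h2 M v v' fun i hi => hv i (lt_max_of_lt_right hi)]
  | all k t φ ih =>
    obtain ⟨m1, h1⟩ := val_dep t
    obtain ⟨m2, h2⟩ := ih
    refine ⟨max m1 m2, fun M v v' hv => ?_⟩
    simp only [Sat]
    rw [h1 M v v' fun i hi => hv i (lt_max_of_lt_left hi)]
    refine forall_congr' fun a => forall_congr' fun _ => ?_
    exact h2 M _ _ (update_agree (fun i hi => hv i (lt_max_of_lt_right hi)) a)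

theorem IsSP.mono {b : Bool} {n m : ℕ} {φ : Fm} (h : IsSP b n φ) (hm : n ≤ m) : IsSP b m φ := by
  induction hm with
  | refl => exact h
  | step _ ih => exact .up ih

theorem IsSP.lt {b c : Bool} {n m : ℕ} {φ : Fm} (h : IsSP b n φ) (hm : n < m) : IsSP c m φ :=
  (IsSP.up (c := c) h).mono hm

theorem IsSP.not {b : Bool} {n : ℕ} {φ : Fm} (h : IsSP (!b) n φ) : IsSP b n (.imp φ .bot) :=
  .imp h (.sharp .bot)

/-! ### Renaming -/

/-- Renaming all variables (free and bound). -/
def Tm.ren (ρ : ℕ → ℕ) : Tm → Tm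
  | .var i => .var (ρ i)
  | .zero => .zero
  | .succ t => .succ (t.ren ρ)
  | .half t => .half (t.ren ρ)
  | .len t => .len (t.ren ρ)
  | .add t u => .add (t.ren ρ) (u.ren ρ)
  | .mul t u => .mul (t.ren ρ) (u.ren ρ)
  | .smash t u => .smash (t.ren ρ) (u.ren ρ)

def Fm.ren (ρ : ℕ → ℕ) : Fm → Fm
  | .bot => .bot
  | .eq t u => .eq (t.ren ρ) (u.ren ρ)
  | .le t u => .le (t.ren ρ) (u.ren ρ)
  | .imp φ ψ => .imp (φ.ren ρ) (ψ.ren ρ)
  | .all k t φ => .all (ρ k) (t.ren ρ) (φ.ren ρ)

theorem val_ren (M : Str) (ρ : ℕ → ℕ) (v : ℕ → M.N) (t : Tm) :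
    (t.ren ρ).val M v = t.val M (v ∘ ρ) := by
  induction t with
  | var i => rfl
  | zero => rfl
  | succ t ih => simp only [Tm.ren, Tm.val]; rw [ih]
  | half t ih => simp only [Tm.ren, Tm.val]; rw [ih]
  | len t ih => simp only [Tm.ren, Tm.val]; rw [ih]
  | add t u iht ihu => simp only [Tm.ren, Tm.val]; rw [iht, ihu]
  | mul t u iht ihu => simp only [Tm.ren, Tm.val]; rw [iht, ihu]
  | smash t u iht ihu => simp only [Tm.ren, Tm.val]; rw [iht, ihu]

theorem sat_ren (M : Str) {ρ : ℕ → ℕ} (hρ : Function.Injective ρ) (v : ℕ → M.N) (φ : Fm) :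
    Sat M v (φ.ren ρ) ↔ Sat M (v ∘ ρ) φ := by
  induction φ generalizing v with
  | bot => rfl
  | eq t u => simp only [Fm.ren, Sat]; rw [val_ren, val_ren]
  | le t u => simp only [Fm.ren, Sat]; rw [val_ren, val_ren]
  | imp φ ψ ih1 ih2 => simp only [Fm.ren, Sat]; rw [ih1, ih2]
  | all k t φ ih =>
    simp only [Fm.ren, Sat]
    rw [val_ren]
    refine forall_congr' fun a => forall_congr' fun _ => ?_
    rw [ih]
    have : Function.update v (ρ k) a ∘ ρ = Function.update (v ∘ ρ) k a := by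
      funext i
      by_cases h : i = k
      · subst h; simp
      · simp [h, hρ.ne h]
    rw [this]

theorem IsSharp.ren (ρ : ℕ → ℕ) {φ : Fm} (h : IsSharp φ) : IsSharp (φ.ren ρ) := by
  induction h with
  | bot => exact .bot
  | eq t u => exact .eq _ _
  | le t u => exact .le _ _
  | imp _ _ ih1 ih2 => exact .imp ih1 ih2
  | sall k t _ ih => exact .sall _ _ ih

theorem IsSP.ren (ρ : ℕ → ℕ) {b : Bool} {n : ℕ} {φ : Fm} (h : IsSP b n φ) :
    IsSP b n (φ.ren ρ) := by
  induction h with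
  | sharp h => exact .sharp (h.ren ρ)
  | up _ ih => exact .up ih
  | imp _ _ ih1 ih2 => exact .imp ih1 ih2
  | all k t _ ih => exact .all _ _ ih
  | sall k t _ ih => exact .sall _ _ ih

/-! ### Substitution of terms -/

/-- Substitution in terms. -/
def Tm.sub (σ : ℕ → Tm) : Tm → Tm
  | .var i => σ i
  | .zero => .zero
  | .succ t => .succ (t.sub σ)
  | .half t => .half (t.sub σ)
  | .len t => .len (t.sub σ)
  | .add t u => .add (t.sub σ) (u.sub σ)
  | .mul t u => .mul (t.sub σ) (u.sub σ)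
  | .smash t u => .smash (t.sub σ) (u.sub σ)

theorem val_sub (M : Str) (σ : ℕ → Tm) (v : ℕ → M.N) (t : Tm) :
    (t.sub σ).val M v = t.val M fun i => (σ i).val M v := by
  induction t with
  | var i => rfl
  | zero => rfl
  | succ t ih => simp only [Tm.sub, Tm.val]; rw [ih]
  | half t ih => simp only [Tm.sub, Tm.val]; rw [ih]
  | len t ih => simp only [Tm.sub, Tm.val]; rw [ih]
  | add t u iht ihu => simp only [Tm.sub, Tm.val]; rw [iht, ihu]
  | mul t u iht ihu => simp only [Tm.sub, Tm.val]; rw [iht, ihu]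
  | smash t u iht ihu => simp only [Tm.sub, Tm.val]; rw [iht, ihu]

/-- Bounded quantification of the kind `b`. -/
def bq (b : Bool) (k : ℕ) (t : Tm) (G φ : Fm) : Fm :=
  if b then .imp (.all k t (.imp G (.imp φ .bot))) .bot else .all k t (.imp G φ)

theorem isSP_bq {b : Bool} {n : ℕ} {G φ : Fm} (k : ℕ) (t : Tm) (hG : IsSP true (n + 1) G)
    (hφ : IsSP b (n + 1) φ) : IsSP b (n + 1) (bq b k t G φ) := by
  cases b with
  | true =>
    simp only [bq, if_true]
    refine IsSP.not ?_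
    exact .all _ _ (.imp hG (IsSP.not hφ))
  | false => exact .all _ _ (.imp hG hφ)

/-- If `G` determines `x_k`, both kinds of quantification mean substitution. -/
theorem sat_bq {M : Str} (b : Bool) {k : ℕ} {t : Tm} {G φ : Fm} {v : ℕ → M.N} {c : M.N}
    (hc : M.le c (t.val M v)) (hG : ∀ a, M.le a (t.val M v) →
      (Sat M (Function.update v k a) G ↔ a = c)) :
    Sat M v (bq b k t G φ) ↔ Sat M (Function.update v k c) φ := by
  cases b with
  | true =>
    simp only [bq, if_true, Sat]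
    constructor
    · intro h
      by_contra hcon
      apply h
      intro a ha h1 h2
      rw [hG a ha] at h1
      subst h1
      exact hcon h2
    · intro h h1
      exact h1 c hc ((hG c hc).2 rfl) h
  | false =>
    simp only [bq, Bool.false_eq_true, if_false, Sat]
    constructor
    · intro h
      exact h c hc ((hG c hc).2 rfl)
    · intro h a ha h1
      rw [hG a ha] at h1
      subst h1
      exact h

/-- Substitution of terms for variables in a formula, for structures with reflexive order. -/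
theorem exists_subst {b : Bool} {n : ℕ} {φ : Fm} (hφ : IsSP b (n + 1) φ) (t : ℕ → Tm) :
    ∃ φ', IsSP b (n + 1) φ' ∧ ∀ M : Str, (∀ a, M.le a a) → ∀ v : ℕ → M.N,
      (Sat M v φ' ↔ Sat M (fun i => (t i).val M v) φ) := by
  obtain ⟨m, hm⟩ := sat_dep φ
  choose d hd using fun i => val_dep (t i)
  let K := (Finset.range m).sup d
  have key : ∀ j ≤ m, ∃ φ', IsSP b (n + 1) φ' ∧ ∀ M : Str, (∀ a, M.le a a) → ∀ v : ℕ → M.N,
      (Sat M v φ' ↔ Sat M (fun i => if i < j then (t i).val M v else v (i + K)) φ) := by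
    intro j
    induction j with
    | zero =>
      intro _
      refine ⟨φ.ren fun i => i + K, hφ.ren _, fun M _ v => ?_⟩
      rw [sat_ren M (fun a b h => by simpa using h)]
      simp only [Nat.not_lt_zero, if_false]
      rfl
    | succ j ih =>
      intro hj
      obtain ⟨φ', h1, h2⟩ := ih (by omega)
      refine ⟨bq b (j + K) (t j) (.eq (.var (j + K)) (t j)) φ', isSP_bq _ _ (.sharp (.eq _ _)) h1,
        fun M hM v => ?_⟩
      have hdj : ∀ i < m, ∀ a, (t i).val M (Function.update v (j + K) a) = (t i).val M v := by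
        intro i hi a
        apply hd i
        intro l hl
        refine Function.update_of_ne ?_ _ _
        have : d i ≤ K := Finset.le_sup (f := d) (Finset.mem_range.2 hi)
        omega
      rw [sat_bq b (c := (t j).val M v) (hM _), h2 M hM]
      · apply hm
        intro i hi
        by_cases h3 : i < j
        · rw [if_pos h3, if_pos (by omega), hdj i hi]
        · by_cases h4 : i = j
          · subst h4
            simp
          · rw [if_neg h3, if_neg (by omega), Function.update_of_ne (by omega)]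
      · intro a _
        simp only [Sat, Tm.val, Function.update_self]
        rw [hdj j (by omega)]
  obtain ⟨φ', h1, h2⟩ := key m le_rfl
  refine ⟨φ', h1, fun M hM v => ?_⟩
  rw [h2 M hM]
  apply hm
  intro i hi
  rw [if_pos hi]

/-! ### Versions for the standard structure -/

theorem satN_ren {ρ : ℕ → ℕ} (hρ : Function.Injective ρ) (v : ℕ → ℕ) (φ : Fm) :
    SatN v (φ.ren ρ) ↔ SatN (fun i => v (ρ i)) φ := sat_ren std hρ v φ

theorem valN_ren (ρ : ℕ → ℕ) (v : ℕ → ℕ) (t : Tm) :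
    valN v (t.ren ρ) = valN (fun i => v (ρ i)) t := val_ren std ρ v t

theorem valN_sub (σ : ℕ → Tm) (v : ℕ → ℕ) (t : Tm) :
    valN v (t.sub σ) = valN (fun i => valN v (σ i)) t := val_sub std σ v t

theorem satN_dep (φ : Fm) : ∃ m, ∀ v v' : ℕ → ℕ,
    (∀ i < m, v i = v' i) → (SatN v φ ↔ SatN v' φ) := by
  obtain ⟨m, hm⟩ := sat_dep φ
  exact ⟨m, fun v v' => hm std v v'⟩

theorem valN_dep (t : Tm) : ∃ m, ∀ v v' : ℕ → ℕ,
    (∀ i < m, v i = v' i) → valN v t = valN v' t := by
  obtain ⟨m, hm⟩ := val_dep t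
  exact ⟨m, fun v v' => hm std v v'⟩

theorem satN_bq (b : Bool) {k : ℕ} {t : Tm} {G φ : Fm} {v : ℕ → ℕ} {c : ℕ}
    (hc : c ≤ valN v t) (hG : ∀ a : ℕ, a ≤ valN v t →
      (SatN (Function.update v k a) G ↔ a = c)) :
    SatN v (bq b k t G φ) ↔ SatN (Function.update v k c) φ :=
  sat_bq (M := std) b (v := v) (c := c) hc hG

/-! ### Monotonicity and growth -/

theorem valN_mono (t : Tm) {v v' : ℕ → ℕ} (h : ∀ i, v i ≤ v' i) : valN v t ≤ valN v' t := by
  induction t with
  | var i => exact h i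
  | zero => exact le_rfl
  | succ t ih => simp only [valN_succ]; omega
  | half t ih => simp only [valN_half]; omega
  | len t ih => simp only [valN_len]; exact Nat.size_le_size ih
  | add t u iht ihu => simp only [valN_add]; omega
  | mul t u iht ihu => simp only [valN_mul]; exact Nat.mul_le_mul iht ihu
  | smash t u iht ihu =>
    simp only [valN_smash]
    exact Nat.pow_le_pow_right (by norm_num)
      (Nat.mul_le_mul (Nat.size_le_size iht) (Nat.size_le_size ihu))

theorem size_mul_le (a b : ℕ) : (a * b).size ≤ a.size + b.size := by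
  rw [Nat.size_le, pow_add]
  have h1 := Nat.lt_size_self a
  have h2 := Nat.lt_size_self b
  exact Nat.mul_lt_mul'' h1 h2

theorem size_add_le (a b : ℕ) : (a + b).size ≤ a.size + b.size + 1 := by
  rw [Nat.size_le]
  have h1 := Nat.lt_size_self a
  have h2 := Nat.lt_size_self b
  have h3 : 2 ^ a.size ≤ 2 ^ (a.size + b.size) := Nat.pow_le_pow_right (by norm_num) (by omega)
  have h4 : 2 ^ b.size ≤ 2 ^ (a.size + b.size) := Nat.pow_le_pow_right (by norm_num) (by omega)
  rw [pow_succ]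
  omega

theorem size_size_le (a : ℕ) : a.size.size ≤ a.size :=
  (Nat.size_le_size (Nat.size_le.2 Nat.lt_two_pow_self))

/-- Growth of terms: lengths are polynomially bounded. -/
theorem val_growth (t : Tm) (c : ℕ) : ∃ c', ∀ n, 2 ≤ n → ∀ v : ℕ → ℕ,
    (∀ i, (v i).size ≤ n ^ c) → (valN v t).size ≤ n ^ c' := by
  induction t with
  | var i => exact ⟨c, fun n _ v hv => hv i⟩
  | zero => exact ⟨0, fun n _ v _ => by simp⟩
  | succ t ih =>
    obtain ⟨c1, h1⟩ := ih
    refine ⟨c1 + 2, fun n hn v hv => ?_⟩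
    have h2 := h1 n hn v hv
    have h3 : 1 ≤ n ^ c1 := Nat.one_le_pow _ _ (by omega)
    rw [valN_succ]
    have h4 := size_add_le (valN v t) 1
    rw [Nat.size_one] at h4
    have hnn : 4 ≤ n * n := by nlinarith
    calc _ ≤ n ^ c1 * 4 := by omega
      _ ≤ n ^ c1 * (n * n) := Nat.mul_le_mul_left _ hnn
      _ = n ^ (c1 + 2) := by ring
  | half t ih =>
    obtain ⟨c1, h1⟩ := ih
    refine ⟨c1, fun n hn v hv => (Nat.size_le_size ?_).trans (h1 n hn v hv)⟩
    rw [valN_half]; omega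
  | len t ih =>
    obtain ⟨c1, h1⟩ := ih
    refine ⟨c1, fun n hn v hv => ?_⟩
    rw [valN_len]
    exact (size_size_le _).trans (h1 n hn v hv)
  | add t u iht ihu =>
    obtain ⟨c1, h1⟩ := iht
    obtain ⟨c2, h2⟩ := ihu
    refine ⟨c1 + c2 + 2, fun n hn v hv => ?_⟩
    have h3 := h1 n hn v hv
    have h4 := h2 n hn v hv
    have h5 : 1 ≤ n ^ c1 := Nat.one_le_pow _ _ (by omega)
    have h6 : 1 ≤ n ^ c2 := Nat.one_le_pow _ _ (by omega)
    have h7 := size_add_le (valN v t) (valN v u)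
    rw [valN_add]
    have h8 : n ^ c1 + n ^ c2 ≤ 2 * (n ^ c1 * n ^ c2) := by nlinarith
    have h9 : 1 ≤ n ^ c1 * n ^ c2 := Nat.mul_pos h5 h6
    have hnn : 4 ≤ n * n := by nlinarith
    calc _ ≤ (n ^ c1 * n ^ c2) * 4 := by omega
      _ ≤ (n ^ c1 * n ^ c2) * (n * n) := Nat.mul_le_mul_left _ hnn
      _ = n ^ (c1 + c2 + 2) := by ring
  | mul t u iht ihu =>
    obtain ⟨c1, h1⟩ := iht
    obtain ⟨c2, h2⟩ := ihu
    refine ⟨c1 + c2 + 2, fun n hn v hv => ?_⟩
    have h3 := h1 n hn v hv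
    have h4 := h2 n hn v hv
    have h5 : 1 ≤ n ^ c1 := Nat.one_le_pow _ _ (by omega)
    have h6 : 1 ≤ n ^ c2 := Nat.one_le_pow _ _ (by omega)
    have h7 := size_mul_le (valN v t) (valN v u)
    rw [valN_mul]
    have h8 : n ^ c1 + n ^ c2 ≤ 2 * (n ^ c1 * n ^ c2) := by nlinarith
    have h9 : 1 ≤ n ^ c1 * n ^ c2 := Nat.mul_pos h5 h6
    have hnn : 4 ≤ n * n := by nlinarith
    calc _ ≤ (n ^ c1 * n ^ c2) * 4 := by omega
      _ ≤ (n ^ c1 * n ^ c2) * (n * n) := Nat.mul_le_mul_left _ hnn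
      _ = n ^ (c1 + c2 + 2) := by ring
  | smash t u iht ihu =>
    obtain ⟨c1, h1⟩ := iht
    obtain ⟨c2, h2⟩ := ihu
    refine ⟨c1 + c2 + 2, fun n hn v hv => ?_⟩
    have h3 := h1 n hn v hv
    have h4 := h2 n hn v hv
    have h5 : 1 ≤ n ^ c1 := Nat.one_le_pow _ _ (by omega)
    have h6 : 1 ≤ n ^ c2 := Nat.one_le_pow _ _ (by omega)
    rw [valN_smash, Nat.size_pow]
    have h9 : 1 ≤ n ^ c1 * n ^ c2 := Nat.mul_pos h5 h6
    have h10 := Nat.mul_le_mul h3 h4
    have hnn : 4 ≤ n * n := by nlinarith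
    calc _ ≤ (n ^ c1 * n ^ c2) * 4 := by omega
      _ ≤ (n ^ c1 * n ^ c2) * (n * n) := Nat.mul_le_mul_left _ hnn
      _ = n ^ (c1 + c2 + 2) := by ring

end

end Pool.Agent.H23R
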