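import Pool.Agent.H23R.Rob2

/-!
Some functions: division, powers of two, square roots, entries of sequences, projections.
-/

namespace Pool.Agent.H23R

noncomputable section

variable {b : Bool} {n : ℕ}

theorem fn_mod : Fn (n + 1) fun v => v 0 % v 1 := by
  refine ⟨⟨.var 0, fun v => Nat.mod_le _ _⟩, ?_⟩
  have h : Df true (n + 1) fun u => (∃ h ≤ u 1, u 1 = h * u 2 + u 0 ∧ u 0 < u 2) ∨
      (u 2 = 0 ∧ u 0 = u 1) := by
    refine Df.or (Df.bex (TF.var 1) (R := fun w => w 2 = w 0 * w 3 + w 1 ∧ w 1 < w 3) ?_)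
      (Df.and (Df.eq (TF.var 2) TF.zero) (Df.eq (TF.var 0) (TF.var 1)))
    exact Df.and (Df.eq (TF.var 2) (((TF.var 0).mul (TF.var 3)).add (TF.var 1)))
      (Df.lt (TF.var 1) (TF.var 3))
  refine h.congr fun u => ?_
  change _ ↔ u 0 = u 1 % u 2
  constructor
  · rintro (⟨h, -, h1, h2⟩ | ⟨h1, h2⟩)
    · rw [h1, mul_comm, Nat.mul_add_mod, Nat.mod_eq_of_lt h2]
    · rw [h1, h2, Nat.mod_zero]
  · intro h
    rcases Nat.eq_zero_or_pos (u 2) with h0 | h0
    · right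
      rw [h0, Nat.mod_zero] at h
      exact ⟨h0, h⟩
    · left
      refine ⟨u 1 / u 2, Nat.div_le_self _ _, ?_, ?_⟩
      · rw [h, mul_comm, Nat.div_add_mod]
      · rw [h]; exact Nat.mod_lt _ h0

theorem fn_div : Fn (n + 1) fun v => v 0 / v 1 := by
  refine ⟨⟨.var 0, fun v => Nat.div_le_self _ _⟩, ?_⟩
  have h : Df true (n + 1) fun u => (∃ e ≤ u 1, u 1 = u 0 * u 2 + e ∧ e < u 2) ∨
      (u 2 = 0 ∧ u 0 = 0) := by
    refine Df.or (Df.bex (TF.var 1) (R := fun w => w 2 = w 1 * w 3 + w 0 ∧ w 0 < w 3) ?_)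
      (Df.and (Df.eq (TF.var 2) TF.zero) (Df.eq (TF.var 0) TF.zero))
    exact Df.and (Df.eq (TF.var 2) (((TF.var 1).mul (TF.var 3)).add (TF.var 0)))
      (Df.lt (TF.var 0) (TF.var 3))
  refine h.congr fun u => ?_
  change _ ↔ u 0 = u 1 / u 2
  constructor
  · rintro (⟨e, -, h1, h2⟩ | ⟨h1, h2⟩)
    · rw [h1, mul_comm, Nat.mul_add_div (by omega), Nat.div_eq_of_lt h2, add_zero]
    · rw [h1, h2, Nat.div_zero]
  · intro h
    rcases Nat.eq_zero_or_pos (u 2) with h0 | h0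
    · right
      rw [h0, Nat.div_zero] at h
      exact ⟨h0, h⟩
    · left
      refine ⟨u 1 % u 2, Nat.mod_le _ _, ?_, Nat.mod_lt _ h0⟩
      rw [h, mul_comm, Nat.div_add_mod]

theorem rfn_mod : RFn (n + 1) fun v => v 0 % v 1 := by
  refine ⟨⟨.var 0, fun v => Nat.mod_le _ _⟩, ?_⟩
  have h : Rb true (n + 1) fun u => (∃ h ≤ u 1, u 1 = h * u 2 + u 0 ∧ u 0 < u 2) ∨
      (u 2 = 0 ∧ u 0 = u 1) := by
    refine Rb.or (Rb.bex (TF.var 1) (R := fun w => w 2 = w 0 * w 3 + w 1 ∧ w 1 < w 3)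
      (g := fun u => u 1 / u 2) ?_ (fn_div.ren (ρ := fun i => i + 1) fun a b h => by simpa using h)
      ?_)
      (Rb.and (Rb.eq (TF.var 2) TF.zero) (Rb.eq (TF.var 0) (TF.var 1)))
    · exact Rb.and (Rb.eq (TF.var 2) (((TF.var 0).mul (TF.var 3)).add (TF.var 1)))
        (Rb.lt (TF.var 1) (TF.var 3))
    · rintro u ⟨a, -, h1, h2⟩
      change u 1 = a * u 2 + u 0 at h1
      change u 0 < u 2 at h2
      have e : u 1 / u 2 = a := by
        rw [h1, mul_comm, Nat.mul_add_div (by omega), Nat.div_eq_of_lt h2, add_zero]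
      refine ⟨Nat.div_le_self _ _, ?_, h2⟩
      change u 1 = u 1 / u 2 * u 2 + u 0
      rw [e]
      exact h1
  refine h.congr fun u => ?_
  change _ ↔ u 0 = u 1 % u 2
  constructor
  · rintro (⟨h, -, h1, h2⟩ | ⟨h1, h2⟩)
    · rw [h1, mul_comm, Nat.mul_add_mod, Nat.mod_eq_of_lt h2]
    · rw [h1, h2, Nat.mod_zero]
  · intro h
    rcases Nat.eq_zero_or_pos (u 2) with h0 | h0
    · right
      rw [h0, Nat.mod_zero] at h
      exact ⟨h0, h⟩
    · left
      refine ⟨u 1 / u 2, Nat.div_le_self _ _, ?_, ?_⟩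
      · rw [h, mul_comm, Nat.div_add_mod]
      · rw [h]; exact Nat.mod_lt _ h0

theorem rfn_div : RFn (n + 1) fun v => v 0 / v 1 := by
  refine ⟨⟨.var 0, fun v => Nat.div_le_self _ _⟩, ?_⟩
  have h : Rb true (n + 1) fun u => (∃ e ≤ u 1, u 1 = u 0 * u 2 + e ∧ e < u 2) ∨
      (u 2 = 0 ∧ u 0 = 0) := by
    refine Rb.or (Rb.bex (TF.var 1) (R := fun w => w 2 = w 1 * w 3 + w 0 ∧ w 0 < w 3)
      (g := fun u => u 1 % u 2) ?_ (fn_mod.ren (ρ := fun i => i + 1) fun a b h => by simpa using h)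
      ?_)
      (Rb.and (Rb.eq (TF.var 2) TF.zero) (Rb.eq (TF.var 0) TF.zero))
    · exact Rb.and (Rb.eq (TF.var 2) (((TF.var 1).mul (TF.var 3)).add (TF.var 0)))
        (Rb.lt (TF.var 0) (TF.var 3))
    · rintro u ⟨a, -, h1, h2⟩
      change u 1 = u 0 * u 2 + a at h1
      change a < u 2 at h2
      have e : u 1 % u 2 = a := by
        rw [h1, mul_comm, Nat.mul_add_mod, Nat.mod_eq_of_lt h2]
      refine ⟨Nat.mod_le _ _, ?_, ?_⟩
      · change u 1 = u 0 * u 2 + u 1 % u 2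
        rw [e]
        exact h1
      · change u 1 % u 2 < u 2
        rw [e]
        exact h2
  refine h.congr fun u => ?_
  change _ ↔ u 0 = u 1 / u 2
  constructor
  · rintro (⟨e, -, h1, h2⟩ | ⟨h1, h2⟩)
    · rw [h1, mul_comm, Nat.mul_add_div (by omega), Nat.div_eq_of_lt h2, add_zero]
    · rw [h1, h2, Nat.div_zero]
  · intro h
    rcases Nat.eq_zero_or_pos (u 2) with h0 | h0
    · right
      rw [h0, Nat.div_zero] at h
      exact ⟨h0, h⟩
    · left
      refine ⟨u 1 % u 2, Nat.mod_le _ _, ?_, Nat.mod_lt _ h0⟩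
      rw [h, mul_comm, Nat.div_add_mod]

theorem eq_two_pow {p m : ℕ} (h1 : p.size = m + 1) (h2 : 2 ^ p.size = p + p) : p = 2 ^ m := by
  rw [h1, pow_succ] at h2
  omega

/-- Powers of two. -/
def pw (d a : ℕ) : ℕ := if d ≤ a.size then 2 ^ d else 0

theorem rfn_pw : RFn (n + 1) fun v => pw (v 0) (v 1) := by
  refine ⟨?_, ?_⟩
  · obtain ⟨t, ht⟩ := (TF.var 1).pow_size
    refine ⟨t, fun v => ?_⟩
    rw [ht]
    unfold pw
    beta_reduce
    split_ifs with h
    · exact Nat.pow_le_pow_right (by norm_num) h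
    · exact Nat.zero_le _
  · have h : Rb true (n + 1) fun u => (u 1 ≤ (u 2).size ∧ (u 0).size = u 1 + 1 ∧
        2 ^ (u 0).size = u 0 + u 0) ∨ ((u 2).size < u 1 ∧ u 0 = 0) := by
      refine Rb.or (Rb.and (Rb.le (TF.var 1) (TF.var 2).size) (Rb.and
        (Rb.eq (TF.var 0).size (TF.var 1).succ)
        (Rb.eq (TF.var 0).pow_size ((TF.var 0).add (TF.var 0)))))
        (Rb.and (Rb.lt (TF.var 2).size (TF.var 1)) (Rb.eq (TF.var 0) TF.zero))
    refine h.congr fun u => ?_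
    change _ ↔ u 0 = pw (u 1) (u 2)
    unfold pw
    constructor
    · rintro (⟨h1, h2, h3⟩ | ⟨h1, h2⟩)
      · rw [if_pos h1]
        exact eq_two_pow h2 h3
      · rw [if_neg (by omega)]
        exact h2
    · intro h1
      split_ifs at h1 with h2
      · left
        refine ⟨h2, ?_, ?_⟩
        · rw [h1, Nat.size_pow]
        · rw [h1, Nat.size_pow, pow_succ]; ring
      · right
        exact ⟨by omega, h1⟩

theorem rfn_sub : RFn (n + 1) fun v => v 0 - v 1 := by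
  refine ⟨⟨.var 0, fun v => Nat.sub_le _ _⟩, ?_⟩
  have h : Rb true (n + 1) fun u => (u 0 + u 2 = u 1) ∨ (u 1 < u 2 ∧ u 0 = 0) :=
    Rb.or (Rb.eq ((TF.var 0).add (TF.var 2)) (TF.var 1))
      (Rb.and (Rb.lt (TF.var 1) (TF.var 2)) (Rb.eq (TF.var 0) TF.zero))
  refine h.congr fun u => ?_
  change _ ↔ u 0 = u 1 - u 2
  omega

theorem rfn_sqrt : RFn (n + 1) fun v => (v 0).sqrt := by
  refine ⟨⟨.var 0, fun v => Nat.sqrt_le_self _⟩, ?_⟩
  have h : Rb true (n + 1) fun u => u 0 * u 0 ≤ u 1 ∧ u 1 < (u 0 + 1) * (u 0 + 1) :=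
    Rb.and (Rb.le ((TF.var 0).mul (TF.var 0)) (TF.var 1))
      (Rb.lt (TF.var 1) ((TF.var 0).succ.mul (TF.var 0).succ))
  refine h.congr fun u => ?_
  change _ ↔ u 0 = (u 1).sqrt
  constructor
  · rintro ⟨h1, h2⟩
    exact (eq_sqrt h1 h2).symm
  · intro h1
    rw [h1]
    exact ⟨Nat.sqrt_le _, Nat.lt_succ_sqrt _⟩

variable {f g h : (ℕ → ℕ) → ℕ}

theorem RFn.div (hf : RFn (n + 1) f) (hg : RFn (n + 1) g) : RFn (n + 1) fun v => f v / g v :=
  RFn.comp2 (F := fun a b => a / b) rfn_div hf hg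
theorem RFn.mod (hf : RFn (n + 1) f) (hg : RFn (n + 1) g) : RFn (n + 1) fun v => f v % g v :=
  RFn.comp2 (F := fun a b => a % b) rfn_mod hf hg
theorem RFn.pw (hf : RFn (n + 1) f) (hg : RFn (n + 1) g) :
    RFn (n + 1) fun v => H23R.pw (f v) (g v) :=
  RFn.comp2 (F := fun a b => H23R.pw a b) rfn_pw hf hg
theorem RFn.sub (hf : RFn (n + 1) f) (hg : RFn (n + 1) g) : RFn (n + 1) fun v => f v - g v :=
  RFn.comp2 (F := fun a b => a - b) rfn_sub hf hg
theorem RFn.sqrt (hf : RFn (n + 1) f) : RFn (n + 1) fun v => (f v).sqrt :=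
  RFn.comp1 (F := fun a => a.sqrt) rfn_sqrt hf

theorem rfn_ext : RFn (n + 1) fun v => ext (v 0) (v 1) (v 2) := by
  have hc : ∀ b, Rb b (n + 1) fun v => v 1 * v 2 + v 2 < (v 0).size := fun b =>
    Rb.lt (((TF.var 1).mul (TF.var 2)).add (TF.var 2)) (TF.var 0).size
  have h1 : RFn (n + 1) fun v => v 0 / H23R.pw (v 1 * v 2) (v 0) % H23R.pw (v 2) (v 0) :=
    ((RFn.var 0).div (((RFn.var 1).mul (RFn.var 2)).pw (RFn.var 0))).mod
      ((RFn.var 2).pw (RFn.var 0))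
  refine (RFn.ite (hc _) (hc _) h1 (RFn.const 0)).congr fun v => ?_
  unfold ext
  split_ifs with hh
  · unfold H23R.pw
    rw [if_pos (by omega), if_pos (by omega)]
  · rfl

theorem RFn.ext (hf : RFn (n + 1) f) (hg : RFn (n + 1) g) (hh : RFn (n + 1) h) :
    RFn (n + 1) fun v => H23R.ext (f v) (g v) (h v) := by
  have := RFn.comp (n := n) rfn_ext
    (g := fun i => if i = 0 then f else if i = 1 then g else h)
    (fun i => by split_ifs; exacts [hf, hg, hh])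
  exact this.congr fun v => by simp

theorem RFn.fst (hf : RFn (n + 1) f) : RFn (n + 1) fun v => fstP (f v) :=
  hf.sub (hf.sqrt.mul hf.sqrt)

theorem RFn.snd (hf : RFn (n + 1) f) : RFn (n + 1) fun v => sndP (f v) :=
  hf.sqrt.sub hf.fst

/-! ### Functions with simple graphs -/

theorem Fn.comp2 {F : ℕ → ℕ → ℕ} (h : Fn (n + 1) fun v => F (v 0) (v 1)) (hf : Fn (n + 1) f)
    (hg : Fn (n + 1) g) : Fn (n + 1) fun v => F (f v) (g v) := by
  have := h.comp (g := fun i => if i = 0 then f else g) (fun i => by split_ifs; exacts [hf, hg])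
  exact this.congr fun v => by simp

theorem Fn.comp1 {F : ℕ → ℕ} (h : Fn (n + 1) fun v => F (v 0)) (hf : Fn (n + 1) f) :
    Fn (n + 1) fun v => F (f v) :=
  h.comp (g := fun _ => f) fun _ => hf

theorem Fn.ext (hf : Fn (n + 1) f) (hg : Fn (n + 1) g) (hh : Fn (n + 1) h) :
    Fn (n + 1) fun v => H23R.ext (f v) (g v) (h v) := by
  have := Fn.comp (n := n) rfn_ext.fn
    (g := fun i => if i = 0 then f else if i = 1 then g else h)
    (fun i => by split_ifs; exacts [hf, hg, hh])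
  exact this.congr fun v => by simp

theorem Fn.fst (hf : Fn (n + 1) f) : Fn (n + 1) fun v => fstP (f v) :=
  Fn.comp1 (F := fstP) (RFn.fst (RFn.var 0)).fn hf
theorem Fn.snd (hf : Fn (n + 1) f) : Fn (n + 1) fun v => sndP (f v) :=
  Fn.comp1 (F := sndP) (RFn.snd (RFn.var 0)).fn hf
theorem Fn.pw (hf : Fn (n + 1) f) (hg : Fn (n + 1) g) :
    Fn (n + 1) fun v => H23R.pw (f v) (g v) :=
  Fn.comp2 (F := H23R.pw) rfn_pw.fn hf hg

/-- Definition by cases. -/
theorem Fn.ite {R : (ℕ → ℕ) → Prop} (hc : Df true (n + 1) R) (hc' : Df .false (n + 1) R)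
    (h : Fn (n + 1) f) (h' : Fn (n + 1) g) [DecidablePred R] :
    Fn (n + 1) fun v => if R v then f v else g v := by
  refine ⟨?_, ?_⟩
  · obtain ⟨t, ht⟩ := h.1
    obtain ⟨u, hu⟩ := h'.1
    refine ⟨.add t u, fun v => ?_⟩
    rw [valN_add]
    have h1 := ht v
    have h2 := hu v
    beta_reduce
    split_ifs <;> omega
  · have h1 : Df .true (n + 1) fun v => (R (fun i => v (i + 1)) ∧ v 0 = f fun i => v (i + 1)) ∨
        (¬ R (fun i => v (i + 1)) ∧ v 0 = g fun i => v (i + 1)) :=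
      (hc.shift.and h.2).or ((Df.not (b := .true) hc'.shift).and h'.2)
    refine h1.congr fun v => ?_
    beta_reduce
    by_cases hR : R (fun i => v (i + 1))
    · simp [hR]
    · simp [hR]

end

end Pool.Agent.H23R
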