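import Mathlib

/-!
A greedy covering lemma.
-/

namespace Pool.Agent.H23R

open Finset

noncomputable section

open scoped Classical

theorem pow_aux (a n : ℕ) : a ^ n * (a + n) ≤ a * (a + 1) ^ n := by
  induction n with
  | zero => simp
  | succ n ih =>
    have h1 : (a + 1) * (a ^ n * (a + n)) ≤ a * (a + 1) ^ (n + 1) := by
      calc (a + 1) * (a ^ n * (a + n)) ≤ (a + 1) * (a * (a + 1) ^ n) := Nat.mul_le_mul_left _ ih
        _ = a * (a + 1) ^ (n + 1) := by ring
    refine le_trans ?_ h1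
    have h2 : a ^ (n + 1) * (a + (n + 1)) = a * (a ^ n * (a + n)) + a ^ n * a := by ring
    have h3 : (a + 1) * (a ^ n * (a + n)) = a * (a ^ n * (a + n)) + a ^ n * (a + n) := by ring
    rw [h2, h3]
    gcongr
    omega

theorem pow_aux2 (x : ℕ) (hx : 1 ≤ x) : 2 * (x - 1) ^ x ≤ x ^ x := by
  obtain ⟨a, rfl⟩ : ∃ a, x = a + 1 := ⟨x - 1, by omega⟩
  rw [Nat.add_sub_cancel]
  rcases Nat.eq_zero_or_pos a with rfl | ha
  · simp
  have h1 := pow_aux a a
  have h2 : 2 * a ^ a ≤ (a + 1) ^ a := by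
    have : a * (2 * a ^ a) ≤ a * (a + 1) ^ a := by
      calc a * (2 * a ^ a) = a ^ a * (a + a) := by ring
        _ ≤ _ := h1
    exact Nat.le_of_mul_le_mul_left this ha
  calc 2 * a ^ (a + 1) = a * (2 * a ^ a) := by ring
    _ ≤ (a + 1) * (a + 1) ^ a := Nat.mul_le_mul (Nat.le_succ a) h2
    _ = (a + 1) ^ (a + 1) := by ring

theorem greedy {A X : Type} [Fintype X] (C : A → X → Prop) (x : ℕ) (hx : 1 ≤ x)
    (h : ∀ S : Finset X, S.Nonempty → ∃ a, S.card < (S.filter (C a)).card * x) (r : ℕ) :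
    ∃ l : List A, l.length ≤ r ∧
      (univ.filter fun q => ∀ a ∈ l, ¬ C a q).card * x ^ r ≤ Fintype.card X * (x - 1) ^ r := by
  induction r with
  | zero => exact ⟨[], le_rfl, by simp⟩
  | succ r ih =>
    obtain ⟨l, hl, hc⟩ := ih
    set S := univ.filter fun q => ∀ a ∈ l, ¬ C a q with hS
    rcases S.eq_empty_or_nonempty with h0 | h0
    · refine ⟨l, by omega, ?_⟩
      rw [← hS, h0]
      simp
    · obtain ⟨a, ha⟩ := h S h0
      refine ⟨a :: l, by simp; omega, ?_⟩
      have e : (univ.filter fun q => ∀ b ∈ a :: l, ¬ C b q) = S.filter fun q => ¬ C a q := by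
        ext q
        simp only [hS, mem_filter, mem_univ, true_and, List.mem_cons, forall_eq_or_imp]
        tauto
      rw [e]
      have h1 := Finset.card_filter_add_card_filter_not (s := S) (C a)
      set u := (S.filter (C a)).card
      set w := (S.filter fun q => ¬ C a q).card
      have h2 : w * x ≤ S.card * (x - 1) := by
        obtain ⟨y, rfl⟩ : ∃ y, x = y + 1 := ⟨x - 1, by omega⟩
        rw [Nat.add_sub_cancel]
        nlinarith
      calc w * x ^ (r + 1) = (w * x) * x ^ r := by ring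
        _ ≤ (S.card * (x - 1)) * x ^ r := Nat.mul_le_mul_right _ h2
        _ = (S.card * x ^ r) * (x - 1) := by ring
        _ ≤ (Fintype.card X * (x - 1) ^ r) * (x - 1) := Nat.mul_le_mul_right _ hc
        _ = Fintype.card X * (x - 1) ^ (r + 1) := by ring

theorem greedy_all {A X : Type} [Fintype X] (C : A → X → Prop) (x N : ℕ) (hx : 1 ≤ x)
    (hN : Fintype.card X ≤ 2 ^ N)
    (h : ∀ S : Finset X, S.Nonempty → ∃ a, S.card < (S.filter (C a)).card * x) :
    ∃ l : List A, l.length ≤ x * (N + 1) ∧ ∀ q, ∃ a ∈ l, C a q := by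
  obtain ⟨l, hl, hc⟩ := greedy C x hx h (x * (N + 1))
  refine ⟨l, hl, fun q => ?_⟩
  by_contra hcon
  push Not at hcon
  have h1 : 1 ≤ (univ.filter fun q => ∀ a ∈ l, ¬ C a q).card :=
    Finset.card_pos.2 ⟨q, by simpa using hcon⟩
  have h2 : 2 ^ (N + 1) * (x - 1) ^ (x * (N + 1)) ≤ x ^ (x * (N + 1)) := by
    rw [pow_mul, pow_mul, ← mul_pow]
    exact Nat.pow_le_pow_left (pow_aux2 x hx) _
  have h3 : 0 < x ^ (x * (N + 1)) := pow_pos hx _
  have h4 : x ^ (x * (N + 1)) ≤ 2 ^ N * (x - 1) ^ (x * (N + 1)) := by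
    calc x ^ (x * (N + 1)) = 1 * x ^ (x * (N + 1)) := (one_mul _).symm
      _ ≤ _ := Nat.mul_le_mul_right _ h1
      _ ≤ _ := hc
      _ ≤ _ := Nat.mul_le_mul_right _ hN
  rw [pow_succ] at h2
  nlinarith

end

end Pool.Agent.H23R
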