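import Pool.Agent.H23R.KL
import Pool.Agent.H23L.Main

/-!
The system of families of hard instances.
-/

namespace Pool.Agent.H23R

open Finset Filter Pool.Agent.H23L

noncomputable section

open scoped Classical

variable {l : ℕ} (Q : Qd l)

/-- The lengths of the hard instances. -/
def Qd.n (s : ℕ) : ℕ := (Q.exists_good s (s + 2)).choose

theorem Qd.n_ge (s : ℕ) : s + 2 ≤ Q.n s := (Q.exists_good s (s + 2)).choose_spec.1

/-- The hard sets. -/
def Qd.S (s : ℕ) : Finset ℕ := (Q.exists_good s (s + 2)).choose_spec.2.choose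

theorem Qd.S_good (s : ℕ) : Q.Good (Q.n s) s (Q.S s) :=
  (Q.exists_good s (s + 2)).choose_spec.2.choose_spec

/-- Index of a block. -/
def bi (k : ℕ) (ε : Bool) : ℕ := 2 * k + if ε then 1 else 0

/-- The sequence of instances. -/
def insq {n : ℕ} (x : Fin n × Bool → ℕ) (r : ℕ) : ℕ :=
  if h : r / 2 < n then x (⟨r / 2, h⟩, decide (r % 2 = 1)) else 0

theorem insq_bi {n : ℕ} (x : Fin n × Bool → ℕ) (k : Fin n) (ε : Bool) :
    insq x (bi k ε) = x (k, ε) := by
  have e3 : bi k ε / 2 = k := by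
    unfold bi
    cases ε
    · simp
    · rw [if_pos rfl]; omega
  have e4 : decide (bi k ε % 2 = 1) = ε := by unfold bi; cases ε <;> simp
  unfold insq
  have h : bi k ε / 2 < n := by rw [e3]; exact k.2
  rw [dif_pos h]
  congr 1
  exact Prod.ext (Fin.ext e3) e4

theorem insq_update {n : ℕ} (x : Fin n × Bool → ℕ) (k : Fin n) (ε : Bool) (q : ℕ) :
    insq (Function.update x (k, ε) q) = Function.update (insq x) (bi k ε) q := by
  funext r
  by_cases hr : r = bi k ε
  · subst hr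
    rw [insq_bi, Function.update_self, Function.update_self]
  · rw [Function.update_of_ne hr]
    unfold insq
    split_ifs with h
    · refine Function.update_of_ne ?_ _ _
      intro h1
      apply hr
      have h2 := congrArg (fun a : Fin n × Bool => (a.1 : ℕ)) h1
      have h3 := congrArg (fun a : Fin n × Bool => a.2) h1
      simp only at h2 h3
      unfold bi
      rw [← h2, ← h3]
      by_cases h4 : r % 2 = 1
      · rw [if_pos (by simpa using h4)]; omega
      · rw [if_neg (by simpa using h4)]; omega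
    · rfl

theorem bi_lt {n : ℕ} (k : Fin n) (ε : Bool) : bi k ε < 2 * n := by
  have := k.2
  unfold bi
  split_ifs <;> omega

/-- The number coding a family of instances. -/
def Un (m n : ℕ) (x : Fin n × Bool → ℕ) : ℕ := sc (2 ^ (n * (m + 1))) (2 * n) (insq x)

theorem insq_lt {n B : ℕ} (hB : 0 < B) {x : Fin n × Bool → ℕ} (h : ∀ a, x a < B) (r : ℕ) :
    insq x r < B := by
  unfold insq
  split_ifs
  · exact h _
  · exact hB

theorem Un_size {m n : ℕ} (hn : 2 ≤ n) {x : Fin n × Bool → ℕ}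
    (h : ∀ a, x a < 2 ^ (n * (m + 1))) : (Un m n x).size ≤ n ^ (m + 5) := by
  have h1 : Un m n x < 2 * (2 ^ (n * (m + 1))) ^ (2 * n) :=
    sc_lt _ fun i _ => insq_lt (by positivity) h i
  rw [Nat.size_le]
  refine h1.trans_le ?_
  rw [← pow_mul, ← pow_succ']
  refine Nat.pow_le_pow_right (by norm_num) ?_
  have h2 : 2 * (m + 2) ≤ n ^ (m + 3) := by
    calc 2 * (m + 2) ≤ 2 * 2 ^ (m + 2) := Nat.mul_le_mul_left _ Nat.lt_two_pow_self.le
      _ = 2 ^ (m + 3) := by ring
      _ ≤ n ^ (m + 3) := Nat.pow_le_pow_left hn _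
  calc n * (m + 1) * (2 * n) + 1 ≤ n ^ 2 * (2 * (m + 2)) := by nlinarith
    _ ≤ n ^ 2 * n ^ (m + 3) := Nat.mul_le_mul_left _ h2
    _ = n ^ (m + 5) := by ring

theorem two_pow_aux {n m i : ℕ} (hi : i < m + 1) :
    2 ^ (n * (m + 1)) = (2 ^ n) ^ i * (2 ^ n * (2 ^ n) ^ (m - i)) := by
  rw [← pow_mul, ← pow_mul, ← pow_add, ← pow_add]
  congr 1
  have : m + 1 = i + (1 + (m - i)) := by omega
  calc n * (m + 1) = n * (i + (1 + (m - i))) := by rw [← this]
    _ = _ := by ring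

/-- The digits of the number coding a family of instances. -/
theorem ext_Un {m n : ℕ} {x : Fin n × Bool → ℕ} (h : ∀ a, x a < 2 ^ (n * (m + 1)))
    (k : Fin n) (ε : Bool) {i : ℕ} (hi : i < m + 1) :
    ext (Un m n x) (bi k ε * (m + 1) + i) n = dec n (x (k, ε)) i := by
  have hr := bi_lt k ε
  set r := bi k ε with hrr
  have h1 : (r * (m + 1) + i) * n + n < (Un m n x).size := by
    rw [Nat.lt_size]
    refine le_trans ?_ (pow_le_sc _ _ _)
    rw [← pow_mul]
    refine Nat.pow_le_pow_right (by norm_num) ?_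
    have h2 : r * (m + 1) + i + 1 ≤ 2 * n * (m + 1) := by
      calc r * (m + 1) + i + 1 ≤ r * (m + 1) + (m + 1) := by omega
        _ = (r + 1) * (m + 1) := by ring
        _ ≤ _ := Nat.mul_le_mul_right _ hr
    calc (r * (m + 1) + i) * n + n = (r * (m + 1) + i + 1) * n := by ring
      _ ≤ 2 * n * (m + 1) * n := Nat.mul_le_mul_right _ h2
      _ = n * (m + 1) * (2 * n) := by ring
  unfold ext
  rw [if_pos h1]
  have h3 : sc (2 ^ (n * (m + 1))) (2 * n) (insq x) / (2 ^ (n * (m + 1))) ^ r %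
      2 ^ (n * (m + 1)) = x (k, ε) := by
    rw [sc_div (fun i _ => insq_lt (by positivity) h i) hr, hrr, insq_bi]
  have h4 : 2 ^ ((r * (m + 1) + i) * n) = (2 ^ (n * (m + 1))) ^ r * (2 ^ n) ^ i := by
    rw [← pow_mul, ← pow_mul, ← pow_add]
    congr 1; ring
  rw [h4, ← Nat.div_div_eq_div_mul]
  unfold dec
  rw [← h3]
  change (Un m n x / _ / _) % _ = (Un m n x / _ % _ / _) % _
  rw [two_pow_aux (n := n) hi]
  rw [Nat.mod_mul_right_div_self, Nat.mod_mod_of_dvd _ (Dvd.intro _ rfl)]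

/-- A solution. -/
def Qd.wt (n x : ℕ) : ℕ := if h : ∃ y, Q.Sol n x y then h.choose else 0

theorem Qd.wt_le (n x : ℕ) : Q.wt n x ≤ Q.t' (dec n x) := by
  unfold Qd.wt
  split_ifs with h
  · exact h.choose_spec.1
  · exact Nat.zero_le _

theorem Qd.wt_sol {n x : ℕ} (h : ∃ y, Q.Sol n x y) : Q.Sol n x (Q.wt n x) := by
  unfold Qd.wt
  rw [dif_pos h]
  exact h.choose_spec

theorem Qd.wt_size : ∃ c, ∀ n, 2 ≤ n → ∀ x, (Q.wt n x).size ≤ n ^ c := by
  obtain ⟨t, ht⟩ := Q.ht'
  obtain ⟨c, hc⟩ := val_growth t 1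
  refine ⟨c, fun n hn x => ?_⟩
  refine (Nat.size_le_size (Q.wt_le n x)).trans ?_
  rw [← ht]
  refine hc n hn _ fun i => ?_
  rw [pow_one, Nat.size_le]
  exact dec_lt n x i

/-- The values attached to a family of instances. -/
def Qd.genR {n : ℕ} (x : Fin n × Bool → ℕ) : ℕ → Bool → ℕ
  | 0, _ => Un Q.m n x
  | k + 1, b => if h : k < n then Q.wt n (x (⟨k, h⟩, b)) else 0

/-- Bound for the sizes. -/
def Qd.C0 : ℕ := max (Q.m + 5) Q.wt_size.choose

theorem Qd.genR_size {n : ℕ} (hn : 2 ≤ n) {x : Fin n × Bool → ℕ}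
    (h : ∀ a, x a < 2 ^ (n * (Q.m + 1))) (i : ℕ) (b : Bool) :
    (Q.genR x i b).size ≤ n ^ Q.C0 := by
  have hp : ∀ {c}, c ≤ Q.C0 → n ^ c ≤ n ^ Q.C0 := fun h => Nat.pow_le_pow_right (by omega) h
  cases i with
  | zero => exact (Un_size hn h).trans (hp (le_max_left _ _))
  | succ k =>
    simp only [Qd.genR]
    split_ifs
    · exact (Q.wt_size.choose_spec n hn _).trans (hp (le_max_right _ _))
    · simp

/-- The environment of variables. -/
def vE (n : ℕ) (E : ℕ × ℕ → ℕ) : ℕ → ℕ := cs (2 ^ n) fun q => E (Nat.unpair q)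

theorem vE_agree {n m : ℕ} {E E' : ℕ × ℕ → ℕ} (h : ∀ j < m, ∀ i < m, E (j, i) = E' (j, i)) :
    ∀ i < m, vE n E i = vE n E' i := by
  intro i hi
  rcases i with _ | q
  · rfl
  · change E (Nat.unpair q) = E' (Nat.unpair q)
    have h1 := Nat.unpair_left_le q
    have h2 := Nat.unpair_right_le q
    exact h (Nat.unpair q).1 (by omega) (Nat.unpair q).2 (by omega)

theorem exists_cbd (C : ℕ) (t : Tr l) : ∃ c, ∀ n, 2 ≤ n → ∀ E : ℕ × ℕ → ℕ,
    (∀ q, (E q).size ≤ n ^ C) → (t.1 (vE n E)).size ≤ n ^ c := by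
  obtain ⟨u, hu⟩ := t.2.1
  obtain ⟨c, hc⟩ := val_growth u (max C 2)
  refine ⟨c, fun n hn E hE => (Nat.size_le_size (hu _)).trans (hc n hn _ fun i => ?_)⟩
  rcases i with _ | i
  · change (2 ^ n).size ≤ _
    rw [Nat.size_pow]
    calc n + 1 ≤ n ^ 2 := by nlinarith
      _ ≤ n ^ max C 2 := Nat.pow_le_pow_right (by omega) (le_max_right _ _)
  · exact (hE _).trans (Nat.pow_le_pow_right (by omega) (le_max_left _ _))

/-- Exponents bounding the sizes of values. -/
def Qd.cbd (t : Tr l) : ℕ := (exists_cbd Q.C0 t).choose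

theorem Qd.cbd_spec (t : Tr l) {n : ℕ} (hn : 2 ≤ n) {E : ℕ × ℕ → ℕ}
    (hE : ∀ q, (E q).size ≤ n ^ Q.C0) : (t.1 (vE n E)).size ≤ n ^ Q.cbd t :=
  (exists_cbd Q.C0 t).choose_spec n hn E hE

/-- Families of hard instances. -/
abbrev Qd.XX (s : ℕ) : Type := Fin (Q.n s) × Bool → {q // q ∈ Q.S s}

/-- Forgetting hardness. -/
def Qd.raw {s : ℕ} (x : Q.XX s) : Fin (Q.n s) × Bool → ℕ := fun a => (x a).1

theorem Qd.raw_lt {s : ℕ} (x : Q.XX s) (a : Fin (Q.n s) × Bool) :
    Q.raw x a < 2 ^ (Q.n s * (Q.m + 1)) := ((Q.S_good s).2.1 _ (x a).2).1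

variable {Q} in
theorem Qd.raw_update {s : ℕ} (x : Q.XX s) (τ : Fin (Q.n s) × Bool) (z : {q // q ∈ Q.S s}) :
    Q.raw (Function.update x τ z) = Function.update (Q.raw x) τ z.1 := by
  funext a
  unfold Qd.raw
  by_cases h : a = τ
  · subst h; simp
  · simp [Function.update_of_ne h]

/-- The values depend affinely on one instance. -/
theorem Qd.affine {n K : ℕ} (hn : 2 ≤ n) (hK : Q.C0 + 1 ≤ K) (y0 : Fin n × Bool → ℕ)
    (hy : ∀ a, y0 a < 2 ^ (n * (Q.m + 1))) (τ : Fin n × Bool) (i : ℕ) (b : Bool)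
    (h : ∀ k, i = k + 1 → ∀ hk : k < n, (⟨k, hk⟩, b) ≠ τ) :
    ∃ a p, a < 2 ^ n ^ K ∧ p < 2 ^ n ^ K ∧ ∀ q, q < 2 ^ (n * (Q.m + 1)) →
      Q.genR (Function.update y0 τ q) i b = a + p * q := by
  have hsz : ∀ y : Fin n × Bool → ℕ, (∀ a, y a < 2 ^ (n * (Q.m + 1))) → ∀ i b,
      Q.genR y i b < 2 ^ n ^ K := by
    intro y hy i b
    rw [← Nat.size_le]
    exact (Q.genR_size hn hy i b).trans (Nat.pow_le_pow_right (by omega) (by omega))
  cases i with
  | succ k =>
    refine ⟨Q.genR y0 (k + 1) b, 0, hsz y0 hy _ _, by positivity, fun q _ => ?_⟩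
    simp only [Qd.genR]
    split_ifs with hk
    · rw [Function.update_of_ne (h k rfl hk)]; ring
    · ring
  | zero =>
    obtain ⟨a, ha⟩ := sc_affine (2 ^ (n * (Q.m + 1))) (2 * n) (insq y0) (bi_lt τ.1 τ.2)
    have e : ∀ q, Q.genR (Function.update y0 τ q) 0 b =
        a + (2 ^ (n * (Q.m + 1))) ^ bi τ.1 τ.2 * q := by
      intro q
      rw [← ha, ← insq_update]
      rfl
    have h0 : 0 < 2 ^ (n * (Q.m + 1)) := by positivity
    have h1 : 1 < 2 ^ (n * (Q.m + 1)) := Nat.one_lt_two_pow (by positivity)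
    have hu : ∀ q, q < 2 ^ (n * (Q.m + 1)) → ∀ a,
        Function.update y0 τ q a < 2 ^ (n * (Q.m + 1)) := by
      intro q hq a
      by_cases h : a = τ
      · subst h; simpa using hq
      · rw [Function.update_of_ne h]; exact hy a
    refine ⟨a, (2 ^ (n * (Q.m + 1))) ^ bi τ.1 τ.2, ?_, ?_, fun q _ => e q⟩
    · have h2 := hsz _ (hu 0 h0) 0 b
      rw [e] at h2
      omega
    · have h2 := hsz _ (hu 1 h1) 0 b
      rw [e] at h2
      omega

theorem Qd.hard_aux (m e s : ℕ) (hm : m < s) (he : e ≤ s) (hs : Q.C0 + 1 ≤ s) (J : ℕ → Prop)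
    (x' : ℕ → Q.XX s) (dig : ℕ → ℕ → Bool) (η : ℕ → Bool) (hη : ∀ j, J j → dig j = η)
    (k : ℕ) (hk : k < Q.n s) (b : Bool) (hcond : nv (Ten l m) ≤ k + 1 ∨ η k ≠ b)
    (S : Finset (Q.XX s))
    (hS : ∀ z ∈ S, ∀ E : ℕ × ℕ → ℕ,
      (∀ j i, J j → E (j, i) = Q.genR (Q.raw z) i (dig j (i - 1))) →
      (∀ j i, ¬ J j → E (j, i) = Q.genR (Q.raw (x' j)) i (dig j (i - 1))) →
      ∃ h : k < Q.n s, Q.Sol (Q.n s) (z (⟨k, h⟩, b)).1 ((Ten l m).1 (vE (Q.n s) E))) :
    S.card * Q.n s ^ e ≤ Fintype.card (Q.XX s) := by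
  have hn : 2 ≤ Q.n s := by have := Q.n_ge s; omega
  have hcard : Fintype.card (Q.XX s) =
      Fintype.card {q // q ∈ Q.S s} ^ Fintype.card (Fin (Q.n s) × Bool) := by
    rw [Fintype.card_fun]
  rw [hcard]
  have hS2 : S = univ.filter fun z => z ∈ S := by ext; simp
  rw [hS2]
  refine Sys.count_fiber (fun z => z ∈ S) (⟨k, hk⟩, b) _ fun y0 => ?_
  set τ : Fin (Q.n s) × Bool := (⟨k, hk⟩, b) with hτ
  -- affine representation
  have key : ∀ q : ℕ, ∃ a p, a < 2 ^ (Q.n s) ^ s ∧ p < 2 ^ (Q.n s) ^ s ∧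
      ((Nat.unpair q).1 < nv (Ten l m) → (Nat.unpair q).2 < nv (Ten l m) →
      ∀ z, z < 2 ^ (Q.n s * (Q.m + 1)) →
      (if J (Nat.unpair q).1 then Q.genR (Function.update (Q.raw y0) τ z) (Nat.unpair q).2
        (dig (Nat.unpair q).1 ((Nat.unpair q).2 - 1)) else
        Q.genR (Q.raw (x' (Nat.unpair q).1)) (Nat.unpair q).2
          (dig (Nat.unpair q).1 ((Nat.unpair q).2 - 1))) = a + p * z) := by
    intro q
    set j := (Nat.unpair q).1
    set i := (Nat.unpair q).2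
    by_cases hj : J j
    swap
    · refine ⟨Q.genR (Q.raw (x' j)) i (dig j (i - 1)), 0, ?_, by positivity, fun _ _ z _ => ?_⟩
      · rw [← Nat.size_le]
        exact (Q.genR_size hn (Q.raw_lt _) i _).trans (Nat.pow_le_pow_right (by omega) (by omega))
      · rw [if_neg hj]; ring
    · by_cases hi : i < nv (Ten l m)
      · obtain ⟨a, p, h1, h2, h3⟩ := Q.affine hn hs (Q.raw y0) (Q.raw_lt y0) τ i
          (dig j (i - 1)) (fun k' hk' hk'' h5 => by
            rw [hτ, Prod.mk.injEq, Fin.mk.injEq, hk', Nat.add_sub_cancel, hη j hj] at h5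
            rcases hcond with h6 | h6
            · omega
            · rw [h5.1] at h5
              exact h6 h5.2)
        refine ⟨a, p, h1, h2, fun _ _ z hz => ?_⟩
        rw [if_pos hj]
        exact h3 z hz
      · exact ⟨0, 0, by positivity, by positivity, fun _ h => absurd h hi⟩
  choose a p ha hp hap using key
  have hgood := (Q.S_good s).2.2 m hm a p fun q => ⟨ha q, hp q⟩
  have hle : (univ.filter fun z => Function.update y0 τ z ∈ S).card ≤
      ((Q.S s).filter fun x => Q.Sol (Q.n s) x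
        ((Ten l m).1 (cs (2 ^ Q.n s) fun q => a q + p q * x))).card := by
    refine Finset.card_le_card_of_injOn (fun z => z.1) ?_ (fun a _ b _ h => Subtype.ext h)
    intro z hz
    simp only [coe_filter, mem_univ, true_and, Set.mem_ofPred_eq] at hz
    simp only [coe_filter, Set.mem_ofPred_eq]
    refine ⟨z.2, ?_⟩
    let E : ℕ × ℕ → ℕ := fun a =>
      if J a.1 then Q.genR (Q.raw (Function.update y0 τ z)) a.2 (dig a.1 (a.2 - 1))
        else Q.genR (Q.raw (x' a.1)) a.2 (dig a.1 (a.2 - 1))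
    obtain ⟨_, h1⟩ := hS _ hz E (fun j i hj => if_pos hj) (fun j i hj => if_neg hj)
    rw [← hτ, Function.update_self] at h1
    have h2 : (Ten l m).1 (vE (Q.n s) E) =
        (Ten l m).1 (cs (2 ^ Q.n s) fun q => a q + p q * z.1) := by
      apply nv_spec
      intro i hi
      rcases i with _ | q
      · rfl
      · have h3 := Nat.unpair_left_le q
        have h4 := Nat.unpair_right_le q
        have h5 := hap q (by omega) (by omega) z.1 ((Q.S_good s).2.1 _ z.2).1
        change E (Nat.unpair q) = a q + p q * z.1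
        rw [← h5]
        simp only [E, Qd.raw_update]
    rw [h2] at h1
    exact h1
  have hN : 1 ≤ Q.n s := by omega
  calc (univ.filter fun z => Function.update y0 τ z ∈ S).card * Q.n s ^ e
      ≤ ((Q.S s).filter fun x => Q.Sol (Q.n s) x
        ((Ten l m).1 (cs (2 ^ Q.n s) fun q => a q + p q * x))).card * Q.n s ^ s :=
        Nat.mul_le_mul hle (Nat.pow_le_pow_right hN he)
    _ ≤ (Q.S s).card := hgood
    _ = Fintype.card {q // q ∈ Q.S s} := by simp

/-- The system. -/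
def Qd.Y : Sys ℕ where
  n := Q.n
  n_ge := fun s => by have := Q.n_ge s; omega
  X := fun s => Q.XX s
  fX := fun s => inferInstance
  nX := fun s => ⟨fun _ => ⟨(Q.S_good s).1.choose, (Q.S_good s).1.choose_spec⟩⟩
  gen := fun s x i b => Q.genR (Q.raw x) i b
  f := fun m s E => min (min ((Ten l (Nat.unpair m).1).1 (vE (Q.n s) E))
    ((Ten l (Nat.unpair m).2).1 (vE (Q.n s) E)).size) (Q.n s ^ Q.cbd (Ten l (Nat.unpair m).2))
  df := fun m => max (nv (Ten l (Nat.unpair m).1)) (nv (Ten l (Nat.unpair m).2))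
  cf := fun m => Q.cbd (Ten l (Nat.unpair m).2)
  f_dep := fun m s E E' h => by
    rw [nv_spec (Ten l (Nat.unpair m).1) (vE_agree (n := Q.n s) fun j hj i hi =>
        h j (lt_max_of_lt_left hj) i (lt_max_of_lt_left hi)),
      nv_spec (Ten l (Nat.unpair m).2) (vE_agree (n := Q.n s) fun j hj i hi =>
        h j (lt_max_of_lt_right hj) i (lt_max_of_lt_right hi))]
  f_bd := fun m s E => min_le_right _ _
  bad := fun m s x k b E => ∃ h : k < Q.n s,
    Q.Sol (Q.n s) (x (⟨k, h⟩, b)).1 ((Ten l m).1 (vE (Q.n s) E))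
  dg := fun m => nv (Ten l m)
  bad_dep := fun m s x k b E E' h h1 => by
    obtain ⟨h2, h3⟩ := h1
    exact ⟨h2, by rw [← nv_spec (Ten l m) (vE_agree (n := Q.n s) h)]; exact h3⟩
  L := Q.n
  L_le := fun s => le_rfl
  hard := fun m e => by
    filter_upwards [eventually_ge_atTop (max (max (m + 1) e) (Q.C0 + 1))] with s hs
    intro J x' dig η hη k hk b hc S hS
    exact Q.hard_aux m e s (by omega) (by omega) (by omega) J x' dig η hη k hk b hc S hS

end

end Pool.Agent.H23R
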