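import Pool.Agent.H23R.Nf
import Pool.Agent.H23R.Greedy

/-!
Instances, functions with simple graphs and their enumeration, and hard sets of instances.
-/

namespace Pool.Agent.H23R

open Finset

noncomputable section

/-! ### Enumeration -/

def encT : Tm → ℕ
  | .var i => Nat.pair 0 i
  | .zero => Nat.pair 1 0
  | .succ t => Nat.pair 2 (encT t)
  | .half t => Nat.pair 3 (encT t)
  | .len t => Nat.pair 4 (encT t)
  | .add t u => Nat.pair 5 (Nat.pair (encT t) (encT u))
  | .mul t u => Nat.pair 6 (Nat.pair (encT t) (encT u))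
  | .smash t u => Nat.pair 7 (Nat.pair (encT t) (encT u))

theorem encT_inj : Function.Injective encT := by
  intro t
  induction t with
  | var i => intro u h; cases u <;> simp_all [encT, Nat.pair_eq_pair]
  | zero => intro u h; cases u <;> simp_all [encT, Nat.pair_eq_pair]
  | succ t ih =>
    intro u h
    cases u <;> simp only [encT, Nat.pair_eq_pair] at h <;> try omega
    rw [ih h.2]
  | half t ih =>
    intro u h
    cases u <;> simp only [encT, Nat.pair_eq_pair] at h <;> try omega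
    rw [ih h.2]
  | len t ih =>
    intro u h
    cases u <;> simp only [encT, Nat.pair_eq_pair] at h <;> try omega
    rw [ih h.2]
  | add t t' ih ih' =>
    intro u h
    cases u <;> simp only [encT, Nat.pair_eq_pair] at h <;> try omega
    rw [ih h.2.1, ih' h.2.2]
  | mul t t' ih ih' =>
    intro u h
    cases u <;> simp only [encT, Nat.pair_eq_pair] at h <;> try omega
    rw [ih h.2.1, ih' h.2.2]
  | smash t t' ih ih' =>
    intro u h
    cases u <;> simp only [encT, Nat.pair_eq_pair] at h <;> try omega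
    rw [ih h.2.1, ih' h.2.2]

def encF : Fm → ℕ
  | .bot => Nat.pair 0 0
  | .eq t u => Nat.pair 1 (Nat.pair (encT t) (encT u))
  | .le t u => Nat.pair 2 (Nat.pair (encT t) (encT u))
  | .imp φ ψ => Nat.pair 4 (Nat.pair (encF φ) (encF ψ))
  | .all k t φ => Nat.pair 5 (Nat.pair k (Nat.pair (encT t) (encF φ)))

theorem encF_inj : Function.Injective encF := by
  intro φ
  induction φ with
  | bot => intro ψ h; cases ψ <;> simp_all [encF, Nat.pair_eq_pair]
  | eq t u =>
    intro ψ h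
    cases ψ <;> simp only [encF, Nat.pair_eq_pair] at h <;> try omega
    rw [encT_inj h.2.1, encT_inj h.2.2]
  | le t u =>
    intro ψ h
    cases ψ <;> simp only [encF, Nat.pair_eq_pair] at h <;> try omega
    rw [encT_inj h.2.1, encT_inj h.2.2]
  | imp φ φ' ih ih' =>
    intro ψ h
    cases ψ <;> simp only [encF, Nat.pair_eq_pair] at h <;> try omega
    rw [ih h.2.1, ih' h.2.2]
  | all k t φ ih =>
    intro ψ h
    cases ψ <;> simp only [encF, Nat.pair_eq_pair] at h <;> try omega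
    rw [h.2.1, encT_inj h.2.2.1, ih h.2.2.2]

instance : Countable Fm := encF_inj.countable

/-- The functions generating the model. -/
def Tr (l : ℕ) : Type := {G : (ℕ → ℕ) → ℕ // Fn (l + 1) G}

instance (l : ℕ) : Countable (Tr l) := by
  let F : Tr l → Fm := fun G => G.2.2.choose
  have hF : ∀ G : Tr l, ∀ v, SatN v (F G) ↔ v 0 = G.1 fun i => v (i + 1) :=
    fun G => G.2.2.choose_spec.2
  have : Function.Injective F := by
    intro G H h
    apply Subtype.ext
    funext v
    have h1 := hF G (cs (G.1 v) v)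
    have h2 := hF H (cs (G.1 v) v)
    rw [h] at h1
    exact (h1.symm.trans h2).1 rfl
  exact this.countable

instance (l : ℕ) : Nonempty (Tr l) := ⟨⟨_, Fn.const 0⟩⟩

/-- An enumeration. -/
def Ten (l : ℕ) : ℕ → Tr l := (exists_surjective_nat (Tr l)).choose

theorem Ten_surj {l : ℕ} (t : Tr l) : ∃ m, Ten l m = t :=
  (exists_surjective_nat (Tr l)).choose_spec t

/-- The number of variables of a function. -/
def nv {l : ℕ} (t : Tr l) : ℕ := t.2.dep.choose

theorem nv_spec {l : ℕ} (t : Tr l) {v v' : ℕ → ℕ} (h : ∀ i < nv t, v i = v' i) :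
    t.1 v = t.1 v' := t.2.dep.choose_spec v v' h

/-! ### Coding tuples of numbers of `n` bits -/

def dec (n x : ℕ) : ℕ → ℕ := fun i => x / (2 ^ n) ^ i % 2 ^ n

def cod (B : ℕ) : ℕ → (ℕ → ℕ) → ℕ
  | 0, _ => 0
  | m + 1, f => f 0 + B * cod B m fun i => f (i + 1)

theorem dec_lt (n x i : ℕ) : dec n x i < 2 ^ n := Nat.mod_lt _ (by positivity)

theorem cod_lt {B : ℕ} (m : ℕ) {f : ℕ → ℕ} (h : ∀ i < m, f i < B) : cod B m f < B ^ m := by
  induction m generalizing f with
  | zero => simp [cod]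
  | succ m ih =>
    simp only [cod]
    have h1 := ih (f := fun i => f (i + 1)) fun i hi => h (i + 1) (by omega)
    have h2 := h 0 (by omega)
    set s := cod B m fun i => f (i + 1)
    calc f 0 + B * s < B + B * s := by omega
      _ = B * (s + 1) := by ring
      _ ≤ B * (B ^ m) := Nat.mul_le_mul_left _ h1
      _ = B ^ (m + 1) := by ring

theorem cod_div {B m : ℕ} {f : ℕ → ℕ} (h : ∀ i < m, f i < B) {r : ℕ} (hr : r < m) :
    cod B m f / B ^ r % B = f r := by
  induction m generalizing f r with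
  | zero => omega
  | succ m ih =>
    have h2 := h 0 (by omega)
    have hB : 0 < B := by omega
    rcases r with _ | r
    · simp only [cod, pow_zero, Nat.div_one]
      rw [Nat.add_mul_mod_self_left, Nat.mod_eq_of_lt h2]
    · simp only [cod]
      rw [pow_succ', ← Nat.div_div_eq_div_mul, Nat.add_mul_div_left _ _ hB,
        Nat.div_eq_of_lt h2, zero_add]
      exact ih (f := fun i => f (i + 1)) (fun i hi => h (i + 1) (by omega)) (by omega)

theorem TF.cod {B : (ℕ → ℕ) → ℕ} (hB : TF B) (m : ℕ) : ∀ {u : ℕ → (ℕ → ℕ) → ℕ},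
    (∀ i, TF (u i)) → TF fun v => H23R.cod (B v) m fun i => u i v := by
  induction m with
  | zero => exact fun _ => TF.zero
  | succ m ih =>
    intro u hu
    exact (hu 0).add (hB.mul (ih (u := fun i => u (i + 1)) fun i => hu (i + 1)))

theorem TF.npow {f : (ℕ → ℕ) → ℕ} (hf : TF f) (c : ℕ) : TF fun v => f v ^ c := by
  induction c with
  | zero => exact TF.const 1
  | succ c ih => exact ih.mul hf

/-! ### The search problem -/

/-- A search problem which is not easy. -/
structure Qd (l : ℕ) where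
  t : (ℕ → ℕ) → ℕ
  t' : (ℕ → ℕ) → ℕ
  R : (ℕ → ℕ) → Prop
  ht : TF t
  ht' : TF t'
  hR : RD l R
  hQ : ¬ Df true (l + 2) fun v => ∀ z ≤ t v, ∃ y ≤ t' (cs z v), R (cs y (cs z v))
  m : ℕ
  t_dep : ∀ v v' : ℕ → ℕ, (∀ i < m, v i = v' i) → t v = t v'
  t'_dep : ∀ v v' : ℕ → ℕ, (∀ i < m + 1, v i = v' i) → t' v = t' v'
  R_dep : ∀ v v' : ℕ → ℕ, (∀ i < m + 2, v i = v' i) → (R v ↔ R v')

theorem exists_Qd {l : ℕ} (h : ∃ φ : Fm, ∀ ψ : Fm, IsSP true (l + 2) ψ →
    ¬ ∀ v, SatN v φ ↔ SatN v ψ) : Nonempty (Qd l) := by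
  by_contra hcon
  obtain ⟨φ, hφ⟩ := h
  have h1 := coll (n := l) (fun t t' R ht ht' hR => ?_) φ true
  · obtain ⟨ψ, h2, h3⟩ := h1
    exact hφ ψ h2 fun v => (h3 v).symm
  · by_contra hQ
    apply hcon
    obtain ⟨m1, h1⟩ := ht.dep
    obtain ⟨m2, h2⟩ := ht'.dep
    obtain ⟨m3, h3⟩ := hR.1.df.dep
    exact ⟨⟨t, t', R, ht, ht', hR, hQ, m1 + m2 + m3, fun v v' h => h1 v v' fun i hi => h i (by omega),
      fun v v' h => h2 v v' fun i hi => h i (by omega),
      fun v v' h => h3 v v' fun i hi => h i (by omega)⟩⟩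

variable {l : ℕ} (Q : Qd l)

/-- `y` solves the instance coded by `x`. -/
def Qd.Sol (n x y : ℕ) : Prop := y ≤ Q.t' (dec n x) ∧ Q.R (cs y (dec n x))

open scoped Classical in
/-- Hard sets of instances. -/
def Qd.Good (n K : ℕ) (S : Finset ℕ) : Prop := S.Nonempty ∧
  (∀ x ∈ S, x < 2 ^ (n * (Q.m + 1)) ∧ ∃ y, Q.Sol n x y) ∧
  ∀ κ < K, ∀ a p : ℕ → ℕ, (∀ q, a q < 2 ^ (n ^ K) ∧ p q < 2 ^ (n ^ K)) →
    (S.filter fun x => Q.Sol n x ((Ten l κ).1 (cs (2 ^ n) fun q => a q + p q * x))).card * n ^ K ≤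
      S.card

/-- Items of a list of functions. -/
abbrev Item := ℕ × (ℕ → ℕ) × (ℕ → ℕ)

/-- The answer of an item. -/
def Item.out (l n : ℕ) (a : Item) (x : ℕ) : ℕ :=
  (Ten l a.1).1 (cs (2 ^ n) fun q => a.2.1 q + a.2.2 q * x)

def Item.ok (n K : ℕ) (a : Item) : Prop :=
  a.1 < K ∧ ∀ q, a.2.1 q < 2 ^ (n ^ K) ∧ a.2.2 q < 2 ^ (n ^ K)

theorem Qd.cover {n K : ℕ} (hn : 1 ≤ n) (h : ∀ S, ¬ Q.Good n K S) : ∃ L : List Item,
    L.length ≤ n ^ K * (n * (Q.m + 1) + 1) ∧ (∀ a ∈ L, a.ok n K) ∧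
    ∀ x < 2 ^ (n * (Q.m + 1)), (∃ y, Q.Sol n x y) → ∃ a ∈ L, Q.Sol n x (a.out l n x) := by
  classical
  let X := {x : Fin (2 ^ (n * (Q.m + 1))) // ∃ y, Q.Sol n x y}
  let A := {a : Item // a.ok n K}
  obtain ⟨L, h1, h2⟩ := greedy_all (A := A) (X := X) (fun a x => Q.Sol n x.1 (a.1.out l n x.1))
    (n ^ K) (n * (Q.m + 1)) (Nat.one_le_pow _ _ hn)
    ((Fintype.card_subtype_le _).trans (by simp)) fun S hS => by
      by_contra hcon
      push Not at hcon
      apply h (S.image fun x => (x.1 : ℕ))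
      have hinj : Function.Injective fun x : X => (x.1 : ℕ) := fun x y hxy =>
        Subtype.ext (Fin.ext hxy)
      refine ⟨hS.image _, fun x hx => ?_, fun κ hκ a p hap => ?_⟩
      · rw [mem_image] at hx
        obtain ⟨y, -, rfl⟩ := hx
        exact ⟨y.1.2, y.2⟩
      · rw [filter_image, card_image_of_injective _ hinj, card_image_of_injective _ hinj]
        exact hcon ⟨(κ, a, p), hκ, hap⟩
  refine ⟨L.map fun a => a.1, by simpa using h1, fun a ha => ?_, fun x hx hy => ?_⟩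
  · rw [List.mem_map] at ha
    obtain ⟨b, -, rfl⟩ := ha
    exact b.2
  · obtain ⟨a, ha, h3⟩ := h2 ⟨⟨x, hx⟩, hy⟩
    exact ⟨a.1, List.mem_map.2 ⟨a, ha, rfl⟩, h3⟩

end

end Pool.Agent.H23R
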