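import Pool.Agent.H23R.Inst

/-!
If there are no hard sets of instances of large length, the search problem is easy
(in the manner of Karp and Lipton).
-/

namespace Pool.Agent.H23R

open Finset

noncomputable section

theorem dec_cod {n m : ℕ} {f : ℕ → ℕ} (h : ∀ i < m, f i < 2 ^ n) {i : ℕ} (hi : i < m) :
    dec n (cod (2 ^ n) m f) i = f i := cod_div h hi

/-- Polynomially large lengths. -/
theorem exists_len {s : (ℕ → ℕ) → ℕ} (hs : TF s) (c : ℕ) : ∃ g, TF g ∧
    ∀ v, (s v).size ^ c ≤ (g v).size := by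
  induction c with
  | zero => exact ⟨_, TF.const 1, fun v => by simp⟩
  | succ c ih =>
    obtain ⟨g, hg, h⟩ := ih
    refine ⟨_, hg.smash hs, fun v => ?_⟩
    rw [Nat.size_pow, pow_succ]
    exact (Nat.mul_le_mul_right _ (h v)).trans (Nat.le_succ _)

theorem TF.sum {f : ℕ → (ℕ → ℕ) → ℕ} (hf : ∀ i, TF (f i)) (m : ℕ) :
    TF fun v => ∑ i ∈ range m, f i v := by
  induction m with
  | zero => exact TF.zero.comp fun i => TF.var i
  | succ m ih =>
    have : (fun v => ∑ i ∈ range (m + 1), f i v) = fun v => (∑ i ∈ range m, f i v) + f m v := by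
      funext v; rw [sum_range_succ]
    rw [this]
    exact ih.add (hf m)

theorem Df.exFin {b : Bool} {n : ℕ} {R : ℕ → (ℕ → ℕ) → Prop} (K : ℕ)
    (h : ∀ κ < K, Df b n (R κ)) : Df b n fun v => ∃ κ < K, R κ v := by
  induction K with
  | zero => exact Df.false.congr fun v => by simp
  | succ K ih =>
    refine ((ih fun κ hκ => h κ (by omega)).or (h K (by omega))).congr fun v => ?_
    constructor
    · rintro (⟨κ, h1, h2⟩ | h2)
      · exact ⟨κ, by omega, h2⟩
      · exact ⟨K, by omega, h2⟩
    · rintro ⟨κ, h1, h2⟩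
      rcases Nat.lt_succ_iff_lt_or_eq.1 h1 with h3 | h3
      · exact Or.inl ⟨κ, h3, h2⟩
      · subst h3; exact Or.inr h2

/-- The entries of the sequence of items. -/
def ent (V : ℕ) (L : List Item) (r : ℕ) : ℕ :=
  match L[r / (2 * V + 1)]? with
  | none => 0
  | some a => if r % (2 * V + 1) = 0 then a.1 else
      if r % (2 * V + 1) - 1 < V then a.2.1 (r % (2 * V + 1) - 1) else
        a.2.2 (r % (2 * V + 1) - 1 - V)

theorem ent_lt {V : ℕ} {L : List Item} {B : ℕ} (hB : 0 < B)
    (h : ∀ a ∈ L, a.1 < B ∧ ∀ q, a.2.1 q < B ∧ a.2.2 q < B) (r : ℕ) : ent V L r < B := by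
  unfold ent
  split
  · exact hB
  · rename_i a ha
    have h1 := h a (List.mem_of_getElem? ha)
    split_ifs
    · exact h1.1
    · exact (h1.2 _).1
    · exact (h1.2 _).2

theorem div_aux {j W c : ℕ} (hc : c < W) : (j * W + c) / W = j ∧ (j * W + c) % W = c := by
  constructor
  · rw [mul_comm, Nat.mul_add_div (by omega), Nat.div_eq_of_lt hc, add_zero]
  · rw [mul_comm, Nat.mul_add_mod, Nat.mod_eq_of_lt hc]

theorem ent_0 {V : ℕ} {L : List Item} {j : ℕ} {a : Item} (h : L[j]? = some a) :
    ent V L (j * (2 * V + 1)) = a.1 := by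
  have := div_aux (j := j) (W := 2 * V + 1) (c := 0) (by omega)
  rw [add_zero] at this
  unfold ent
  rw [this.1, this.2, h]
  simp

theorem ent_1 {V : ℕ} {L : List Item} {j : ℕ} {a : Item} (h : L[j]? = some a) {q : ℕ}
    (hq : q < V) : ent V L (j * (2 * V + 1) + (1 + q)) = a.2.1 q := by
  have := div_aux (j := j) (W := 2 * V + 1) (c := 1 + q) (by omega)
  unfold ent
  rw [this.1, this.2, h]
  simp only
  rw [if_neg (by omega), if_pos (by omega), Nat.add_sub_cancel_left]

theorem ent_2 {V : ℕ} {L : List Item} {j : ℕ} {a : Item} (h : L[j]? = some a) {q : ℕ}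
    (hq : q < V) : ent V L (j * (2 * V + 1) + (1 + V + q)) = a.2.2 q := by
  have := div_aux (j := j) (W := 2 * V + 1) (c := 1 + V + q) (by omega)
  unfold ent
  rw [this.1, this.2, h]
  simp only
  rw [if_neg (by omega), if_neg (by omega), show 1 + V + q - 1 - V = q by omega]

variable {l : ℕ} (Q : Qd l)

/-- There are hard sets. -/
theorem Qd.exists_good (K n0 : ℕ) : ∃ n, n0 ≤ n ∧ ∃ S, Q.Good n K S := by
  by_contra hcon
  push Not at hcon
  apply Q.hQ
  set m := Q.m with hm
  -- the bounds
  let V := (range K).sup fun κ => nv (Ten l κ)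
  have hV : ∀ κ < K, nv (Ten l κ) ≤ V := fun κ hκ =>
    Finset.le_sup (f := fun κ => nv (Ten l κ)) (mem_range.2 hκ)
  let n1 := n0 + m + 2 + K
  let s : (ℕ → ℕ) → ℕ := fun v => (Q.t v + ∑ i ∈ range m, v i) + 2 ^ n1
  have hs : TF s := (Q.ht.add (TF.sum (fun i => TF.var i) m)).add (TF.const _)
  have hsn : ∀ v, n1 ≤ (s v).size := fun v => by
    have h1 : 2 ^ n1 ≤ s v := Nat.le_add_left _ _
    have h2 := Nat.size_le_size h1
    rw [Nat.size_pow] at h2
    omega
  obtain ⟨g, hg, hgs⟩ := exists_len hs (K + 2)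
  let B : (ℕ → ℕ) → ℕ := fun v => 2 * (2 ^ ((g v).size * (g v).size)) ^ (2 * V + 1)
  have hB : TF B := (TF.const 2).mul ((hg.smash hg).npow _)
  -- the relation
  let vv : (ℕ → ℕ) → ℕ → ℕ := fun y i => y (i + 3)
  have hvv : ∀ f, TF f → TF fun y => f (vv y) := fun f hf => hf.comp fun i => TF.var (i + 3)
  let inst : (ℕ → ℕ) → ℕ → ℕ := fun y => cs (y 1) (vv y)
  have hinst : ∀ i, TF fun y => inst y i := by
    intro i
    rcases i with _ | i
    · exact TF.var 1
    · exact TF.var (i + 3)
  let X : (ℕ → ℕ) → ℕ := fun y => cod (2 ^ (s (vv y)).size) (m + 1) (inst y)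
  have hX : TF X := TF.cod (hvv s hs).pow_size (m + 1) hinst
  let ex : (ℕ → ℕ) → ℕ → ℕ := fun y r => ext (y 2) (y 0 * (2 * V + 1) + r) (g (vv y)).size
  have hex : ∀ r, Fn (l + 1) fun y => ex y r := fun r =>
    Fn.ext (Fn.var 2) (Fn.tf (((TF.var 0).mul (TF.const _)).add (TF.const r)))
      (Fn.tf (hvv g hg).size)
  let E : (ℕ → ℕ) → ℕ → ℕ := fun y => cs (2 ^ (s (vv y)).size) fun q =>
    ex y (1 + q) + ex y (1 + V + q) * X y
  have hE : ∀ i, Fn (l + 1) fun y => E y i := by
    intro i
    rcases i with _ | i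
    · exact Fn.tf (hvv s hs).pow_size
    · exact (hex _).add ((hex _).mul (Fn.tf hX))
  let out : ℕ → (ℕ → ℕ) → ℕ := fun κ y => (Ten l κ).1 (E y)
  have hout : ∀ κ, Fn (l + 1) (out κ) := fun κ => (Ten l κ).2.comp hE
  let cond : ℕ → (ℕ → ℕ) → Prop := fun κ y => ex y 0 = κ ∧ (out κ y ≤ Q.t' (inst y) ∧
    Q.R (cs (out κ y) (inst y)))
  have hcond : ∀ κ b, Df b (l + 1) (cond κ) := by
    intro κ b
    refine Df.and (Df.feq (hex 0) (Fn.const κ)) (Df.and (Df.fle (hout κ)
      (Fn.tcomp Q.ht' fun i => Fn.tf (hinst i))) ?_)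
    have hR : Df b (l + 1) Q.R := by cases b; exacts [Q.hR.2.df, Q.hR.1.df]
    refine hR.comp (g := fun i y => cs (out κ y) (inst y) i) fun i => ?_
    rcases i with _ | i
    · exact hout κ
    · exact Fn.tf (hinst i)
  have hΦ : Df false (l + 1) fun u => ∀ z ≤ Q.t (fun i => u (i + 1)),
      (fun u' => ∃ j ≤ (g (fun i => u' (i + 2))).size, (fun y => ∃ κ < K, cond κ y) (cs j u'))
        (cs z u) := by
    refine Df.ball Q.ht.shift (R := fun u' => ∃ j ≤ (g (fun i => u' (i + 2))).size,
      (fun y => ∃ κ < K, cond κ y) (cs j u')) ?_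
    refine Df.sbex (hg.comp fun i => TF.var (i + 2)) (R := fun y => ∃ κ < K, cond κ y) ?_
    exact Df.exFin K fun κ _ => hcond κ false
  have hΨ := Df.bex hB (hΦ.up (c := true) (Nat.lt_succ_self _))
  refine hΨ.congr fun v => ?_
  have hinst' : ∀ j z w, inst (cs j (cs z (cs w v))) = cs z v := by
    intro j z w
    funext i
    rcases i with _ | i <;> rfl
  constructor
  · rintro ⟨w, -, hw⟩ z hz
    obtain ⟨j, -, κ, -, h1, h2, h3⟩ := hw z hz
    rw [hinst'] at h2 h3
    exact ⟨_, h2, h3⟩
  · intro hall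
    set n := (s v).size with hn
    have hn1 : n1 ≤ n := hsn v
    obtain ⟨L, hL1, hL2, hL3⟩ := Q.cover (n := n) (K := K) (by omega) (hcon n (by omega))
    set lam := (g v).size with hlam
    have hlam1 : n ^ (K + 2) ≤ lam := hgs v
    have hlen : L.length ≤ lam := by
      refine hL1.trans (le_trans ?_ hlam1)
      rw [pow_add]
      refine Nat.mul_le_mul_left _ ?_
      have : m + 2 ≤ n := by omega
      calc n * (m + 1) + 1 ≤ n * (m + 1) + n := by omega
        _ = n * (m + 2) := by ring
        _ ≤ n * n := Nat.mul_le_mul_left _ this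
        _ = n ^ 2 := by ring
    have hnK : n ^ K ≤ lam := by
      refine le_trans ?_ hlam1
      exact Nat.pow_le_pow_right (by omega) (by omega)
    have hn2 : n ≤ lam := by
      refine le_trans ?_ hlam1
      calc n = n ^ 1 := (pow_one n).symm
        _ ≤ n ^ (K + 2) := Nat.pow_le_pow_right (by omega) (by omega)
    have hent : ∀ r, ent V L r < 2 ^ lam := by
      apply ent_lt (by positivity)
      intro a ha
      obtain ⟨h1, h2⟩ := hL2 a ha
      have h3 : 2 ^ n ^ K ≤ 2 ^ lam := Nat.pow_le_pow_right (by norm_num) hnK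
      have h4 : lam < 2 ^ lam := Nat.lt_two_pow_self
      exact ⟨by omega, fun q => ⟨(h2 q).1.trans_le h3, (h2 q).2.trans_le h3⟩⟩
    let w := sc (2 ^ lam) (L.length * (2 * V + 1)) (ent V L)
    refine ⟨w, ?_, fun z hz => ?_⟩
    · refine (sc_lt _ fun i _ => hent i).le.trans ?_
      change _ ≤ 2 * (2 ^ (lam * lam)) ^ (2 * V + 1)
      rw [← pow_mul, ← pow_mul]
      refine Nat.mul_le_mul_left _ (Nat.pow_le_pow_right (by norm_num) ?_)
      calc lam * (L.length * (2 * V + 1)) ≤ lam * (lam * (2 * V + 1)) := by gcongr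
        _ = lam * lam * (2 * V + 1) := by ring
    · -- the instance
      have hz' : z ≤ Q.t v := hz
      have hsize : s v < 2 ^ n := Nat.lt_size_self _
      have hbd : ∀ i < m + 1, (cs z v) i < 2 ^ n := by
        intro i hi
        refine lt_of_le_of_lt ?_ hsize
        have h0 : 0 < 2 ^ n1 := by positivity
        rcases i with _ | i
        · change z ≤ Q.t v + ∑ i ∈ range m, v i + 2 ^ n1
          omega
        · change v i ≤ Q.t v + ∑ i ∈ range m, v i + 2 ^ n1
          have h1 : v i ≤ ∑ i ∈ range m, v i :=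
            Finset.single_le_sum (f := fun i => v i) (fun _ _ => Nat.zero_le _)
              (mem_range.2 (by omega : i < m))
          omega
      set x := cod (2 ^ n) (m + 1) (cs z v) with hx
      have hxlt : x < 2 ^ (n * (m + 1)) := by
        rw [pow_mul]
        exact cod_lt _ hbd
      have hdec : ∀ i < m + 1, dec n x i = cs z v i := fun i hi => dec_cod hbd hi
      have ht' : Q.t' (dec n x) = Q.t' (cs z v) := Q.t'_dep _ _ hdec
      have hR : ∀ y, Q.R (cs y (dec n x)) ↔ Q.R (cs y (cs z v)) := by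
        intro y
        apply Q.R_dep
        intro i hi
        rcases i with _ | i
        · rfl
        · exact hdec i (by omega)
      have hsol : ∀ y, Q.Sol n x y ↔ y ≤ Q.t' (cs z v) ∧ Q.R (cs y (cs z v)) := by
        intro y
        unfold Qd.Sol
        rw [ht', hR]
      obtain ⟨y, hy⟩ := hall z hz'
      obtain ⟨a, ha, hsa⟩ := hL3 x hxlt ⟨y, (hsol y).2 hy⟩
      obtain ⟨j, hj, hja⟩ := List.mem_iff_getElem.1 ha
      have hja' : L[j]? = some a := by rw [List.getElem?_eq_getElem hj, hja]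
      rw [hsol] at hsa
      have hex' : ∀ r, r < 2 * V + 1 → ex (cs j (cs z (cs w v))) r =
          ent V L (j * (2 * V + 1) + r) := by
        intro r hr
        change ext w (j * (2 * V + 1) + r) lam = _
        refine ext_sc (fun i _ => hent i) ?_
        calc j * (2 * V + 1) + r < j * (2 * V + 1) + (2 * V + 1) := by omega
          _ = (j + 1) * (2 * V + 1) := by ring
          _ ≤ L.length * (2 * V + 1) := Nat.mul_le_mul_right _ hj
      refine ⟨j, ?_, a.1, (hL2 a ha).1, ?_, ?_⟩
      · change j ≤ lam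
        omega
      · rw [hex' 0 (by omega), add_zero]
        exact ent_0 hja'
      · have hout' : out a.1 (cs j (cs z (cs w v))) = a.out l n x := by
          change (Ten l a.1).1 (E (cs j (cs z (cs w v)))) = _
          unfold Item.out
          apply nv_spec
          intro i hi
          have hi' : i < V := hi.trans_le (hV a.1 (hL2 a ha).1)
          rcases i with _ | i
          · rfl
          · change ex (cs j (cs z (cs w v))) (1 + i) + ex (cs j (cs z (cs w v))) (1 + V + i) *
              cod (2 ^ n) (m + 1) (inst (cs j (cs z (cs w v)))) = a.2.1 i + a.2.2 i * x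
            rw [hex' _ (by omega), hex' _ (by omega), ent_1 hja' (by omega),
              ent_2 hja' (by omega), hinst', ← hx]
        rw [hout', hinst']
        exact hsa

end

end Pool.Agent.H23R
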