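import Mathlib

/-!
The language of bounded arithmetic (Buss), its structures, the standard structure, and the classes
of sharply bounded formulas and of `Σ^b_n` and `Π^b_n` formulas.
-/

namespace Pool.Agent.H23R

/-- Terms, built from the variables `x_i` by `0`, `S`, `⌊x/2⌋`, `|x|`, `+`, `·` and `#`. -/
inductive Tm : Type
  | var (i : ℕ) : Tm
  | zero : Tm
  | succ (t : Tm) : Tm
  | half (t : Tm) : Tm
  | len (t : Tm) : Tm
  | add (t u : Tm) : Tm
  | mul (t u : Tm) : Tm
  | smash (t u : Tm) : Tm

/-- Bounded formulas: built from `⊥`, `t = u` and `t ≤ u` by implication and by the bounded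
quantifiers `∀ x_k ≤ t`. Negation is `φ → ⊥`, and `∃ x_k ≤ t` is `¬ ∀ x_k ≤ t ¬`. -/
inductive Fm : Type
  | bot : Fm
  | eq (t u : Tm) : Fm
  | le (t u : Tm) : Fm
  | imp (φ ψ : Fm) : Fm
  | all (k : ℕ) (t : Tm) (φ : Fm) : Fm

/-- Structures for the language. -/
structure Str where
  N : Type
  zero : N
  succ : N → N
  half : N → N
  len : N → N
  add : N → N → N
  mul : N → N → N
  smash : N → N → N
  le : N → N → Prop

/-- The value of a term, `v` being the assignment of the variables. -/
def Tm.val (M : Str) (v : ℕ → M.N) : Tm → M.N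
  | .var i => v i
  | .zero => M.zero
  | .succ t => M.succ (t.val M v)
  | .half t => M.half (t.val M v)
  | .len t => M.len (t.val M v)
  | .add t u => M.add (t.val M v) (u.val M v)
  | .mul t u => M.mul (t.val M v) (u.val M v)
  | .smash t u => M.smash (t.val M v) (u.val M v)

/-- Truth of a bounded formula in a structure. In `∀ x_k ≤ t` the bound `t` is evaluated before
`x_k` is assigned. -/
def Sat (M : Str) : (ℕ → M.N) → Fm → Prop
  | _, .bot => False
  | v, .eq t u => t.val M v = u.val M v
  | v, .le t u => M.le (t.val M v) (u.val M v)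
  | v, .imp φ ψ => Sat M v φ → Sat M v ψ
  | v, .all k t φ => ∀ a : M.N, M.le a (t.val M v) → Sat M (Function.update v k a) φ

/-- The standard structure: `|x|` is the length of the binary expansion and
`x # y = 2 ^ (|x| * |y|)`. -/
def std : Str where
  N := ℕ
  zero := 0
  succ := fun a => a + 1
  half := fun a => a / 2
  len := fun a => Nat.size a
  add := fun a b => a + b
  mul := fun a b => a * b
  smash := fun a b => 2 ^ (Nat.size a * Nat.size b)
  le := fun a b => a ≤ b

/-- Sharply bounded formulas: all quantifiers are of the form `∀ x_k ≤ |t|`. -/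
inductive IsSharp : Fm → Prop
  | bot : IsSharp .bot
  | eq (t u : Tm) : IsSharp (.eq t u)
  | le (t u : Tm) : IsSharp (.le t u)
  | imp {φ ψ : Fm} : IsSharp φ → IsSharp ψ → IsSharp (.imp φ ψ)
  | sall (k : ℕ) (t : Tm) {φ : Fm} : IsSharp φ → IsSharp (.all k (.len t) φ)

/-- `IsSP true n φ`: `φ` is a `Σ^b_n` formula; `IsSP false n φ`: `φ` is a `Π^b_n` formula.
Implication respects polarity, in particular negation exchanges the two classes; `∀ x_k ≤ t` keeps
`Π^b_{n+1}` (hence `∃ x_k ≤ t` keeps `Σ^b_{n+1}`), and sharply bounded quantifiers are not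
counted. -/
inductive IsSP : Bool → ℕ → Fm → Prop
  | sharp {b : Bool} {n : ℕ} {φ : Fm} : IsSharp φ → IsSP b n φ
  | up {b c : Bool} {n : ℕ} {φ : Fm} : IsSP b n φ → IsSP c (n + 1) φ
  | imp {b : Bool} {n : ℕ} {φ ψ : Fm} : IsSP (!b) n φ → IsSP b n ψ → IsSP b n (.imp φ ψ)
  | all {n : ℕ} (k : ℕ) (t : Tm) {φ : Fm} : IsSP false (n + 1) φ →
      IsSP false (n + 1) (.all k t φ)
  | sall {b : Bool} {n : ℕ} (k : ℕ) (t : Tm) {φ : Fm} : IsSP b n φ →
      IsSP b n (.all k (.len t) φ)

end Pool.Agent.H23R
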