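import Pool.Agent.H23R.Hard

/-!
The model.
-/

namespace Pool.Agent.H23R

open Set Filter Pool.Agent.H23 Pool.Agent.H23L

noncomputable section

/-- The ultrafilter. -/
abbrev HF : Filter ℕ := ((hyperfilter ℕ : Ultrafilter ℕ) : Filter ℕ)

variable {l : ℕ} {Q : Qd l} (D : Q.Y.Dat)

/-- Evaluation of a function at stage `s`, the variables being given by reals. -/
def tv (t : Tr l) (A : ℕ → Cantor) (s : ℕ) : ℕ := t.1 (vE (Q.n s) (D.env A s))

/-- Renaming the real variables. -/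
def rel (f : ℕ → ℕ) (t : Tr l) : Tr l :=
  ⟨fun v => t.1 fun i => v (match i with
    | 0 => 0
    | q + 1 => Nat.pair (f (Nat.unpair q).1) (Nat.unpair q).2 + 1),
    t.2.comp fun _ => Fn.var _⟩

theorem tv_rel (f : ℕ → ℕ) (t : Tr l) (A : ℕ → Cantor) (s : ℕ) :
    tv D (rel f t) A s = tv D t (A ∘ f) s := by
  refine congrArg t.1 (funext fun i => ?_)
  rcases i with _ | q
  · rfl
  · change D.env A s (Nat.unpair (Nat.pair (f (Nat.unpair q).1) (Nat.unpair q).2)) =
      D.env (A ∘ f) s (Nat.unpair q)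
    rw [Nat.unpair_pair]
    rfl

/-- Composition. -/
def cT {h : (ℕ → ℕ) → ℕ} (H : Fn (l + 1) h) (T : ℕ → Tr l) : Tr l :=
  ⟨fun v => h fun i => (T i).1 v, H.comp fun i => (T i).2⟩

/-- The assignment given by functions and reals. -/
def nE (T : ℕ → Tr l) (A : ℕ → Cantor) (s : ℕ) : ℕ → ℕ := fun i => tv D (T i) A s

theorem tv_cT {h : (ℕ → ℕ) → ℕ} (H : Fn (l + 1) h) (T : ℕ → Tr l) (A : ℕ → Cantor) (s : ℕ) :
    tv D (cT H T) A s = h (nE D T A s) := rfl

/-! ### The model -/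

/-- germs -/
abbrev G1 := Germ HF ℕ

def g1 (t : Tr l) (A : ℕ → Cantor) : G1 := ((fun s => tv D t A s : ℕ → ℕ) : G1)

def T1 : Type := {x : G1 // ∃ t A, x = g1 D t A}

def e1 (t : Tr l) (A : ℕ → Cantor) : T1 D := ⟨g1 D t A, t, A, rfl⟩

theorem e1_surj (x : T1 D) : ∃ t A, x = e1 D t A := by
  obtain ⟨x, t, A, rfl⟩ := x
  exact ⟨t, A, rfl⟩

theorem e1_eq {t u : Tr l} {A B : ℕ → Cantor} : e1 D t A = e1 D u B ↔
    ∀ᶠ s in HF, tv D t A s = tv D u B s :=
  ⟨fun h => Germ.coe_eq.1 (congrArg Subtype.val h), fun h => Subtype.ext (Germ.coe_eq.2 h)⟩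

theorem hf_of_atTop {R : ℕ → Prop} (h : ∀ᶠ s in atTop, R s) : ∀ᶠ s in HF, R s :=
  Nat.hyperfilter_le_atTop h

theorem hf_ge (n : ℕ) : ∀ᶠ s in HF, n ≤ s := hf_of_atTop (eventually_ge_atTop n)

theorem e1_rel (f : ℕ → ℕ) (t : Tr l) (A : ℕ → Cantor) :
    e1 D (rel f t) A = e1 D t (A ∘ f) := by
  rw [e1_eq]
  exact Eventually.of_forall fun s => by rw [tv_rel]

/-- Representation of countably many elements by functions of the same reals. -/
theorem rep (v : ℕ → T1 D) : ∃ (T : ℕ → Tr l) (A : ℕ → Cantor), v = fun i => e1 D (T i) A := by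
  choose t A hv using fun i => e1_surj D (v i)
  refine ⟨fun i => rel (Nat.pair i) (t i), joinA A, ?_⟩
  funext i
  rw [e1_rel, hv i]
  congr 1
  funext j
  simp [joinA]

def seq2 {α : Type} (x y : α) : ℕ → α := fun i => if i = 0 then x else y

theorem ex_un {h : ℕ → ℕ} (hh : TF fun v => h (v 0)) (x : T1 D) : ∃ t A, x.1.map h = g1 D t A := by
  obtain ⟨t, A, rfl⟩ := e1_surj D x
  exact ⟨cT (Fn.tf hh) fun _ => t, A, rfl⟩

theorem ex_bin {h : ℕ → ℕ → ℕ} (hh : TF fun v => h (v 0) (v 1)) (x y : T1 D) :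
    ∃ t A, Germ.map₂ h x.1 y.1 = g1 D t A := by
  obtain ⟨T, A, hv⟩ := rep D (seq2 x y)
  have h0 : x = e1 D (T 0) A := congrFun hv 0
  have h1 : y = e1 D (T 1) A := congrFun hv 1
  subst h0
  subst h1
  exact ⟨cT (Fn.tf hh) T, A, rfl⟩

def un {h : ℕ → ℕ} (hh : TF fun v => h (v 0)) (x : T1 D) : T1 D := ⟨_, ex_un D hh x⟩
def bin {h : ℕ → ℕ → ℕ} (hh : TF fun v => h (v 0) (v 1)) (x y : T1 D) : T1 D :=
  ⟨_, ex_bin D hh x y⟩

def dA : ℕ → Cantor := fun _ _ => false

/-- Constant functions. -/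
def kT (l c : ℕ) : Tr l := ⟨fun _ => c, Fn.const c⟩

/-- The model. -/
def M : Str where
  N := T1 D
  zero := e1 D (kT l 0) dA
  succ := un D (h := fun a => a + 1) (TF.var 0).succ
  half := un D (h := fun a => a / 2) (TF.var 0).half
  len := un D (h := fun a => a.size) (TF.var 0).size
  add := bin D (h := fun a b => a + b) ((TF.var 0).add (TF.var 1))
  mul := bin D (h := fun a b => a * b) ((TF.var 0).mul (TF.var 1))
  smash := bin D (h := fun a b => 2 ^ (a.size * b.size)) ((TF.var 0).smash (TF.var 1))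
  le := fun x y => x.1 ≤ y.1

/-- Elements of the model. -/
def x1 (t : Tr l) (A : ℕ → Cantor) : (M D).N := e1 D t A

theorem x1_surj (x : (M D).N) : ∃ t A, x = x1 D t A := e1_surj D x
theorem x1_eq {t u : Tr l} {A B : ℕ → Cantor} : x1 D t A = x1 D u B ↔
    ∀ᶠ s in HF, tv D t A s = tv D u B s := e1_eq D
theorem x1_rel (f : ℕ → ℕ) (t : Tr l) (A : ℕ → Cantor) :
    x1 D (rel f t) A = x1 D t (A ∘ f) := e1_rel D f t A
theorem repM (v : ℕ → (M D).N) : ∃ (T : ℕ → Tr l) (A : ℕ → Cantor),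
    v = fun i => x1 D (T i) A := rep D v

/-- The underlying germs. -/
def u1 (x : (M D).N) : G1 := Subtype.val (p := fun x => ∃ t A, x = g1 D t A) x

/-- Representatives. -/
def r1 (x : (M D).N) (s : ℕ) : ℕ := tv D (x1_surj D x).choose (x1_surj D x).choose_spec.choose s

theorem r1_spec (x : (M D).N) : u1 D x = ((r1 D x : ℕ → ℕ) : G1) := by
  have h := (x1_surj D x).choose_spec.choose_spec
  conv_lhs => rw [h]
  rfl

theorem u1_inj {x y : (M D).N} : x = y ↔ u1 D x = u1 D y := by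
  constructor
  · rintro rfl; rfl
  · intro h; exact Subtype.ext h

theorem u1_x1 (t : Tr l) (A : ℕ → Cantor) : u1 D (x1 D t A) = ((fun s => tv D t A s : ℕ → ℕ) : G1) :=
  rfl

theorem u1_zero : u1 D (M D).zero = ((fun _ => 0 : ℕ → ℕ) : G1) := rfl
theorem u1_succ (x : (M D).N) : u1 D ((M D).succ x) = (u1 D x).map fun a => a + 1 := rfl
theorem u1_half (x : (M D).N) : u1 D ((M D).half x) = (u1 D x).map fun a => a / 2 := rfl
theorem u1_len (x : (M D).N) : u1 D ((M D).len x) = (u1 D x).map fun a => a.size := rfl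
theorem u1_add (x y : (M D).N) :
    u1 D ((M D).add x y) = Germ.map₂ (fun a b => a + b) (u1 D x) (u1 D y) := rfl
theorem u1_mul (x y : (M D).N) :
    u1 D ((M D).mul x y) = Germ.map₂ (fun a b => a * b) (u1 D x) (u1 D y) := rfl
theorem u1_smash (x y : (M D).N) :
    u1 D ((M D).smash x y) =
      Germ.map₂ (fun a b => 2 ^ (Nat.size a * Nat.size b)) (u1 D x) (u1 D y) := rfl

theorem val_M (t : Tm) (T : ℕ → Tr l) (A : ℕ → Cantor) :
    u1 D (t.val (M D) (fun i => x1 D (T i) A)) =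
      ((fun s => valN (nE D T A s) t : ℕ → ℕ) : G1) := by
  induction t with
  | var i => rfl
  | zero => rfl
  | succ t ih =>
    simp only [Tm.val]
    rw [u1_succ, ih]
    rfl
  | half t ih =>
    simp only [Tm.val]
    rw [u1_half, ih]
    rfl
  | len t ih =>
    simp only [Tm.val]
    rw [u1_len, ih]
    rfl
  | add t u iht ihu =>
    simp only [Tm.val]
    rw [u1_add, iht, ihu]
    rfl
  | mul t u iht ihu =>
    simp only [Tm.val]
    rw [u1_mul, iht, ihu]
    rfl
  | smash t u iht ihu =>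
    simp only [Tm.val]
    rw [u1_smash, iht, ihu]
    rfl

theorem le_M (x y : (M D).N) (f g : ℕ → ℕ) (hx : u1 D x = (f : G1)) (hy : u1 D y = (g : G1)) :
    (M D).le x y ↔ ∀ᶠ s in HF, f s ≤ g s := by
  change u1 D x ≤ u1 D y ↔ _
  rw [hx, hy, Germ.coe_le]
  exact Iff.rfl

/-- Updating assignments given by functions. -/
theorem upd_x1 (T : ℕ → Tr l) (A : ℕ → Cantor) (k : ℕ) (W : Tr l) :
    (fun i => x1 D (Function.update T k W i) A) =
      Function.update (fun i => x1 D (T i) A) k (x1 D W A) := by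
  funext i
  by_cases h : i = k
  · subst h; simp
  · simp [h]

theorem upd_nE (T : ℕ → Tr l) (A : ℕ → Cantor) (s k : ℕ) (W : Tr l) :
    nE D (Function.update T k W) A s = Function.update (nE D T A s) k (tv D W A s) := by
  funext i
  unfold nE
  by_cases h : i = k
  · subst h; simp
  · simp [h]

theorem nE_rel (f : ℕ → ℕ) (T : ℕ → Tr l) (A : ℕ → Cantor) (s : ℕ) :
    nE D (fun i => rel f (T i)) A s = nE D T (A ∘ f) s := by
  funext i; unfold nE; rw [tv_rel]

/-- Elementarity. -/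
theorem elem {φ : Fm} (hφ : Sk (l + 1) φ) : ∀ (T : ℕ → Tr l) (A : ℕ → Cantor),
    (Sat (M D) (fun i => x1 D (T i) A) φ ↔ ∀ᶠ s in HF, SatN (nE D T A s) φ) := by
  induction hφ with
  | bot =>
    intro T A
    simp only [Sat, satN_bot, Filter.eventually_const]
  | eq t u =>
    intro T A
    simp only [Sat, satN_eq]
    rw [u1_inj, val_M D t T A, val_M D u T A, Germ.coe_eq]
    exact Iff.rfl
  | le t u =>
    intro T A
    exact le_M D _ _ _ _ (val_M D t T A) (val_M D u T A)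
  | imp _ _ ih1 ih2 =>
    intro T A
    simp only [Sat, satN_imp]
    rw [ih1, ih2, Ultrafilter.eventually_imp]
  | @all k t φ g hφ hg hw ih =>
    intro T A
    constructor
    · intro h
      by_contra hcon
      rw [← Ultrafilter.eventually_not] at hcon
      let W : Tr l := cT hg T
      have hWs : ∀ᶠ s in HF, tv D W A s ≤ valN (nE D T A s) t ∧
          ¬ SatN (Function.update (nE D T A s) k (tv D W A s)) φ := by
        filter_upwards [hcon] with s hs
        exact hw _ hs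
      have h1 := h (x1 D W A) ((le_M D _ _ _ _ (u1_x1 D W A) (val_M D t T A)).2
        (hWs.mono fun s hs => hs.1))
      rw [← upd_x1, ih] at h1
      obtain ⟨s, hs1, hs2⟩ := (h1.and hWs).exists
      rw [upd_nE] at hs1
      exact hs2.2 hs1
    · intro h a ha
      obtain ⟨u, B, rfl⟩ := x1_surj D a
      let T' : ℕ → Tr l := fun i => rel (fun i => 2 * i) (T i)
      let u' : Tr l := rel (fun i => 2 * i + 1) u
      let A' := ilv A B
      have e1 : (fun i => x1 D (T i) A) = fun i => x1 D (T' i) A' := by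
        funext i; rw [x1_rel, ilv_even]
      have e3 : x1 D u B = x1 D u' A' := by rw [x1_rel, ilv_odd]
      have e4 : ∀ s, nE D T' A' s = nE D T A s := by intro s; rw [nE_rel, ilv_even]
      rw [e3] at ha ⊢
      have ha' := (le_M D _ _ _ _ (u1_x1 D u' A') (val_M D t T A)).1 ha
      rw [e1, ← upd_x1, ih]
      filter_upwards [h, ha'] with s hs1 hs2
      rw [upd_nE, e4]
      exact hs1 _ hs2

theorem elem' {φ : Fm} (hφ : Sk (l + 1) φ) {v : ℕ → (M D).N} {T : ℕ → Tr l}
    {A : ℕ → Cantor} (hv : v = fun i => x1 D (T i) A) :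
    Sat (M D) v φ ↔ ∀ᶠ s in HF, SatN (nE D T A s) φ := by
  subst hv
  exact elem D hφ T A

/-- Elementarity for arbitrary representatives. -/
theorem elem_rp {φ : Fm} (hφ : Sk (l + 1) φ) (v : ℕ → (M D).N) (f : ℕ → ℕ → ℕ)
    (hf : ∀ i, u1 D (v i) = ((f i : ℕ → ℕ) : G1)) :
    Sat (M D) v φ ↔ ∀ᶠ s in HF, SatN (fun i => f i s) φ := by
  obtain ⟨T, A, hv⟩ := repM D v
  rw [elem' D hφ hv]
  obtain ⟨m, hm⟩ := satN_dep φ
  have h1 : ∀ i, ∀ᶠ s in HF, tv D (T i) A s = f i s := by
    intro i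
    have h2 := hf i
    rw [hv] at h2
    exact Germ.coe_eq.1 h2
  have h3 : ∀ᶠ s in HF, ∀ i ∈ Finset.range m, tv D (T i) A s = f i s := by
    rw [Filter.eventually_all_finset]
    exact fun i _ => h1 i
  apply eventually_congr
  filter_upwards [h3] with s hs
  apply hm
  intro i hi
  exact hs i (Finset.mem_range.2 hi)

/-- True formulas with counterexample functions hold in the model. -/
theorem M_true {φ : Fm} (hφ : Sk (l + 1) φ) (h : ∀ v, SatN v φ) (v : ℕ → (M D).N) :
    Sat (M D) v φ := by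
  obtain ⟨T, A, hv⟩ := repM D v
  exact (elem' D hφ hv).2 (Eventually.of_forall fun s => h _)

theorem M_refl (x : (M D).N) : (M D).le x x := by
  rw [le_M D _ _ _ _ (r1_spec D x) (r1_spec D x)]
  exact Eventually.of_forall fun s => le_rfl

end

end Pool.Agent.H23R
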