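import Pool.Agent.H23R.Model
import Pool.Agent.H23R.Bin

/-!
The model: closure under functions with simple graphs, and induction.
-/

namespace Pool.Agent.H23R

open Set Filter Pool.Agent.H23 Pool.Agent.H23L

noncomputable section

variable {l : ℕ} {Q : Qd l} (D : Q.Y.Dat)

/-- The model is closed under functions with simple graphs. -/
theorem ex_fn {h : (ℕ → ℕ) → ℕ} (H : Fn (l + 1) h) (v : ℕ → (M D).N) : ∃ y : (M D).N,
    ∀ r : ℕ → ℕ → ℕ, (∀ i, u1 D (v i) = ((r i : ℕ → ℕ) : G1)) →
      u1 D y = ((fun s => h fun i => r i s : ℕ → ℕ) : G1) := by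
  obtain ⟨T, A, hv⟩ := repM D v
  refine ⟨x1 D (cT H T) A, fun r hr => ?_⟩
  rw [u1_x1, Germ.coe_eq]
  obtain ⟨m, hm⟩ := H.dep
  have h1 : ∀ i, ∀ᶠ s in HF, tv D (T i) A s = r i s := by
    intro i
    have h2 := hr i
    rw [hv] at h2
    exact Germ.coe_eq.1 h2
  have h3 : ∀ᶠ s in HF, ∀ i ∈ Finset.range m, tv D (T i) A s = r i s := by
    rw [Filter.eventually_all_finset]
    exact fun i _ => h1 i
  filter_upwards [h3] with s hs
  rw [tv_cT]
  apply hm
  intro i hi
  exact hs i (Finset.mem_range.2 hi)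

theorem elem_upd {φ : Fm} (hφ : Sk (l + 1) φ) (v : ℕ → (M D).N) (r : ℕ → ℕ → ℕ)
    (hr : ∀ i, u1 D (v i) = ((r i : ℕ → ℕ) : G1)) (k : ℕ) (y : (M D).N) (f : ℕ → ℕ)
    (hf : u1 D y = (f : G1)) :
    Sat (M D) (Function.update v k y) φ ↔
      ∀ᶠ s in HF, SatN (Function.update (fun i => r i s) k (f s)) φ := by
  rw [elem_rp D hφ (Function.update v k y) (Function.update r k f)]
  · apply eventually_congr
    refine Eventually.of_forall fun s => ?_
    have : (fun i => Function.update r k f i s) = Function.update (fun i => r i s) k (f s) := by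
      funext i
      by_cases h : i = k
      · subst h; simp
      · simp [h]
    rw [this]
  · intro i
    by_cases h : i = k
    · subst h; simpa using hf
    · simpa [h] using hr i

/-- Induction for `Σ^b_l` formulas (and more). -/
theorem M_ind {φ : Fm} (hφ : Sk (l + 1) φ) (h1 : Df true (l + 1) fun v => SatN v φ)
    (h2 : Df false (l + 1) fun v => SatN v φ) (k : ℕ) (v : ℕ → (M D).N)
    (h0 : Sat (M D) (Function.update v k (M D).zero) φ)
    (hs : ∀ x, Sat (M D) (Function.update v k x) φ →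
      Sat (M D) (Function.update v k ((M D).succ x)) φ) (a : (M D).N) :
    Sat (M D) (Function.update v k a) φ := by
  by_contra hcon
  let r : ℕ → ℕ → ℕ := fun i => r1 D (v i)
  have hr : ∀ i, u1 D (v i) = ((r i : ℕ → ℕ) : G1) := fun i => r1_spec D (v i)
  have hb : Fn (l + 1) fun w => bs (fun x => (fun u => SatN
      (Function.update (fun i => u (i + 2)) k (u 0)) φ) (cs x w)) (w 0) :=
    fn_bs (TF.var 0) (h1.upd2 k) (h2.upd2 k)
  obtain ⟨y, hy⟩ := ex_fn D hb (cs a v)
  let ra := r1 D a
  have hra := r1_spec D a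
  let F : ℕ → ℕ := fun s => bs (fun x => SatN (Function.update (fun i => r i s) k x) φ) (ra s)
  have hF : u1 D y = (F : G1) := by
    have h3 := hy (cs ra r) (fun i => by
      rcases i with _ | i
      · exact hra
      · exact hr i)
    rw [h3]
    rfl
  have hF' : u1 D ((M D).succ y) = ((fun s => F s + 1 : ℕ → ℕ) : G1) := by
    rw [u1_succ, hF]; rfl
  rw [elem_upd D hφ v r hr k _ _ (u1_zero D)] at h0
  rw [elem_upd D hφ v r hr k _ _ hra, ← Ultrafilter.eventually_not] at hcon
  have h4 : Sat (M D) (Function.update v k y) φ := by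
    rw [elem_upd D hφ v r hr k _ _ hF]
    filter_upwards [h0] with s h5
    exact bs_zero (P := fun x => SatN (Function.update (fun i => r i s) k x) φ) (ra s) h5
  have h5 := hs y h4
  rw [elem_upd D hφ v r hr k _ _ hF] at h4
  rw [elem_upd D hφ v r hr k _ _ hF'] at h5
  obtain ⟨s, a1, a2, a3⟩ := (h4.and (h5.and hcon)).exists
  have b1 : F s ≤ ra s := bs_le _ _
  have b2 : F s ≠ ra s := by
    intro e
    rw [e] at a1
    exact a3 a1
  exact bs_succ (fun x => SatN (Function.update (fun i => r i s) k x) φ) (ra s)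
    ⟨by change F s + 1 ≤ ra s; omega, a2⟩

end

end Pool.Agent.H23R
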