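import Pool.Agent.H23R.Fun

/-!
Normal forms.
-/

namespace Pool.Agent.H23R

noncomputable section

theorem TF.pair {f g : (ℕ → ℕ) → ℕ} (h : TF f) (h' : TF g) : TF fun v => pairP (f v) (g v) :=
  ((h.add h').mul (h.add h')).add h

/-- A class of functions and two dual classes of relations. -/
structure Cls (F : ((ℕ → ℕ) → ℕ) → Prop) (C : Bool → ((ℕ → ℕ) → Prop) → Prop) : Prop where
  tf : ∀ {f}, TF f → F f
  fcomp : ∀ {f} {g : ℕ → (ℕ → ℕ) → ℕ}, F f → (∀ i, F (g i)) → F fun v => f fun i => g i v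
  ext : F fun v => ext (v 0) (v 1) (v 2)
  fst : F fun v => fstP (v 0)
  snd : F fun v => sndP (v 0)
  sharp : ∀ {b φ}, IsSharp φ → C b fun v => SatN v φ
  not : ∀ {b R}, C b R → C (!b) fun v => ¬ R v
  and : ∀ {b R S}, C b R → C b S → C b fun v => R v ∧ S v
  comp : ∀ {b R} {g : ℕ → (ℕ → ℕ) → ℕ}, C b R → (∀ i, F (g i)) → C b fun v => R fun i => g i v
  sball : ∀ {b R t}, TF t → C b R → C b fun v => ∀ a ≤ (t v).size, R (cs a v)

variable {F : ((ℕ → ℕ) → ℕ) → Prop} {C : Bool → ((ℕ → ℕ) → Prop) → Prop}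
  {R S : (ℕ → ℕ) → Prop} {f g h : (ℕ → ℕ) → ℕ}

theorem C_congr {b : Bool} (h : C b R) (e : ∀ v, R v ↔ S v) : C b S := by
  have : R = S := funext fun v => propext (e v)
  rwa [← this]
theorem F_congr (h : F f) (e : ∀ v, f v = g v) : F g := by
  have : f = g := funext e
  rwa [← this]

theorem Cls.not' (K : Cls F C) {b : Bool} (h : C (!b) R) : C b fun v => ¬ R v := by
  have := K.not h
  rwa [Bool.not_not] at this

theorem Cls.or (K : Cls F C) {b : Bool} (h : C b R) (h' : C b S) : C b fun v => R v ∨ S v := by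
  have h1 := K.and (K.not h) (K.not h')
  exact C_congr (K.not' h1) fun v => by tauto

theorem Cls.fvar (K : Cls F C) (i : ℕ) : F fun v => v i := K.tf (TF.var i)

theorem Cls.fle (K : Cls F C) {b : Bool} (hf : F f) (hg : F g) : C b fun v => f v ≤ g v := by
  have h1 : C b fun v => v 0 ≤ v 1 := K.sharp (.le (.var 0) (.var 1))
  have := K.comp (g := fun i => if i = 0 then f else g) h1 (fun i => by split_ifs; exacts [hf, hg])
  exact C_congr this fun v => by simp

theorem Cls.ffst (K : Cls F C) (hf : F f) : F fun v => fstP (f v) :=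
  K.fcomp (g := fun _ => f) K.fst fun _ => hf
theorem Cls.fsnd (K : Cls F C) (hf : F f) : F fun v => sndP (f v) :=
  K.fcomp (g := fun _ => f) K.snd fun _ => hf
theorem Cls.fext (K : Cls F C) (hf : F f) (hg : F g) (hh : F h) :
    F fun v => H23R.ext (f v) (g v) (h v) := by
  have := K.fcomp (g := fun i => if i = 0 then f else if i = 1 then g else h) K.ext
    (fun i => by split_ifs; exacts [hf, hg, hh])
  exact F_congr this fun v => by simp

theorem Cls.shift (K : Cls F C) {b : Bool} (h : C b R) : C b fun w => R fun i => w (i + 1) :=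
  K.comp (g := fun i w => w (i + 1)) h fun i => K.fvar (i + 1)

/-- `R` is `∃ a ≤ t, R'` with `R'` in `C false`. -/
def ENF (C : Bool → ((ℕ → ℕ) → Prop) → Prop) (R : (ℕ → ℕ) → Prop) : Prop :=
  ∃ t, TF t ∧ ∃ R', C false R' ∧ ∀ v, R v ↔ ∃ a ≤ t v, R' (cs a v)
/-- `R` is `∀ a ≤ t, R'` with `R'` in `C true`. -/
def ANF (C : Bool → ((ℕ → ℕ) → Prop) → Prop) (R : (ℕ → ℕ) → Prop) : Prop :=
  ∃ t, TF t ∧ ∃ R', C true R' ∧ ∀ v, R v ↔ ∀ a ≤ t v, R' (cs a v)

theorem ENF.of (K : Cls F C) (h : C false R) : ENF C R :=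
  ⟨_, TF.zero, _, K.shift h, fun _ => ⟨fun h => ⟨0, le_rfl, h⟩, fun ⟨_, _, h⟩ => h⟩⟩

theorem ANF.of (K : Cls F C) (h : C true R) : ANF C R :=
  ⟨_, TF.zero, _, K.shift h, fun _ => ⟨fun h _ _ => h, fun h => h 0 le_rfl⟩⟩

theorem ENF.not (K : Cls F C) (h : ENF C R) : ANF C fun v => ¬ R v := by
  obtain ⟨t, ht, R', hR', h⟩ := h
  refine ⟨t, ht, _, K.not (b := false) hR', fun v => ?_⟩
  beta_reduce
  rw [h]; push Not; exact Iff.rfl

theorem ANF.not (K : Cls F C) (h : ANF C R) : ENF C fun v => ¬ R v := by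
  obtain ⟨t, ht, R', hR', h⟩ := h
  refine ⟨t, ht, _, K.not (b := true) hR', fun v => ?_⟩
  beta_reduce
  rw [h]; push Not; exact Iff.rfl

theorem ENF.congr (h : ENF C R) (e : ∀ v, R v ↔ S v) : ENF C S := by
  have : R = S := funext fun v => propext (e v)
  rwa [← this]
theorem ANF.congr (h : ANF C R) (e : ∀ v, R v ↔ S v) : ANF C S := by
  have : R = S := funext fun v => propext (e v)
  rwa [← this]

theorem ENF.or (K : Cls F C) (h : ENF C R) (h' : ENF C S) : ENF C fun v => R v ∨ S v := by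
  obtain ⟨t, ht, R', hR', h⟩ := h
  obtain ⟨u, hu, S', hS', h'⟩ := h'
  refine ⟨_, ht.add hu, fun w => (w 0 ≤ t (fun i => w (i + 1)) ∧ R' w) ∨
    (w 0 ≤ u (fun i => w (i + 1)) ∧ S' w), ?_, fun v => ?_⟩
  · exact K.or (K.and (K.fle (K.fvar 0) (K.tf ht.shift)) hR')
      (K.and (K.fle (K.fvar 0) (K.tf hu.shift)) hS')
  · beta_reduce
    rw [h, h']
    constructor
    · rintro (⟨a, h1, h2⟩ | ⟨a, h1, h2⟩)
      · exact ⟨a, by omega, Or.inl ⟨h1, h2⟩⟩
      · exact ⟨a, by omega, Or.inr ⟨h1, h2⟩⟩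
    · rintro ⟨a, -, ⟨h1, h2⟩ | ⟨h1, h2⟩⟩
      · exact Or.inl ⟨a, h1, h2⟩
      · exact Or.inr ⟨a, h1, h2⟩

theorem ENF.and (K : Cls F C) (h : ENF C R) (h' : ENF C S) : ENF C fun v => R v ∧ S v := by
  obtain ⟨t, ht, R', hR', h⟩ := h
  obtain ⟨u, hu, S', hS', h'⟩ := h'
  refine ⟨_, ht.pair hu, fun w => (fstP (w 0) ≤ t (fun i => w (i + 1)) ∧
    R' fun i => cs (fstP (w 0)) (fun i => w (i + 1)) i) ∧
    (sndP (w 0) ≤ u (fun i => w (i + 1)) ∧
    S' fun i => cs (sndP (w 0)) (fun i => w (i + 1)) i), ?_, fun v => ?_⟩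
  · refine K.and (K.and (K.fle (K.ffst (K.fvar 0)) (K.tf ht.shift)) ?_)
      (K.and (K.fle (K.fsnd (K.fvar 0)) (K.tf hu.shift)) ?_)
    · refine K.comp (g := fun i w => cs (fstP (w 0)) (fun i => w (i + 1)) i) hR' fun i => ?_
      rcases i with _ | i
      · exact K.ffst (K.fvar 0)
      · exact K.fvar (i + 1)
    · refine K.comp (g := fun i w => cs (sndP (w 0)) (fun i => w (i + 1)) i) hS' fun i => ?_
      rcases i with _ | i
      · exact K.fsnd (K.fvar 0)
      · exact K.fvar (i + 1)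
  · beta_reduce
    rw [h, h']
    constructor
    · rintro ⟨⟨a, h1, h2⟩, ⟨b, h3, h4⟩⟩
      refine ⟨pairP a b, pairP_mono h1 h3, ?_⟩
      simp only [cs_zero, cs_succ, fstP_pairP, sndP_pairP]
      exact ⟨⟨h1, h2⟩, h3, h4⟩
    · rintro ⟨c, -, ⟨h1, h2⟩, h3, h4⟩
      exact ⟨⟨_, h1, h2⟩, ⟨_, h3, h4⟩⟩

theorem upd_f (K : Cls F C) (k : ℕ) (hf : F f) (j i : ℕ) :
    F fun w => Function.update (fun i => w (i + j)) k (f w) i := by
  by_cases h : i = k
  · subst h
    exact F_congr hf fun w => by simp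
  · exact F_congr (K.fvar (i + j)) fun w => by simp [h]

theorem tf_upd (k : ℕ) {f t : (ℕ → ℕ) → ℕ} (ht : TF t) (hf : TF f) (j : ℕ) :
    TF fun w => t (Function.update (fun i => w (i + j)) k (f w)) := by
  refine ht.comp (g := fun i w => Function.update (fun i => w (i + j)) k (f w) i) fun i => ?_
  by_cases h : i = k
  · subst h
    simpa using hf
  · simpa [h] using TF.var (i + j)

theorem ENF.ex (K : Cls F C) (h : ENF C R) {t : (ℕ → ℕ) → ℕ} (ht : TF t) (k : ℕ) :
    ENF C fun v => ∃ x ≤ t v, R (Function.update v k x) := by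
  obtain ⟨u, hu, R', hR', h⟩ := h
  refine ⟨_, ht.pair (tf_upd k hu ht 0), fun w => (fstP (w 0) ≤ t (fun i => w (i + 1)) ∧
    (sndP (w 0) ≤ u (fun i => Function.update (fun i => w (i + 1)) k (fstP (w 0)) i) ∧
    R' fun i => cs (sndP (w 0)) (Function.update (fun i => w (i + 1)) k (fstP (w 0))) i)),
    ?_, fun v => ?_⟩
  · refine K.and (K.fle (K.ffst (K.fvar 0)) (K.tf ht.shift)) (K.and ?_ ?_)
    · refine K.fle (K.fsnd (K.fvar 0)) (K.fcomp
        (g := fun i w => Function.update (fun i => w (i + 1)) k (fstP (w 0)) i) (K.tf hu)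
        fun i => ?_)
      exact upd_f K k (K.ffst (K.fvar 0)) 1 i
    · refine K.comp (g := fun i w => cs (sndP (w 0))
        (Function.update (fun i => w (i + 1)) k (fstP (w 0))) i) hR' fun i => ?_
      rcases i with _ | i
      · exact K.fsnd (K.fvar 0)
      · exact upd_f K k (K.ffst (K.fvar 0)) 1 i
  · constructor
    · rintro ⟨x, hx, hR⟩
      rw [h] at hR
      obtain ⟨a, ha, hR⟩ := hR
      have ha' : a ≤ u (Function.update (fun i => v (i + 0)) k (t v)) := by
        refine ha.trans (hu.mono fun i => ?_)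
        by_cases hi : i = k
        · subst hi; simpa using hx
        · simp [hi]
      refine ⟨pairP x a, pairP_mono hx ha', ?_⟩
      simp only [cs_zero, cs_succ, fstP_pairP, sndP_pairP]
      exact ⟨hx, ha, hR⟩
    · rintro ⟨c, -, h1, h2, h3⟩
      refine ⟨_, h1, ?_⟩
      rw [h]
      exact ⟨_, h2, h3⟩

theorem ENF.sall (K : Cls F C) (h : ENF C R) {t : (ℕ → ℕ) → ℕ} (ht : TF t) (k : ℕ) :
    ENF C fun v => ∀ x ≤ (t v).size, R (Function.update v k x) := by
  obtain ⟨u, hu, R', hR', h⟩ := h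
  -- a bound for the entries
  let T : (ℕ → ℕ) → ℕ := fun v => u (Function.update (fun i => v (i + 0)) k (t v).size)
  have hT : TF T := tf_upd k hu ht.size 0
  have hTle : ∀ v x, x ≤ (t v).size → u (Function.update v k x) ≤ T v := by
    intro v x hx
    refine hu.mono fun i => ?_
    by_cases hi : i = k
    · subst hi; simpa using hx
    · simp [hi]
  refine ⟨fun v => 2 ^ ((t v).size * (T v).size) * (2 ^ (T v).size * 2), ?_,
    fun w => ∀ x ≤ (t (fun i => w (i + 1))).size, (fun y : ℕ → ℕ =>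
      H23R.ext (y 1) (y 0) (T fun i => y (i + 2)).size ≤
        u (fun i => Function.update (fun i => y (i + 2)) k (y 0) i) ∧
      R' fun i => cs (H23R.ext (y 1) (y 0) (T fun i => y (i + 2)).size)
        (Function.update (fun i => y (i + 2)) k (y 0)) i) (cs x w), ?_, fun v => ?_⟩
  · exact (ht.smash hT).mul (hT.pow_size.mul (TF.const 2))
  · refine K.sball ht.shift (R := fun y : ℕ → ℕ =>
      H23R.ext (y 1) (y 0) (T fun i => y (i + 2)).size ≤
        u (fun i => Function.update (fun i => y (i + 2)) k (y 0) i) ∧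
      R' fun i => cs (H23R.ext (y 1) (y 0) (T fun i => y (i + 2)).size)
        (Function.update (fun i => y (i + 2)) k (y 0)) i) ?_
    have hE : F fun y => H23R.ext (y 1) (y 0) (T fun i => y (i + 2)).size :=
      K.fext (K.fvar 1) (K.fvar 0) (K.tf (hT.size.comp fun i => TF.var (i + 2)))
    refine K.and (K.fle hE (K.fcomp
      (g := fun i y => Function.update (fun i => y (i + 2)) k (y 0) i) (K.tf hu)
      fun i => upd_f K k (K.fvar 0) 2 i)) ?_
    refine K.comp (g := fun i y => cs (H23R.ext (y 1) (y 0) (T fun i => y (i + 2)).size)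
        (Function.update (fun i => y (i + 2)) k (y 0)) i) hR' fun i => ?_
    rcases i with _ | i
    · exact hE
    · exact upd_f K k (K.fvar 0) 2 i
  · constructor
    · intro hall
      have h1 : ∀ x, ∃ a, x ≤ (t v).size → a ≤ u (Function.update v k x) ∧
          R' (cs a (Function.update v k x)) := by
        intro x
        by_cases hx : x ≤ (t v).size
        · obtain ⟨a, h2, h3⟩ := (h _).1 (hall x hx)
          exact ⟨a, fun _ => ⟨h2, h3⟩⟩
        · exact ⟨0, fun h => absurd h hx⟩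
      choose a ha using h1
      have hlt : ∀ i < (t v).size + 1, a i < 2 ^ (T v).size := fun i hi =>
        lt_of_le_of_lt ((ha i (by omega)).1.trans (hTle v i (by omega))) (Nat.lt_size_self _)
      refine ⟨sc (2 ^ (T v).size) ((t v).size + 1) a, ?_, fun x hx => ?_⟩
      · refine (sc_lt _ hlt).le.trans (le_of_eq ?_)
        rw [← pow_mul, mul_add, mul_one, pow_add]
        ring
      · have hx' : x ≤ (t v).size := hx
        have e : H23R.ext (sc (2 ^ (T v).size) ((t v).size + 1) a) x (T v).size = a x :=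
          ext_sc hlt (by omega)
        change H23R.ext (sc (2 ^ (T v).size) ((t v).size + 1) a) x (T v).size ≤
            u (Function.update v k x) ∧
          R' (cs (H23R.ext (sc (2 ^ (T v).size) ((t v).size + 1) a) x (T v).size)
            (Function.update v k x))
        rw [e]
        exact ha x hx'
    · rintro ⟨w, -, hw⟩ x hx
      have := hw x hx
      rw [h]
      exact ⟨_, this.1, this.2⟩

theorem ANF.all (K : Cls F C) (h : ANF C R) {t : (ℕ → ℕ) → ℕ} (ht : TF t) (k : ℕ) :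
    ANF C fun v => ∀ x ≤ t v, R (Function.update v k x) :=
  (((h.not K).ex K ht k).not K).congr fun v => by push Not; rfl

/-- The normal form lemma. -/
theorem nf (K : Cls F C) (N : ℕ) (hC : ∀ {b m φ}, IsSP b m φ → m < N → C b fun v => SatN v φ)
    {b : Bool} {m : ℕ} {φ : Fm} (h : IsSP b m φ) (hm : m ≤ N) :
    (b = true → ENF C fun v => SatN v φ) ∧ (b = false → ANF C fun v => SatN v φ) := by
  induction h with
  | sharp h =>
    exact ⟨fun _ => ENF.of K (K.sharp h), fun _ => ANF.of K (K.sharp h)⟩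
  | @up b c m φ hφ ih =>
    have ih' := ih (by omega)
    have hd : C b fun v => SatN v φ := hC hφ (by omega)
    cases b <;> cases c
    · exact ⟨fun h => absurd h (by simp), fun _ => ih'.2 rfl⟩
    · exact ⟨fun _ => ENF.of K hd, fun h => absurd h (by simp)⟩
    · exact ⟨fun h => absurd h (by simp), fun _ => ANF.of K hd⟩
    · exact ⟨fun _ => ih'.1 rfl, fun h => absurd h (by simp)⟩
  | @imp b m φ ψ _ _ ih1 ih2 =>
    have ih1' := ih1 hm
    have ih2' := ih2 hm
    cases b
    · refine ⟨fun h => absurd h (by simp), fun _ => ?_⟩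
      exact (((ih1'.1 rfl).and K ((ih2'.2 rfl).not K)).not K).congr fun v => by
        rw [satN_imp]; tauto
    · refine ⟨fun _ => ?_, fun h => absurd h (by simp)⟩
      exact (((ih1'.2 rfl).not K).or K (ih2'.1 rfl)).congr fun v => by
        rw [satN_imp]; tauto
  | @all m k t φ _ ih =>
    refine ⟨fun h => absurd h (by simp), fun _ => ?_⟩
    exact ((ih hm).2 rfl).all K ⟨t, fun _ => rfl⟩ k
  | @sall b m k t φ _ ih =>
    cases b
    · refine ⟨fun h => absurd h (by simp), fun _ => ?_⟩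
      exact ((ih hm).2 rfl).all K ⟨.len t, fun _ => rfl⟩ k
    · refine ⟨fun _ => ?_, fun h => absurd h (by simp)⟩
      exact ((ih hm).1 rfl).sall K (t := fun v => valN v t) ⟨t, fun _ => rfl⟩ k

/-- The classes `Σ^b_{n+1}` and `Π^b_{n+1}`. -/
theorem cls1 (n : ℕ) : Cls (Fn (n + 1)) fun b => Df b (n + 1) where
  tf := Fn.tf
  fcomp := fun h h' => h.comp h'
  ext := rfn_ext.fn
  fst := (RFn.fst (RFn.var 0)).fn
  snd := (RFn.snd (RFn.var 0)).fn
  sharp := fun h => ⟨_, .sharp h, fun _ => Iff.rfl⟩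
  not := fun h => h.not'
  and := fun h h' => h.and h'
  comp := fun h h' => h.comp h'
  sball := fun ht h => Df.sball ht h

/-- The class `Δ^b_{n+1}` with counterexample functions. -/
def RD (n : ℕ) (R : (ℕ → ℕ) → Prop) : Prop := Rb true (n + 1) R ∧ Rb false (n + 1) R

theorem cls2 (n : ℕ) : Cls (RFn (n + 1)) fun _ => RD n where
  tf := RFn.tf
  fcomp := fun h h' => h.comp h'
  ext := rfn_ext
  fst := RFn.fst (RFn.var 0)
  snd := RFn.snd (RFn.var 0)
  sharp := fun h => ⟨⟨_, .sharp h, h.sk, fun _ => Iff.rfl⟩, ⟨_, .sharp h, h.sk, fun _ => Iff.rfl⟩⟩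
  not := fun h => ⟨Rb.not (b := true) h.2, Rb.not (b := false) h.1⟩
  and := fun h h' => ⟨h.1.and h'.1, h.2.and h'.2⟩
  comp := fun h h' => ⟨h.1.comp h', h.2.comp h'⟩
  sball := fun ht h => ⟨Rb.sball ht h.1 h.2, Rb.sball ht h.1 h.2⟩

/-- `Π^b_{n+2}` relations are of the form `∀ a ≤ t, R'` with `R'` in `Σ^b_{n+1}`. -/
theorem Df.anf {n : ℕ} (h : Df .false (n + 2) R) : ANF (fun b => Df b (n + 1)) R := by
  obtain ⟨φ, h1, h2⟩ := h
  exact ((nf (cls1 n) (n + 2) (fun h hm => ⟨_, h.mono (by omega), fun _ => Iff.rfl⟩) h1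
    le_rfl).2 rfl).congr h2

/-- `Σ^b_{n+1}` relations are of the form `∃ a ≤ t, R'` with `R'` in `RD n`. -/
theorem Df.enf {n : ℕ} (h : Df .true (n + 1) R) : ENF (fun _ => RD n) R := by
  obtain ⟨φ, h1, h2⟩ := h
  exact ((nf (cls2 n) (n + 1) (fun h hm => ⟨⟨_, h.lt hm, h.sk hm, fun _ => Iff.rfl⟩,
    ⟨_, h.lt hm, h.sk hm, fun _ => Iff.rfl⟩⟩) h1 le_rfl).1 rfl).congr h2

/-- If all relations of the form `∀ z ≤ t, ∃ y ≤ t', R` with `R` in `RD n` are in `Σ^b_{n+2}`, then
so are all relations given by bounded formulas. -/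
theorem coll {n : ℕ} (h : ∀ t t' R, TF t → TF t' → RD n R →
    Df .true (n + 2) fun v => ∀ z ≤ t v, ∃ y ≤ t' (cs z v), R (cs y (cs z v))) (φ : Fm) :
    ∀ b, Df b (n + 2) fun v => SatN v φ := by
  have key : ∀ R, Df .false (n + 2) R → Df .true (n + 2) R := by
    intro R hR
    obtain ⟨t, ht, R1, hR1, h1⟩ := hR.anf
    obtain ⟨t', ht', R2, hR2, h2⟩ := Df.enf hR1
    refine (h t t' R2 ht ht' hR2).congr fun v => ?_
    rw [h1]
    exact forall_congr' fun a => forall_congr' fun _ => (h2 _).symm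
  induction φ with
  | bot => exact fun b => ⟨.bot, .sharp .bot, fun _ => Iff.rfl⟩
  | eq t u => exact fun b => ⟨.eq t u, .sharp (.eq _ _), fun _ => Iff.rfl⟩
  | le t u => exact fun b => ⟨.le t u, .sharp (.le _ _), fun _ => Iff.rfl⟩
  | imp φ ψ ih1 ih2 => exact fun b => (ih1 _).imp (ih2 b)
  | all k t φ ih =>
    have h1 : Df .false (n + 2) fun v => SatN v (.all k t φ) := by
      have h2 : Df .false (n + 2) fun v => ∀ a ≤ valN v t, (fun w : ℕ → ℕ => SatN
          (Function.update (fun i => w (i + 1)) k (w 0)) φ) (cs a v) :=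
        Df.ball ⟨t, fun _ => rfl⟩ ((ih .false).updS k)
      exact h2
    intro b
    cases b
    · exact h1
    · exact key _ h1

end

end Pool.Agent.H23R
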