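import Pool.Agent.H23R.Upper

/-!
Definability of the standard numbers in the model, and decoding of reals.
-/

namespace Pool.Agent.H23R

open Set Filter Pool.Agent.H23 Pool.Agent.H23L

noncomputable section

variable {l : ℕ} (Q : Qd l)

/-- Entries of block `r` of the sequence `U`. -/
def blkR (m U r c : ℕ) (i : ℕ) : ℕ := if i < m + 1 then ext U (r * (m + 1) + i) (c / 2).size else 0

/-- `y` solves the instance given by block `r` of `U`. -/
def Qd.WN (y U r c : ℕ) : Prop := y ≤ Q.t' (blkR Q.m U r c) ∧ Q.R (cs y (blkR Q.m U r c))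

theorem Qd.wn_rd : RD l fun v => Q.WN (v 0) (v 1) (v 2) (v 3) := by
  have hb : ∀ i, RFn (l + 1) fun v => blkR Q.m (v 1) (v 2) (v 3) i := by
    intro i
    unfold blkR
    by_cases hi : i < Q.m + 1
    · simp only [hi, if_true]
      exact (RFn.var 1).ext (RFn.tf (((TF.var 2).mul (TF.const _)).add (TF.const i)))
        (RFn.tf (TF.var 3).half.size)
    · simp only [hi, if_false]
      exact RFn.const 0
  refine (cls2 l).and (b := true) ((cls2 l).fle (b := true) (RFn.var 0)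
    (RFn.tcomp Q.ht' hb)) ?_
  refine (cls2 l).comp (b := true) (g := fun i v => cs (v 0) (blkR Q.m (v 1) (v 2) (v 3)) i)
    Q.hR fun i => ?_
  rcases i with _ | i
  · exact RFn.var 0
  · exact hb i

/-- The formula for it. -/
def Qd.φW : Fm := Q.wn_rd.1.choose

theorem Qd.φW_sp : IsSP true (l + 1) Q.φW := Q.wn_rd.1.choose_spec.1
theorem Qd.φW_sk : Sk (l + 1) Q.φW := Q.wn_rd.1.choose_spec.2.1
theorem Qd.satN_φW (v : ℕ → ℕ) : SatN v Q.φW ↔ Q.WN (v 0) (v 1) (v 2) (v 3) :=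
  Q.wn_rd.1.choose_spec.2.2 v

theorem Qd.wn_Un {n : ℕ} (hn : 1 ≤ n) {x : Fin n × Bool → ℕ}
    (h : ∀ a, x a < 2 ^ (n * (Q.m + 1))) (k : Fin n) (ε : Bool) (y : ℕ) :
    Q.WN y (Un Q.m n x) (bi k ε) (2 ^ n) ↔ Q.Sol n (x (k, ε)) y := by
  have hs : (2 ^ n / 2).size = n := by
    obtain ⟨n', rfl⟩ : ∃ n', n = n' + 1 := ⟨n - 1, by omega⟩
    rw [pow_succ, Nat.mul_div_cancel _ (by norm_num), Nat.size_pow]
  have hd : ∀ i < Q.m + 1, blkR Q.m (Un Q.m n x) (bi k ε) (2 ^ n) i = dec n (x (k, ε)) i := by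
    intro i hi
    unfold blkR
    rw [if_pos hi, hs]
    exact ext_Un h k ε hi
  unfold Qd.WN Qd.Sol
  rw [Q.t'_dep _ _ hd]
  refine and_congr Iff.rfl (Q.R_dep _ _ fun i hi => ?_)
  rcases i with _ | i
  · rfl
  · exact hd i (by omega)

/-- Four values. -/
def q4 {α : Type} (y U r c : α) : ℕ → α
  | 0 => y
  | 1 => U
  | 2 => r
  | _ => c

/-- The relation in a structure. -/
def Qd.WR (M : Str) (y U r c : M.N) : Prop := Sat M (q4 y U r c) Q.φW

/-- The relations defining the standard numbers and the bits of a real. -/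
def Qd.OmR (M : Str) (c B U n : M.N) : Prop :=
  M.le (M.succ n) (M.len (M.half c)) ∧ ∃ y, M.le y B ∧
    (Q.WR M y U (M.add n n) c ∨ Q.WR M y U (M.succ (M.add n n)) c)
def Qd.BitR (M : Str) (c B x n : M.N) : Prop :=
  ∃ y, M.le y B ∧ Q.WR M y x (M.succ (M.add n n)) c

variable {Q} (D : Q.Y.Dat)

theorem wR_M (y U r c : (M D).N) (f0 f1 f2 f3 : ℕ → ℕ) (h0 : u1 D y = (f0 : G1))
    (h1 : u1 D U = (f1 : G1)) (h2 : u1 D r = (f2 : G1)) (h3 : u1 D c = (f3 : G1)) :
    Q.WR (M D) y U r c ↔ ∀ᶠ s in HF, Q.WN (f0 s) (f1 s) (f2 s) (f3 s) := by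
  unfold Qd.WR
  rw [elem_rp D Q.φW_sk (q4 y U r c) (q4 f0 f1 f2 f3)]
  · simp only [Qd.satN_φW]
    rfl
  · intro i
    rcases i with _ | _ | _ | i
    · exact h0
    · exact h1
    · exact h2
    · exact h3

/-- Standard numbers. -/
def nat (n : ℕ) : (M D).N := x1 D (kT l n) dA

theorem u1_nat (n : ℕ) : u1 D (nat D n) = ((fun _ => n : ℕ → ℕ) : G1) := rfl

theorem nat_zero : nat D 0 = (M D).zero := rfl
theorem nat_succ (n : ℕ) : nat D (n + 1) = (M D).succ (nat D n) := by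
  rw [u1_inj, u1_succ]; rfl
theorem nat_add (m n : ℕ) : (M D).add (nat D m) (nat D n) = nat D (m + n) := by
  rw [u1_inj, u1_add]; rfl
theorem nat_mul (m n : ℕ) : (M D).mul (nat D m) (nat D n) = nat D (m * n) := by
  rw [u1_inj, u1_mul]; rfl

/-- The variable with index `(0, i)`. -/
def vT (l i : ℕ) : Tr l := ⟨fun v => v (Nat.pair 0 i + 1), Fn.var _⟩

theorem tv_vT (i : ℕ) (A : ℕ → Cantor) (s : ℕ) : tv D (vT l i) A s = D.env A s (0, i) := by
  change D.env A s (Nat.unpair (Nat.pair 0 i)) = _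
  rw [Nat.unpair_pair]

/-- The parameter `2 ^ n`. -/
def eC : (M D).N := x1 D ⟨fun v => v 0, Fn.var 0⟩ dA
/-- The number of a real. -/
def eU (α : Cantor) : (M D).N := x1 D (vT l 0) (fun _ => α)
/-- The witness of a real. -/
def eW (α : Cantor) (k : ℕ) : (M D).N := x1 D (vT l (k + 1)) (fun _ => α)
/-- Bound for the witnesses. -/
def eB : (M D).N := x1 D ⟨fun v => Q.t' fun _ => v 0, Fn.tf (Q.ht'.comp fun _ => TF.var 0)⟩ dA

theorem u1_eC : u1 D (eC D) = ((fun s => 2 ^ Q.n s : ℕ → ℕ) : G1) := rfl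
theorem u1_eB : u1 D (eB D) = ((fun s => Q.t' fun _ => 2 ^ Q.n s : ℕ → ℕ) : G1) := rfl

/-- The family of instances of a real. -/
def fam (α : Cantor) (s : ℕ) : Fin (Q.n s) × Bool → ℕ :=
  Q.raw (D.leaf s (ndR α (D.N s)))

theorem fam_lt (α : Cantor) (s : ℕ) (a : Fin (Q.n s) × Bool) :
    fam D α s a < 2 ^ (Q.n s * (Q.m + 1)) := Q.raw_lt _ a

theorem fam_sol (α : Cantor) (s : ℕ) (a : Fin (Q.n s) × Bool) :
    ∃ y, Q.Sol (Q.n s) (fam D α s a) y :=
  ((Q.S_good s).2.1 _ ((D.leaf s (ndR α (D.N s))) a).2).2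

theorem u1_eU (α : Cantor) :
    u1 D (eU D α) = ((fun s => Un Q.m (Q.n s) (fam D α s) : ℕ → ℕ) : G1) := by
  unfold eU
  rw [u1_x1]
  exact congrArg (fun f : ℕ → ℕ => (f : G1)) (funext fun s => tv_vT D 0 (fun _ => α) s)

theorem u1_eW (α : Cantor) (k : ℕ) :
    u1 D (eW D α k) = ((fun s => Q.genR (fam D α s) (k + 1) (α k) : ℕ → ℕ) : G1) := by
  unfold eW
  rw [u1_x1]
  congr 1
  funext s
  rw [tv_vT]
  rfl

theorem n_pos (s : ℕ) : 1 ≤ Q.n s := by have := Q.n_ge s; omega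

theorem std_lt (k : ℕ) : ∀ᶠ s in HF, (fun _ : ℕ => k) s < Q.n s := by
  filter_upwards [hf_ge k] with s hs
  have := Q.n_ge s
  omega

theorem nat_le_eC (n : ℕ) : (M D).le (nat D n) (eC D) := by
  rw [le_M D _ _ _ _ (u1_nat D n) (u1_eC D)]
  filter_upwards [std_lt (Q := Q) n] with s hs
  exact hs.le.trans Nat.lt_two_pow_self.le

theorem u1_lenC : u1 D ((M D).len ((M D).half (eC D))) = ((fun s => Q.n s : ℕ → ℕ) : G1) := by
  rw [u1_len, u1_half, u1_eC]
  change ((fun s => (2 ^ Q.n s / 2).size : ℕ → ℕ) : G1) = _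
  congr 1
  funext s
  obtain ⟨n', hn'⟩ : ∃ n', Q.n s = n' + 1 := ⟨Q.n s - 1, by have := n_pos (Q := Q) s; omega⟩
  rw [hn', pow_succ, Nat.mul_div_cancel _ (by norm_num), Nat.size_pow]

theorem le_eW (α : Cantor) (k : ℕ) : (M D).le (eW D α k) (eB D) := by
  rw [le_M D _ _ _ _ (u1_eW D α k) (u1_eB D)]
  refine Eventually.of_forall fun s => ?_
  simp only [Qd.genR]
  split_ifs
  · refine (Q.wt_le _ _).trans (Q.ht'.mono fun i => ?_)
    exact (dec_lt _ _ _).le
  · exact Nat.zero_le _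

theorem u1_blk (n : (M D).N) (f : ℕ → ℕ) (hn : u1 D n = (f : G1)) (ε : Bool) :
    u1 D (if ε then (M D).succ ((M D).add n n) else (M D).add n n) =
      ((fun s => bi (f s) ε : ℕ → ℕ) : G1) := by
  cases ε
  · simp only [Bool.false_eq_true, if_false]
    rw [u1_add, hn]
    change (((fun s => f s + f s : ℕ → ℕ) : G1)) = _
    congr 1
    funext s
    unfold bi
    simp
    omega
  · simp only [if_true]
    rw [u1_succ, u1_add, hn]
    change (((fun s => f s + f s + 1 : ℕ → ℕ) : G1)) = _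
    congr 1
    funext s
    unfold bi
    simp
    omega

/-- The block relation with a real. -/
theorem w_blk (α : Cantor) (y : (M D).N) (G : ℕ → ℕ) (hy : u1 D y = (G : G1))
    (n : (M D).N) (f : ℕ → ℕ) (hn : u1 D n = (f : G1)) (hlt : ∀ᶠ s in HF, f s < Q.n s)
    (ε : Bool) :
    Q.WR (M D) y (eU D α) (if ε then (M D).succ ((M D).add n n) else (M D).add n n)
      (eC D) ↔ ∀ᶠ s in HF, ∃ h : f s < Q.n s, Q.Sol (Q.n s) (fam D α s (⟨f s, h⟩, ε)) (G s) := by
  rw [wR_M D _ _ _ _ _ _ _ _ hy (u1_eU D α) (u1_blk D n f hn ε) (u1_eC D)]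
  apply eventually_congr
  filter_upwards [hlt] with s hs
  have h := Q.wn_Un (n_pos s) (fam_lt D α s) ⟨f s, hs⟩ ε (G s)
  exact h.trans ⟨fun h => ⟨hs, h⟩, fun h => h.2⟩

theorem par_node (α : Cantor) (k : ℕ) :
    Q.WR (M D) (eW D α k) (eU D α)
      (if α k then (M D).succ ((M D).add (nat D k) (nat D k)) else
        (M D).add (nat D k) (nat D k)) (eC D) := by
  rw [w_blk D α _ _ (u1_eW D α k) (nat D k) _ (u1_nat D k) (std_lt k)]
  filter_upwards [std_lt (Q := Q) k] with s hs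
  refine ⟨hs, ?_⟩
  simp only [Qd.genR]
  rw [dif_pos hs]
  exact Q.wt_sol (fam_sol D α s _)

theorem om_nat (α : Cantor) (k : ℕ) : Q.OmR (M D) (eC D) (eB D) (eU D α) (nat D k) := by
  refine ⟨?_, eW D α k, le_eW D _ _, ?_⟩
  · rw [← nat_succ, le_M D _ _ _ _ (u1_nat D _) (u1_lenC D)]
    filter_upwards [std_lt (Q := Q) k] with s hs
    exact hs
  · have h := par_node D α k
    cases hα : α k
    · rw [hα] at h
      exact Or.inl h
    · rw [hα] at h
      exact Or.inr h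

/-- No element of the model solves a block which it should not solve. -/
theorem no_w (α : Cantor) (y : (M D).N) (n : (M D).N) (f : ℕ → ℕ) (hn : u1 D n = (f : G1))
    (hlt : ∀ᶠ s in HF, f s < Q.n s) (ε : Bool)
    (h : (∀ k, ∀ᶠ s in HF, k ≤ f s) ∨ (∀ᶠ s in HF, α (f s) ≠ ε)) :
    ¬ Q.WR (M D) y (eU D α) (if ε then (M D).succ ((M D).add n n) else (M D).add n n)
      (eC D) := by
  intro hc
  obtain ⟨u, B, rfl⟩ := x1_surj D y
  let A' : ℕ → Cantor := fun i => if i = 0 then α else B (i - 1)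
  let W : Tr l := rel (fun i => i + 1) u
  have hA' : A' ∘ (fun i => i + 1) = B := by funext i; simp [A']
  have hW : x1 D u B = x1 D W A' := by rw [x1_rel, hA']
  rw [hW, w_blk D α _ _ (u1_x1 D W A') n f hn hlt ε] at hc
  obtain ⟨m, hm⟩ := Ten_surj W
  have hcond : ∀ᶠ s in HF, Q.Y.dg m ≤ f s + 1 ∨ A' 0 (f s) ≠ ε := by
    rcases h with h | h
    · filter_upwards [h (Q.Y.dg m)] with s hs
      exact Or.inl (hs.trans (Nat.le_succ _))
    · filter_upwards [h] with s hs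
      exact Or.inr hs
  obtain ⟨s, h1, h2, h3, h4⟩ := (hc.and (hcond.and (hlt.and
    (hf_of_atTop (D.tend (max (m + 1) (Q.Y.dg m))))))).exists
  refine D.avoid (m := m) (s := s) (by omega) (by omega) A' (j := 0) (by omega) (k := f s) h3
    (b := ε) h2 ?_
  obtain ⟨h5, h6⟩ := h1
  refine ⟨h5, ?_⟩
  rw [hm]
  exact h6

theorem bit_iff (α : Cantor) (k : ℕ) :
    Q.BitR (M D) (eC D) (eB D) (eU D α) (nat D k) ↔ α k = true := by
  constructor
  · rintro ⟨y, -, h1⟩
    by_contra hα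
    refine no_w D α y (nat D k) _ (u1_nat D k) (std_lt k) true (Or.inr ?_) h1
    exact Eventually.of_forall fun s => hα
  · intro hα
    refine ⟨eW D α k, le_eW D _ _, ?_⟩
    have h := par_node D α k
    rw [hα] at h
    exact h

theorem om_std (α : Cantor) (n : (M D).N) (h : Q.OmR (M D) (eC D) (eB D) (eU D α) n) :
    ∃ k, n = nat D k := by
  obtain ⟨hle, y, -, hpar⟩ := h
  by_contra hcon
  push Not at hcon
  have hr := r1_spec D n
  have hlt : ∀ᶠ s in HF, r1 D n s < Q.n s := by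
    have h1 : u1 D ((M D).succ n) = ((fun s => r1 D n s + 1 : ℕ → ℕ) : G1) := by
      rw [u1_succ, hr]; rfl
    exact (le_M D _ _ _ _ h1 (u1_lenC D)).1 hle
  have hne : ∀ k, ∀ᶠ s in HF, r1 D n s ≠ k := by
    intro k
    apply Ultrafilter.eventually_not.2
    intro h2
    apply hcon k
    rw [u1_inj, u1_nat, hr]
    exact Germ.coe_eq.2 h2
  have hge : ∀ k, ∀ᶠ s in HF, k ≤ r1 D n s := by
    intro k
    have h1 : ∀ᶠ s in HF, ∀ j ∈ Finset.range k, r1 D n s ≠ j := by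
      rw [Filter.eventually_all_finset]
      exact fun j _ => hne j
    filter_upwards [h1] with s hs
    by_contra hlt
    push Not at hlt
    exact hs _ (Finset.mem_range.2 hlt) rfl
  rcases hpar with hpar | hpar
  · exact no_w D α y n _ hr hlt false (Or.inl hge) hpar
  · exact no_w D α y n _ hr hlt true (Or.inl hge) hpar

end

end Pool.Agent.H23R
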