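import Pool.Agent.H23R.Defin2

/-!
Failure of polynomial induction for a `Σ^b_{l+1}` formula in the model.
-/

namespace Pool.Agent.H23R

open Set Filter Pool.Agent.H23 Pool.Agent.H23L

noncomputable section

def fNot (φ : Fm) : Fm := .imp φ .bot
def fAnd (φ ψ : Fm) : Fm := fNot (.imp φ (fNot ψ))
def fOr (φ ψ : Fm) : Fm := .imp (fNot φ) ψ
def fEx (k : ℕ) (t : Tm) (φ : Fm) : Fm := fNot (.all k t (fNot φ))

theorem sat_fNot (M : Str) (v : ℕ → M.N) (φ : Fm) : Sat M v (fNot φ) ↔ ¬ Sat M v φ := Iff.rfl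
theorem sat_fAnd (M : Str) (v : ℕ → M.N) (φ ψ : Fm) :
    Sat M v (fAnd φ ψ) ↔ Sat M v φ ∧ Sat M v ψ := by
  simp only [fAnd, sat_fNot, Sat]; tauto
theorem sat_fOr (M : Str) (v : ℕ → M.N) (φ ψ : Fm) :
    Sat M v (fOr φ ψ) ↔ Sat M v φ ∨ Sat M v ψ := by
  simp only [fOr, sat_fNot, Sat]; tauto
theorem sat_fEx (M : Str) (v : ℕ → M.N) (k : ℕ) (t : Tm) (φ : Fm) :
    Sat M v (fEx k t φ) ↔ ∃ a, M.le a (t.val M v) ∧ Sat M (Function.update v k a) φ := by
  simp only [fEx, sat_fNot, Sat]; push Not; rfl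

theorem isSP_not {b : Bool} {n : ℕ} {φ : Fm} (h : IsSP b n φ) : IsSP (!b) n (fNot φ) := by
  refine IsSP.not ?_
  rw [Bool.not_not]
  exact h
theorem isSP_and {n : ℕ} {φ ψ : Fm} (h : IsSP true n φ) (h' : IsSP true n ψ) :
    IsSP true n (fAnd φ ψ) := isSP_not (b := false) (.imp h (isSP_not h'))
theorem isSP_or {n : ℕ} {φ ψ : Fm} (h : IsSP true n φ) (h' : IsSP true n ψ) :
    IsSP true n (fOr φ ψ) := .imp (isSP_not h) h'
theorem isSP_ex {n : ℕ} {φ : Fm} (k : ℕ) (t : Tm) (h : IsSP true (n + 1) φ) :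
    IsSP true (n + 1) (fEx k t φ) := isSP_not (b := false) (.all k t (isSP_not h))

variable {l : ℕ} {Q : Qd l} (D : Q.Y.Dat)

/-- The definition of the cut as a `Σ^b_{l+1}` formula: variable `0` is the argument, `1`, `2` and
`3` the parameters. -/
theorem exists_cut : ∃ χ : Fm, IsSP true (l + 1) χ ∧ ∀ v : ℕ → (M D).N,
    (Sat (M D) v χ ↔ Q.OmR (M D) (v 1) (v 2) (v 3) ((M D).len (v 0))) := by
  let t : Tm := .len (.var 0)
  obtain ⟨φ1, s1, h1⟩ := exists_subst Q.φW_sp (q4 (.var 4) (.var 3) (.add t t) (.var 1))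
  obtain ⟨φ2, s2, h2⟩ := exists_subst Q.φW_sp (q4 (.var 4) (.var 3) (.succ (.add t t)) (.var 1))
  refine ⟨fAnd (.le (.succ t) (.len (.half (.var 1)))) (fEx 4 (.var 2) (fOr φ1 φ2)),
    isSP_and (.sharp (.le _ _)) (isSP_ex _ _ (isSP_or s1 s2)), fun v => ?_⟩
  rw [sat_fAnd, sat_fEx]
  refine and_congr Iff.rfl (exists_congr fun y => and_congr Iff.rfl ?_)
  rw [sat_fOr, h1 (M D) (M_refl D), h2 (M D) (M_refl D)]
  refine or_congr ?_ ?_
  · unfold Qd.WR
    have : (fun i => (q4 (.var 4) (.var 3) (.add t t) (.var 1) i : Tm).val (M D)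
        (Function.update v 4 y)) =
        q4 y (v 3) ((M D).add ((M D).len (v 0)) ((M D).len (v 0))) (v 1) := by
      funext i
      rcases i with _ | _ | _ | i
      · simp [q4, Tm.val]
      · simp [q4, Tm.val]
      · simp [q4, Tm.val, t]
      · simp [q4, Tm.val]
    rw [this]
  · unfold Qd.WR
    have : (fun i => (q4 (.var 4) (.var 3) (.succ (.add t t)) (.var 1) i : Tm).val (M D)
        (Function.update v 4 y)) =
        q4 y (v 3) ((M D).succ ((M D).add ((M D).len (v 0)) ((M D).len (v 0)))) (v 1) := by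
      funext i
      rcases i with _ | _ | _ | i
      · simp [q4, Tm.val]
      · simp [q4, Tm.val]
      · simp [q4, Tm.val, t]
      · simp [q4, Tm.val]
    rw [this]

/-- A true formula: `|x| = |x / 2| + 1` or `|x| = |x / 2|`. -/
theorem len_half (x : (M D).N) : (M D).len x = (M D).succ ((M D).len ((M D).half x)) ∨
    (M D).len x = (M D).len ((M D).half x) := by
  let φ : Fm := fOr (.eq (.len (.var 0)) (.succ (.len (.half (.var 0)))))
    (.eq (.len (.var 0)) (.len (.half (.var 0))))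
  have hφ : Sk (l + 1) φ := .imp (.imp (.eq _ _) .bot) (.eq _ _)
  have hv : ∀ v, SatN v φ := by
    intro v
    have h : SatN v φ ↔ ((v 0).size = (v 0 / 2).size + 1 ∨ (v 0).size = (v 0 / 2).size) :=
      sat_fOr std v _ _
    rw [h]
    rcases Nat.eq_zero_or_pos (v 0) with h0 | h0
    · right; rw [h0]
    · left
      have h1 := Nat.lt_size_self (v 0)
      apply le_antisymm
      · rw [Nat.size_le, pow_succ]
        have := Nat.lt_size_self (v 0 / 2)
        omega
      · have h2 : (v 0 / 2).size < (v 0).size := by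
          have h3 : (v 0 / 2).size ≤ (v 0).size - 1 := by
            rw [Nat.size_le]
            have h4 : 1 ≤ (v 0).size := by
              rw [Nat.succ_le_iff, Nat.size_pos]; exact h0
            have h5 : 2 ^ (v 0).size = 2 * 2 ^ ((v 0).size - 1) := by
              rw [← pow_succ']; congr 1; omega
            omega
          have h4 : 1 ≤ (v 0).size := by
            rw [Nat.succ_le_iff, Nat.size_pos]; exact h0
          omega
        exact h2
  have := M_true D hφ hv fun _ => x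
  rw [sat_fOr] at this
  exact this

theorem no_pind : ∃ (φ : Fm) (v : ℕ → (M D).N) (a : (M D).N), IsSP true (l + 1) φ ∧
    Sat (M D) (Function.update v 0 (M D).zero) φ ∧
    (∀ x, Sat (M D) (Function.update v 0 ((M D).half x)) φ →
      Sat (M D) (Function.update v 0 x) φ) ∧ ¬ Sat (M D) (Function.update v 0 a) φ := by
  obtain ⟨χ, hχ, h⟩ := exists_cut D
  let v : ℕ → (M D).N := q4 (eC D) (eC D) (eB D) (eU D fun _ => false)
  have key : ∀ x, Sat (M D) (Function.update v 0 x) χ ↔
      Q.OmR (M D) (eC D) (eB D) (eU D fun _ => false) ((M D).len x) := by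
    intro x
    rw [h]
    rfl
  refine ⟨χ, v, (M D).half (eC D), hχ, ?_, fun x => ?_, ?_⟩
  · rw [key]
    have : (M D).len (M D).zero = nat D 0 := by
      rw [u1_inj, u1_len, u1_zero]; rfl
    rw [this]
    exact om_nat D _ 0
  · rw [key, key]
    intro h1
    rcases len_half D x with h2 | h2
    · obtain ⟨k, hk⟩ := om_std D _ _ h1
      rw [h2, hk, ← nat_succ]
      exact om_nat D _ _
    · rw [h2]
      exact h1
  · rw [key]
    rintro ⟨h1, -⟩
    have h2 : u1 D ((M D).succ ((M D).len ((M D).half (eC D)))) =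
        ((fun s => Q.n s + 1 : ℕ → ℕ) : G1) := by
      rw [u1_succ, u1_lenC]; rfl
    have h3 := (le_M D _ _ _ _ h2 (u1_lenC D)).1 h1
    obtain ⟨s, hs⟩ := h3.exists
    omega

end

end Pool.Agent.H23R
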