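import Mathlib

/-!
Coding of pairs and sequences.
-/

namespace Pool.Agent.H23R

noncomputable section

/-! ### Sequences -/

/-- The entry with index `r` of the sequence coded by `w`, the entries having `l` bits. -/
def ext (w r l : ℕ) : ℕ := if r * l + l < w.size then w / 2 ^ (r * l) % 2 ^ l else 0

theorem ext_lt (w r l : ℕ) : ext w r l < 2 ^ l := by
  unfold ext
  split_ifs
  · exact Nat.mod_lt _ (by positivity)
  · positivity

theorem ext_le (w r l : ℕ) : ext w r l ≤ w := by
  unfold ext
  split_ifs
  · exact (Nat.mod_le _ _).trans (Nat.div_le_self _ _)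
  · exact Nat.zero_le _

/-- The code of a sequence: digits to the base `B`, with a marker. -/
def sc (B : ℕ) : ℕ → (ℕ → ℕ) → ℕ
  | 0, _ => 1
  | m + 1, f => f 0 + B * sc B m fun i => f (i + 1)

theorem pow_le_sc (B m : ℕ) (f : ℕ → ℕ) : B ^ m ≤ sc B m f := by
  induction m generalizing f with
  | zero => simp [sc]
  | succ m ih =>
    simp only [sc]
    calc B ^ (m + 1) = B * B ^ m := by ring
      _ ≤ B * sc B m fun i => f (i + 1) := Nat.mul_le_mul_left _ (ih _)
      _ ≤ _ := Nat.le_add_left _ _

theorem sc_lt {B : ℕ} (m : ℕ) {f : ℕ → ℕ} (h : ∀ i < m, f i < B) : sc B m f < 2 * B ^ m := by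
  induction m generalizing f with
  | zero => simp [sc]
  | succ m ih =>
    simp only [sc]
    have h1 := ih (f := fun i => f (i + 1)) fun i hi => h (i + 1) (by omega)
    have h2 := h 0 (by omega)
    set s := sc B m fun i => f (i + 1)
    calc f 0 + B * s < B + B * s := by omega
      _ = B * (s + 1) := by ring
      _ ≤ B * (2 * B ^ m) := Nat.mul_le_mul_left _ h1
      _ = 2 * B ^ (m + 1) := by ring

theorem sc_div {B m : ℕ} {f : ℕ → ℕ} (h : ∀ i < m, f i < B) {r : ℕ} (hr : r < m) :
    sc B m f / B ^ r % B = f r := by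
  induction m generalizing f r with
  | zero => omega
  | succ m ih =>
    have h2 := h 0 (by omega)
    have hB : 0 < B := by omega
    rcases r with _ | r
    · simp only [sc, pow_zero, Nat.div_one]
      rw [Nat.add_mul_mod_self_left, Nat.mod_eq_of_lt h2]
    · simp only [sc]
      rw [pow_succ', ← Nat.div_div_eq_div_mul, Nat.add_mul_div_left _ _ hB,
        Nat.div_eq_of_lt h2, zero_add]
      exact ih (f := fun i => f (i + 1)) (fun i hi => h (i + 1) (by omega)) (by omega)

theorem ext_sc {l m : ℕ} {f : ℕ → ℕ} (h : ∀ i < m, f i < 2 ^ l) {r : ℕ} (hr : r < m) :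
    ext (sc (2 ^ l) m f) r l = f r := by
  unfold ext
  have h1 : r * l + l < (sc (2 ^ l) m f).size := by
    rw [Nat.lt_size]
    refine le_trans ?_ (pow_le_sc (2 ^ l) m f)
    rw [← pow_mul]
    refine Nat.pow_le_pow_right (by norm_num) ?_
    nlinarith
  rw [if_pos h1, mul_comm r l, pow_mul]
  exact sc_div h hr

/-- The code depends affinely on every entry. -/
theorem sc_affine (B m : ℕ) (f : ℕ → ℕ) {r : ℕ} (hr : r < m) : ∃ a, ∀ x,
    sc B m (Function.update f r x) = a + B ^ r * x := by
  induction m generalizing f r with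
  | zero => omega
  | succ m ih =>
    rcases r with _ | r
    · refine ⟨B * sc B m fun i => f (i + 1), fun x => ?_⟩
      simp only [sc, Function.update_self, pow_zero, one_mul]
      have : (fun i => Function.update f 0 x (i + 1)) = fun i => f (i + 1) := by
        funext i; simp
      rw [this, add_comm]
    · obtain ⟨a, ha⟩ := ih (fun i => f (i + 1)) (r := r) (by omega)
      refine ⟨f 0 + B * a, fun x => ?_⟩
      simp only [sc]
      have e1 : (fun i => Function.update f (r + 1) x (i + 1)) =
          Function.update (fun i => f (i + 1)) r x := by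
        funext i
        by_cases h : i = r
        · subst h; simp
        · rw [Function.update_of_ne h, Function.update_of_ne (by omega)]
      rw [e1, ha, Function.update_of_ne (by omega), pow_succ]
      ring

/-! ### Pairs -/

def pairP (a b : ℕ) : ℕ := (a + b) * (a + b) + a
def fstP (c : ℕ) : ℕ := c - c.sqrt * c.sqrt
def sndP (c : ℕ) : ℕ := c.sqrt - fstP c

theorem sqrt_pairP (a b : ℕ) : (pairP a b).sqrt = a + b :=
  Nat.sqrt_add_eq (a + b) (by omega)

@[simp] theorem fstP_pairP (a b : ℕ) : fstP (pairP a b) = a := by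
  unfold fstP
  rw [sqrt_pairP]
  unfold pairP
  omega

@[simp] theorem sndP_pairP (a b : ℕ) : sndP (pairP a b) = b := by
  unfold sndP
  rw [sqrt_pairP, fstP_pairP]
  omega

theorem fstP_le (c : ℕ) : fstP c ≤ c := Nat.sub_le _ _
theorem sndP_le (c : ℕ) : sndP c ≤ c := (Nat.sub_le _ _).trans (Nat.sqrt_le_self c)

theorem eq_sqrt {k c : ℕ} (h1 : k * k ≤ c) (h2 : c < (k + 1) * (k + 1)) : c.sqrt = k := by
  have := Nat.sqrt_le c
  have h3 : k ≤ c.sqrt := Nat.le_sqrt.2 h1
  have h4 : c.sqrt < k + 1 := Nat.sqrt_lt.2 h2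
  omega

theorem pairP_mono {a b a' b' : ℕ} (h : a ≤ a') (h' : b ≤ b') : pairP a b ≤ pairP a' b' := by
  unfold pairP
  gcongr

end

end Pool.Agent.H23R
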