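import Pool.Agent.H23R.Calc
import Pool.Agent.H23R.Seq

/-!
Formulas all of whose quantifiers have counterexample functions with simple graphs.
-/

namespace Pool.Agent.H23R

noncomputable section

/-- Formulas all of whose quantifiers have counterexample functions in `Fn n`. -/
inductive Sk (n : ℕ) : Fm → Prop
  | bot : Sk n .bot
  | eq (t u : Tm) : Sk n (.eq t u)
  | le (t u : Tm) : Sk n (.le t u)
  | imp {φ ψ : Fm} : Sk n φ → Sk n ψ → Sk n (.imp φ ψ)
  | all (k : ℕ) (t : Tm) {φ : Fm} (g : (ℕ → ℕ) → ℕ) : Sk n φ → Fn n g →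
      (∀ v, ¬ SatN v (.all k t φ) → g v ≤ valN v t ∧ ¬ SatN (Function.update v k (g v)) φ) →
      Sk n (.all k t φ)

theorem Sk.not {n : ℕ} {φ : Fm} (h : Sk n φ) : Sk n (.imp φ .bot) := .imp h .bot

theorem Sk.mono {n m : ℕ} {φ : Fm} (h : Sk n φ) (hm : n ≤ m) : Sk m φ := by
  induction h with
  | bot => exact .bot
  | eq t u => exact .eq t u
  | le t u => exact .le t u
  | imp _ _ ih1 ih2 => exact .imp ih1 ih2
  | all k t g _ hg h ih => exact .all k t g ih (hg.mono hm) h

theorem upd_comp {α : Type} {ρ : ℕ → ℕ} (hρ : Function.Injective ρ) (v : ℕ → α) (k : ℕ) (a : α) :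
    (fun i => Function.update v (ρ k) a (ρ i)) = Function.update (fun i => v (ρ i)) k a := by
  funext i
  by_cases h : i = k
  · subst h; simp
  · simp [h, hρ.ne h]

theorem Sk.ren {n : ℕ} {φ : Fm} (h : Sk n φ) {ρ : ℕ → ℕ} (hρ : Function.Injective ρ) :
    Sk n (φ.ren ρ) := by
  induction h with
  | bot => exact .bot
  | eq t u => exact .eq _ _
  | le t u => exact .le _ _
  | imp _ _ ih1 ih2 => exact .imp ih1 ih2
  | @all k t φ g _ hg h ih =>
    refine .all (ρ k) (t.ren ρ) (fun v => g fun i => v (ρ i)) ih (hg.ren hρ) fun v hv => ?_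
    have h1 : ¬ SatN (fun i => v (ρ i)) (.all k t φ) := by
      rw [← satN_ren hρ]
      exact hv
    have h2 := h _ h1
    rw [valN_ren, satN_ren hρ, upd_comp hρ]
    exact h2

/-- The renaming for `update`. -/
theorem updρ_inj (k : ℕ) : Function.Injective fun i => if i = k then 0 else i + 1 := by
  intro i j h
  beta_reduce at h
  split_ifs at h <;> omega

theorem upd_eq_ren {α : Type} (k : ℕ) (w : ℕ → α) :
    (fun i => w (if i = k then 0 else i + 1)) = Function.update (fun i => w (i + 1)) k (w 0) := by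
  funext i
  by_cases h : i = k
  · subst h; simp
  · simp [h]

theorem Df.updS {b : Bool} {n : ℕ} {R : (ℕ → ℕ) → Prop} (h : Df b n R) (k : ℕ) :
    Df b n fun w => R (Function.update (fun i => w (i + 1)) k (w 0)) :=
  (h.ren (updρ_inj k)).congr fun w => by rw [upd_eq_ren]

theorem Df.shift {b : Bool} {n : ℕ} {R : (ℕ → ℕ) → Prop} (h : Df b n R) :
    Df b n fun w => R fun i => w (i + 1) :=
  h.ren (ρ := fun i => i + 1) fun a b hab => by simpa using hab

open scoped Classical in
/-- The greatest `x ≤ t v` with `R (x, v)`, or `0`. -/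
def grt (t : (ℕ → ℕ) → ℕ) (R : (ℕ → ℕ) → Prop) (v : ℕ → ℕ) : ℕ :=
  Nat.findGreatest (fun x => R (cs x v)) (t v)

theorem grt_le (t : (ℕ → ℕ) → ℕ) (R : (ℕ → ℕ) → Prop) (v : ℕ → ℕ) : grt t R v ≤ t v := by
  classical
  exact Nat.findGreatest_le _

theorem grt_spec {t : (ℕ → ℕ) → ℕ} {R : (ℕ → ℕ) → Prop} {v : ℕ → ℕ} {x : ℕ} (hx : x ≤ t v)
    (h : R (cs x v)) : R (cs (grt t R v) v) := by
  classical
  exact Nat.findGreatest_spec (P := fun x => R (cs x v)) hx h

theorem fn_grt {n : ℕ} {t : (ℕ → ℕ) → ℕ} {R : (ℕ → ℕ) → Prop} (ht : TF t) (h1 : Df true n R)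
    (h2 : Df true n fun w => ∀ x ≤ t (fun i => w (i + 1)), w 0 < x →
      ¬ R (cs x fun i => w (i + 1))) : Fn n (grt t R) := by
  classical
  refine ⟨?_, ?_⟩
  · obtain ⟨u, hu⟩ := ht
    exact ⟨u, fun v => (grt_le t R v).trans (hu v).ge⟩
  · have h3 : Df true n fun w => w 0 ≤ t (fun i => w (i + 1)) ∧ ((¬ w 0 = 0 → R w) ∧
        ∀ x ≤ t (fun i => w (i + 1)), w 0 < x → ¬ R (cs x fun i => w (i + 1))) := by
      refine Df.and (Df.le (TF.var 0) ht.shift) (Df.and ?_ h2)
      exact Df.imp (Df.not (Df.eq (TF.var 0) TF.zero)) h1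
    refine h3.congr fun w => ?_
    have e : cs (w 0) (fun i => w (i + 1)) = w := by
      funext i
      cases i <;> rfl
    have e2 : w 0 = grt t R (fun i => w (i + 1)) ↔ grt t R (fun i => w (i + 1)) = w 0 := eq_comm
    rw [e2]
    unfold grt
    rw [Nat.findGreatest_eq_iff]
    simp only [e]
    refine and_congr Iff.rfl (and_congr Iff.rfl ?_)
    constructor
    · intro h x h3 h4
      exact h x h4 h3
    · intro h x h3 h4
      exact h h4 h3

theorem updρ2_inj (k : ℕ) : Function.Injective fun i => if i = k then 0 else i + 2 := by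
  intro i j h
  beta_reduce at h
  split_ifs at h <;> omega

theorem Df.upd2 {b : Bool} {n : ℕ} {R : (ℕ → ℕ) → Prop} (h : Df b n R) (k : ℕ) :
    Df b n fun w => R (Function.update (fun i => w (i + 2)) k (w 0)) :=
  (h.ren (updρ2_inj k)).congr fun w => by
    have : (fun i => w (if i = k then 0 else i + 2)) =
        Function.update (fun i => w (i + 2)) k (w 0) := by
      funext i
      by_cases h : i = k
      · subst h; simp
      · simp [h]
    rw [this]

/-- Counterexample functions for sharply bounded quantifiers. -/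
theorem Sk.sall {n : ℕ} {φ : Fm} (h : Sk n φ) (h1 : Df true n fun v => SatN v φ)
    (h2 : Df false n fun v => SatN v φ) (k : ℕ) (t : Tm) : Sk n (.all k (.len t) φ) := by
  have ht : TF fun v => valN v t := ⟨t, fun _ => rfl⟩
  refine .all k (.len t) (grt (fun v => (valN v t).size)
    fun w => ¬ SatN (Function.update (fun i => w (i + 1)) k (w 0)) φ) h ?_ fun v hv => ?_
  · refine fn_grt ht.size ((Df.not (b := true) h2).updS k) ?_
    refine Df.sball ht.shift (R := fun y => y 1 < y 0 →
      ¬ ¬ SatN (Function.update (fun i => y (i + 2)) k (y 0)) φ) ?_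
    refine Df.imp (Df.lt (TF.var 1) (TF.var 0)) ?_
    exact (h1.upd2 k).congr fun y => not_not.symm
  · refine ⟨grt_le _ _ _, ?_⟩
    rw [satN_all] at hv
    push Not at hv
    obtain ⟨x, hx, hx2⟩ := hv
    exact grt_spec (t := fun v => (valN v t).size)
      (R := fun w => ¬ SatN (Function.update (fun i => w (i + 1)) k (w 0)) φ) (v := v) hx hx2

/-- Counterexample functions for bounded quantifiers. -/
theorem Sk.ball {n : ℕ} {φ : Fm} (h : Sk (n + 1) φ)
    (h2 : Df false (n + 1) fun v => SatN v φ) (k : ℕ) (t : Tm)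
    (h3 : Df true (n + 1) fun y => ∀ x ≤ valN (fun i => y (i + 1)) t, y 0 < x →
      SatN (Function.update (fun i => y (i + 1)) k x) φ) : Sk (n + 1) (.all k t φ) := by
  have ht : TF fun v => valN v t := ⟨t, fun _ => rfl⟩
  refine .all k t (grt (fun v => valN v t)
    fun w => ¬ SatN (Function.update (fun i => w (i + 1)) k (w 0)) φ) h ?_ fun v hv => ?_
  · refine fn_grt ht ((Df.not (b := true) h2).updS k) ?_
    refine h3.congr fun y => ?_
    simp only [cs_succ, cs_zero, not_not]
  · refine ⟨grt_le _ _ _, ?_⟩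
    rw [satN_all] at hv
    push Not at hv
    obtain ⟨x, hx, hx2⟩ := hv
    exact grt_spec (t := fun v => valN v t)
      (R := fun w => ¬ SatN (Function.update (fun i => w (i + 1)) k (w 0)) φ) (v := v) hx hx2

theorem IsSharp.sk {n : ℕ} {φ : Fm} (h : IsSharp φ) : Sk n φ := by
  induction h with
  | bot => exact .bot
  | eq t u => exact .eq t u
  | le t u => exact .le t u
  | imp _ _ ih1 ih2 => exact .imp ih1 ih2
  | @sall k t φ h ih =>
    exact ih.sall ⟨φ, .sharp h, fun _ => Iff.rfl⟩ ⟨φ, .sharp h, fun _ => Iff.rfl⟩ k t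

/-- Formulas of lower level have counterexample functions. -/
theorem IsSP.sk {b : Bool} {m n : ℕ} {φ : Fm} (h : IsSP b m φ) (hm : m < n) : Sk n φ := by
  induction h with
  | sharp h => exact h.sk
  | up _ ih => exact ih (by omega)
  | imp _ _ ih1 ih2 => exact .imp (ih1 hm) (ih2 hm)
  | @sall b m k t φ h ih =>
    exact (ih hm).sall ⟨φ, h.lt hm, fun _ => Iff.rfl⟩ ⟨φ, h.lt hm, fun _ => Iff.rfl⟩ k t
  | @all m k t φ h ih =>
    obtain ⟨n, rfl⟩ : ∃ n', n = n' + 1 := ⟨n - 1, by omega⟩
    have hf : Df false (m + 1) fun v => SatN v φ := ⟨φ, h, fun _ => Iff.rfl⟩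
    refine (ih hm).ball ⟨φ, h.lt hm, fun _ => Iff.rfl⟩ k t ?_
    have ht : TF fun v => valN v t := ⟨t, fun _ => rfl⟩
    refine Df.up (b := false) (n := m + 1) ?_ hm
    refine Df.ball ht.shift (R := fun y => y 1 < y 0 →
      SatN (Function.update (fun i => y (i + 2)) k (y 0)) φ) ?_
    exact Df.imp (Df.lt (TF.var 1) (TF.var 0)) (hf.upd2 k)

end

end Pool.Agent.H23R
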