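import Pool.Agent.H23R.Rob

/-!
A calculus for relations and functions defined by formulas with counterexample functions.
-/

namespace Pool.Agent.H23R

noncomputable section

/-- Relations defined by formulas with counterexample functions. -/
def Rb (b : Bool) (n : ℕ) (R : (ℕ → ℕ) → Prop) : Prop :=
  ∃ φ, IsSP b n φ ∧ Sk n φ ∧ ∀ v, SatN v φ ↔ R v

/-- Functions bounded by a term, with such a graph. -/
def RFn (n : ℕ) (g : (ℕ → ℕ) → ℕ) : Prop :=
  (∃ t, ∀ v, g v ≤ valN v t) ∧ Rb true n fun v => v 0 = g fun i => v (i + 1)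

variable {b : Bool} {n : ℕ} {R S : (ℕ → ℕ) → Prop} {f g : (ℕ → ℕ) → ℕ}

theorem Rb.df (h : Rb b n R) : Df b n R := by
  obtain ⟨φ, h1, _, h2⟩ := h
  exact ⟨φ, h1, h2⟩
theorem RFn.fn (h : RFn n g) : Fn n g := ⟨h.1, h.2.df⟩

theorem Rb.congr (h : Rb b n R) (e : ∀ v, R v ↔ S v) : Rb b n S := by
  obtain ⟨φ, h1, h2, h3⟩ := h
  exact ⟨φ, h1, h2, fun v => (h3 v).trans (e v)⟩
theorem Rb.le (h : TF f) (h' : TF g) : Rb b n fun v => f v ≤ g v := by
  obtain ⟨t, ht⟩ := h
  obtain ⟨u, hu⟩ := h'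
  exact ⟨.le t u, .sharp (.le _ _), .le _ _, fun v => by rw [satN_le, ht, hu]⟩
theorem Rb.eq (h : TF f) (h' : TF g) : Rb b n fun v => f v = g v := by
  obtain ⟨t, ht⟩ := h
  obtain ⟨u, hu⟩ := h'
  exact ⟨.eq t u, .sharp (.eq _ _), .eq _ _, fun v => by rw [satN_eq, ht, hu]⟩
theorem Rb.lt (h : TF f) (h' : TF g) : Rb b n fun v => f v < g v := Rb.le h.succ h'
theorem Rb.false : Rb b n fun _ => False := ⟨.bot, .sharp .bot, .bot, fun _ => Iff.rfl⟩
theorem Rb.imp (h : Rb (!b) n R) (h' : Rb b n S) : Rb b n fun v => R v → S v := by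
  obtain ⟨φ, h1, h5, h2⟩ := h
  obtain ⟨ψ, h3, h6, h4⟩ := h'
  exact ⟨.imp φ ψ, .imp h1 h3, .imp h5 h6, fun v => by rw [satN_imp, h2, h4]⟩
theorem Rb.not (h : Rb (!b) n R) : Rb b n fun v => ¬ R v := h.imp Rb.false
theorem Rb.not' (h : Rb b n R) : Rb (!b) n fun v => ¬ R v := by
  refine Rb.not ?_
  rw [Bool.not_not]
  exact h
theorem Rb.true : Rb b n fun _ => True := (Rb.not Rb.false).congr fun v => by simp
theorem Rb.and (h : Rb b n R) (h' : Rb b n S) : Rb b n fun v => R v ∧ S v := by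
  have h1 : Rb (!b) n fun v => R v → ¬ S v := by
    refine Rb.imp ?_ h'.not'
    rw [Bool.not_not]; exact h
  exact (Rb.not h1).congr fun v => by tauto
theorem Rb.or (h : Rb b n R) (h' : Rb b n S) : Rb b n fun v => R v ∨ S v :=
  (Rb.imp h.not' h').congr fun v => by tauto
theorem Rb.ren (h : Rb b n R) {ρ : ℕ → ℕ} (hρ : Function.Injective ρ) :
    Rb b n fun v => R fun i => v (ρ i) := by
  obtain ⟨φ, h1, h3, h2⟩ := h
  exact ⟨φ.ren ρ, h1.ren ρ, h3.ren hρ, fun v => by beta_reduce; rw [← h2]; exact satN_ren hρ v φ⟩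
theorem Rb.shift (h : Rb b n R) : Rb b n fun w => R fun i => w (i + 1) :=
  h.ren (ρ := fun i => i + 1) fun a b hab => by simpa using hab

theorem RFn.congr (h : RFn n f) (e : ∀ v, f v = g v) : RFn n g := by
  have : f = g := funext e
  rwa [← this]

theorem RFn.tf (h : TF f) : RFn n f := by
  refine ⟨?_, Rb.eq (TF.var 0) h.shift⟩
  obtain ⟨t, ht⟩ := h
  exact ⟨t, fun v => (ht v).ge⟩

theorem RFn.var (i : ℕ) : RFn n fun v => v i := RFn.tf (TF.var i)
theorem RFn.const (c : ℕ) : RFn n fun _ => c := RFn.tf (TF.const c)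

/-- The graph with the result in an arbitrary fresh variable. -/
theorem RFn.graph (h : RFn n g) : ∃ m, ∀ o, m ≤ o → ∃ G, IsSP .true n G ∧ Sk n G ∧
    ∀ v : ℕ → ℕ, (SatN v G ↔ v o = g v) := by
  obtain ⟨m, hm⟩ := h.fn.dep
  obtain ⟨G, h1, h3, h2⟩ := h.2
  refine ⟨m, fun o ho => ⟨G.ren (rot o), h1.ren _, h3.ren (rot_inj o), fun v => ?_⟩⟩
  rw [satN_ren (rot_inj o), h2]
  have : g (fun i => v (rot o (i + 1))) = g v := by
    apply hm
    intro i hi
    have : i < o := by omega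
    simp [rot, this]
  beta_reduce
  rw [this]
  rfl

theorem sk_bq {k : ℕ} {t : Tm} {G φ : Fm} (hG : Sk n G) (hφ : Sk n φ) (hg : Fn n g)
    (hle : ∀ v, g v ≤ valN v t)
    (hgr : ∀ (v : ℕ → ℕ) (a : ℕ), SatN (Function.update v k a) G ↔ a = g v) :
    Sk n (bq b k t G φ) := by
  have key : ∀ (φ : Fm) (v : ℕ → ℕ), ¬ SatN v (.all k t (.imp G φ)) →
      g v ≤ valN v t ∧ ¬ SatN (Function.update v k (g v)) (.imp G φ) := by
    intro φ v hv
    refine ⟨hle v, fun h => hv fun a ha h1 => ?_⟩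
    have h2 := (hgr v a).1 h1
    subst h2
    exact h h1
  cases b with
  | true =>
    simp only [bq, if_true]
    exact (Sk.all k t g (hG.imp hφ.not) hg (key _)).not
  | false => exact Sk.all k t g (hG.imp hφ) hg (key _)

/-- Substitution of functions in a relation. -/
theorem Rb.comp (h : Rb b (n + 1) R) {g : ℕ → (ℕ → ℕ) → ℕ} (hg : ∀ i, RFn (n + 1) (g i)) :
    Rb b (n + 1) fun v => R fun i => g i v := by
  obtain ⟨φ, hφ, hsk, hR⟩ := h
  obtain ⟨m, hm⟩ := satN_dep φ
  choose t ht using fun i => (hg i).1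
  choose d hd using fun i => (hg i).fn.dep
  choose e he using fun i => (hg i).graph
  let K := (Finset.range m).sup fun i => max (d i) (e i)
  have hK : ∀ i < m, d i ≤ K ∧ e i ≤ K := by
    intro i hi
    have : max (d i) (e i) ≤ K :=
      Finset.le_sup (f := fun i => max (d i) (e i)) (Finset.mem_range.2 hi)
    omega
  have key : ∀ j ≤ m, ∃ φ', IsSP b (n + 1) φ' ∧ Sk (n + 1) φ' ∧ ∀ v : ℕ → ℕ,
      (SatN v φ' ↔ SatN (fun i => if i < j then g i v else v (i + K)) φ) := by
    intro j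
    induction j with
    | zero =>
      intro _
      have hinj : Function.Injective fun i => i + K := fun a b h => by simpa using h
      refine ⟨φ.ren fun i => i + K, hφ.ren _, hsk.ren hinj, fun v => ?_⟩
      rw [satN_ren hinj]
      simp only [Nat.not_lt_zero, if_false]
    | succ j ih =>
      intro hj
      obtain ⟨φ', h1, h3, h2⟩ := ih (by omega)
      obtain ⟨G, hG1, hG3, hG2⟩ := he j (j + K) (by have := (hK j (by omega)).2; omega)
      have hdj : ∀ i < m, ∀ (v : ℕ → ℕ) a, g i (Function.update v (j + K) a) = g i v := by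
        intro i hi v a
        apply hd i
        intro l hl
        refine Function.update_of_ne ?_ _ _
        have := (hK i hi).1
        omega
      have hgr : ∀ (v : ℕ → ℕ) (a : ℕ), SatN (Function.update v (j + K) a) G ↔ a = g j v := by
        intro v a
        rw [hG2, Function.update_self, hdj j (by omega)]
      refine ⟨bq b (j + K) (t j) G φ', isSP_bq _ _ hG1 h1,
        sk_bq hG3 h3 (hg j).fn (ht j) hgr, fun v => ?_⟩
      rw [satN_bq b (c := g j v) (ht j v), h2]
      · apply hm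
        intro i hi
        by_cases h3 : i < j
        · rw [if_pos h3, if_pos (by omega), hdj i hi]
        · by_cases h4 : i = j
          · subst h4
            simp
          · rw [if_neg h3, if_neg (by omega), Function.update_of_ne (by omega)]
      · intro a _
        exact hgr v a
  obtain ⟨φ', h1, h3, h2⟩ := key m le_rfl
  refine ⟨φ', h1, h3, fun v => ?_⟩
  beta_reduce
  rw [h2, ← hR]
  apply hm
  intro i hi
  rw [if_pos hi]

theorem RFn.ren (h : RFn n f) {ρ : ℕ → ℕ} (hρ : Function.Injective ρ) :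
    RFn n fun v => f fun i => v (ρ i) := by
  obtain ⟨⟨t, ht⟩, hG⟩ := h
  refine ⟨⟨t.ren ρ, fun v => ?_⟩, ?_⟩
  · refine (ht _).trans (le_of_eq ?_)
    exact (val_ren std ρ v t).symm
  · let ρ' : ℕ → ℕ := fun i => match i with
      | 0 => 0
      | i + 1 => ρ i + 1
    have hρ' : Function.Injective ρ' := by
      intro i j hij
      rcases i with _ | i <;> rcases j with _ | j
      · rfl
      · simp [ρ'] at hij
      · simp [ρ'] at hij
      · simp only [ρ', Nat.add_right_cancel_iff] at hij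
        rw [hρ hij]
    exact hG.ren hρ'

theorem RFn.shift (h : RFn n f) : RFn n fun v => f fun i => v (i + 1) :=
  h.ren (ρ := fun i => i + 1) fun a b hab => by simpa using hab

/-- Composition. -/
theorem RFn.comp (h : RFn (n + 1) f) {g : ℕ → (ℕ → ℕ) → ℕ} (hg : ∀ i, RFn (n + 1) (g i)) :
    RFn (n + 1) fun v => f fun i => g i v := by
  refine ⟨?_, ?_⟩
  · obtain ⟨t, ht⟩ := h.1
    choose u hu using fun i => (hg i).1
    refine ⟨t.sub u, fun v => (ht _).trans ?_⟩
    rw [valN_sub]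
    exact valN_mono t fun i => hu i v
  · let k : ℕ → (ℕ → ℕ) → ℕ := fun i => match i with
      | 0 => fun v => v 0
      | i + 1 => fun v => g i fun j => v (j + 1)
    have hk : ∀ i, RFn (n + 1) (k i) := by
      intro i
      rcases i with _ | i
      · exact RFn.var 0
      · exact (hg i).shift
    exact (h.2.comp hk).congr fun _ => Iff.rfl

theorem RFn.tcomp (h : TF f) {g : ℕ → (ℕ → ℕ) → ℕ} (hg : ∀ i, RFn (n + 1) (g i)) :
    RFn (n + 1) fun v => f fun i => g i v := (RFn.tf h).comp hg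

/-- Composition with functions of two arguments. -/
theorem RFn.comp2 {F : ℕ → ℕ → ℕ} (h : RFn (n + 1) fun v => F (v 0) (v 1)) (hf : RFn (n + 1) f)
    (hg : RFn (n + 1) g) : RFn (n + 1) fun v => F (f v) (g v) := by
  have := h.comp (g := fun i => if i = 0 then f else g) (fun i => by split_ifs; exacts [hf, hg])
  exact this.congr fun v => by simp

theorem RFn.comp1 {F : ℕ → ℕ} (h : RFn (n + 1) fun v => F (v 0)) (hf : RFn (n + 1) f) :
    RFn (n + 1) fun v => F (f v) :=
  h.comp (g := fun _ => f) fun _ => hf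

theorem Rb.comp2 {F : ℕ → ℕ → Prop} (h : Rb b (n + 1) fun v => F (v 0) (v 1))
    (hf : RFn (n + 1) f) (hg : RFn (n + 1) g) : Rb b (n + 1) fun v => F (f v) (g v) := by
  have := h.comp (g := fun i => if i = 0 then f else g) (fun i => by split_ifs; exacts [hf, hg])
  exact this.congr fun v => by simp

theorem RFn.add (h : RFn (n + 1) f) (h' : RFn (n + 1) g) : RFn (n + 1) fun v => f v + g v :=
  RFn.comp2 (F := fun a b => a + b) (RFn.tf ((TF.var 0).add (TF.var 1))) h h'
theorem RFn.mul (h : RFn (n + 1) f) (h' : RFn (n + 1) g) : RFn (n + 1) fun v => f v * g v :=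
  RFn.comp2 (F := fun a b => a * b) (RFn.tf ((TF.var 0).mul (TF.var 1))) h h'
theorem RFn.size (h : RFn (n + 1) f) : RFn (n + 1) fun v => (f v).size :=
  RFn.comp1 (F := fun a => a.size) (RFn.tf (TF.var 0).size) h
theorem Rb.fle (h : RFn (n + 1) f) (h' : RFn (n + 1) g) : Rb b (n + 1) fun v => f v ≤ g v :=
  Rb.comp2 (F := fun a b => a ≤ b) (Rb.le (TF.var 0) (TF.var 1)) h h'
theorem Rb.feq (h : RFn (n + 1) f) (h' : RFn (n + 1) g) : Rb b (n + 1) fun v => f v = g v :=
  Rb.comp2 (F := fun a b => a = b) (Rb.eq (TF.var 0) (TF.var 1)) h h'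
theorem Rb.flt (h : RFn (n + 1) f) (h' : RFn (n + 1) g) : Rb b (n + 1) fun v => f v < g v :=
  Rb.comp2 (F := fun a b => a < b) (Rb.lt (TF.var 0) (TF.var 1)) h h'

/-- Definition by cases. -/
theorem RFn.ite (hc : Rb true (n + 1) R) (hc' : Rb .false (n + 1) R) (h : RFn (n + 1) f)
    (h' : RFn (n + 1) g) [DecidablePred R] : RFn (n + 1) fun v => if R v then f v else g v := by
  refine ⟨?_, ?_⟩
  · obtain ⟨t, ht⟩ := h.1
    obtain ⟨u, hu⟩ := h'.1
    refine ⟨.add t u, fun v => ?_⟩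
    rw [valN_add]
    have h1 := ht v
    have h2 := hu v
    beta_reduce
    split_ifs <;> omega
  · have h1 : Rb .true (n + 1) fun v => (R (fun i => v (i + 1)) ∧ v 0 = f fun i => v (i + 1)) ∨
        (¬ R (fun i => v (i + 1)) ∧ v 0 = g fun i => v (i + 1)) :=
      (hc.shift.and h.2).or ((Rb.not (b := .true) hc'.shift).and h'.2)
    refine h1.congr fun v => ?_
    beta_reduce
    by_cases hR : R (fun i => v (i + 1))
    · simp [hR]
    · simp [hR]

/-- Formulas for bounded quantification. -/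
theorem exists_all' {φ : Fm} {t : Tm} : ∃ M, (∀ v : ℕ → ℕ,
    (SatN v (.all M t (φ.ren (rot M))) ↔ ∀ a ≤ valN v t, SatN (cs a v) φ)) ∧
    ∀ (v : ℕ → ℕ) (a : ℕ), SatN (Function.update v M a) (φ.ren (rot M)) ↔ SatN (cs a v) φ := by
  obtain ⟨m, hm⟩ := satN_dep φ
  have key : ∀ (v : ℕ → ℕ) (a : ℕ),
      SatN (Function.update v m a) (φ.ren (rot m)) ↔ SatN (cs a v) φ := by
    intro v a
    rw [satN_ren (rot_inj m)]
    exact hm _ _ fun i hi => upd_rot le_rfl v a i (by omega)
  exact ⟨m, fun v => by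
    rw [satN_all]
    exact forall_congr' fun a => forall_congr' fun _ => key v a, key⟩

theorem Rb.ball {t : (ℕ → ℕ) → ℕ} (ht : TF t) (h : Rb .false (n + 1) R) (hg : Fn (n + 1) g)
    (hg' : ∀ v, (∃ a ≤ t v, ¬ R (cs a v)) → g v ≤ t v ∧ ¬ R (cs (g v) v)) :
    Rb .false (n + 1) fun v => ∀ a ≤ t v, R (cs a v) := by
  obtain ⟨φ, h1, h3, h2⟩ := h
  obtain ⟨u, hu⟩ := ht
  obtain ⟨M, hM, hM'⟩ := exists_all' (φ := φ) (t := u)
  refine ⟨_, .all M u (h1.ren (rot M)), .all M u g (h3.ren (rot_inj M)) hg fun v hv => ?_,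
    fun v => (hM v).trans ?_⟩
  · rw [hM] at hv
    push Not at hv
    obtain ⟨a, ha, ha2⟩ := hv
    rw [hu, hM', h2]
    exact hg' v ⟨a, by rwa [← hu], by rwa [← h2]⟩
  · rw [hu]
    exact forall_congr' fun a => forall_congr' fun _ => h2 _

theorem Rb.bex {t : (ℕ → ℕ) → ℕ} (ht : TF t) (h : Rb .true (n + 1) R) (hg : Fn (n + 1) g)
    (hg' : ∀ v, (∃ a ≤ t v, R (cs a v)) → g v ≤ t v ∧ R (cs (g v) v)) :
    Rb .true (n + 1) fun v => ∃ a ≤ t v, R (cs a v) := by
  refine (Rb.not (b := .true) (Rb.ball (R := fun v => ¬ R v) ht (Rb.not (b := .false) h) hg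
    fun v hv => ?_)).congr fun v => by push Not; rfl
  simp only [not_not] at hv ⊢
  exact hg' v hv

theorem Rb.sball {t : (ℕ → ℕ) → ℕ} (ht : TF t) (h : Rb .true (n + 1) R)
    (h' : Rb .false (n + 1) R) : Rb b (n + 1) fun v => ∀ a ≤ (t v).size, R (cs a v) := by
  have hb : Rb b (n + 1) R := by cases b <;> assumption
  obtain ⟨φ, h1, h3, h2⟩ := hb
  obtain ⟨u, hu⟩ := ht
  obtain ⟨M, hM, hM'⟩ := exists_all' (φ := φ) (t := .len u)
  have hd : ∀ c, Df c (n + 1) fun v => SatN v φ := fun c => by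
    have : Df c (n + 1) R := by cases c; exacts [h'.df, h.df]
    exact this.congr fun v => (h2 v).symm
  have hd' : ∀ c, Df c (n + 1) fun v => SatN v (φ.ren (rot M)) := fun c =>
    ((hd c).ren (rot_inj M)).congr fun v => (satN_ren (rot_inj M) v φ).symm
  refine ⟨_, .sall M u (h1.ren (rot M)), (h3.ren (rot_inj M)).sall (hd' _) (hd' _) _ _,
    fun v => (hM v).trans ?_⟩
  rw [valN_len, hu]
  exact forall_congr' fun a => forall_congr' fun _ => h2 _

end

end Pool.Agent.H23R
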