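import Pool.Agent.H23R.Model2
import Pool.Agent.H23.Upper2

/-!
Upper bound: sets of reals defined in the model by `Σ^b_i` formulas are in `Sg (i+1)`.
-/

namespace Pool.Agent.H23R

open Set Filter Pool.Agent.H23 Pool.Agent.H23L

noncomputable section

variable {l : ℕ} {Q : Qd l} (D : Q.Y.Dat)

theorem env_size (A : ℕ → Cantor) (s : ℕ) (q : ℕ × ℕ) :
    (D.env A s q).size ≤ (Q.n s) ^ Q.C0 :=
  Q.genR_size (by have := Q.n_ge s; omega) (Q.raw_lt _) _ _

/-- Small values are locally constant. -/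
theorem lc (t u : Tr l) : ∃ n, ∀ m, n ≤ 2 ^ m → ∀ A A', CCell n m A A' → ∀ s, m ≤ D.N s →
    min (tv D t A s) (tv D u A s).size = min (tv D t A' s) (tv D u A' s).size := by
  obtain ⟨a, rfl⟩ := Ten_surj t
  obtain ⟨b, rfl⟩ := Ten_surj u
  let m0 := Nat.pair a b
  let k := max (m0 + 1) (Q.Y.df m0)
  refine ⟨2 ^ k, fun m hm A A' hA s hs => ?_⟩
  have hk : k ≤ m := (Nat.pow_le_pow_iff_right (by norm_num)).1 hm
  have hk2 : k ≤ 2 ^ k := Nat.lt_two_pow_self.le
  have hle : Q.Y.df m0 ≤ 2 ^ k := (le_max_right _ _).trans hk2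
  have hcc : CCell (Q.Y.df m0) m A A' :=
    ⟨fun i hi => hA.1 i (lt_of_lt_of_le hi hle), fun i hi j hj => hA.2.1 i (lt_of_lt_of_le hi hle) j
      (lt_of_lt_of_le hj hle), fun i hi j hj => hA.2.2 i (lt_of_lt_of_le hi hle) j
      (lt_of_lt_of_le hj hle)⟩
  have key : ∀ A, Q.Y.f m0 s (D.env A s) =
      min (tv D (Ten l a) A s) (tv D (Ten l b) A s).size := by
    intro A
    change min (min ((Ten l (Nat.unpair m0).1).1 (vE (Q.n s) (D.env A s)))
      ((Ten l (Nat.unpair m0).2).1 (vE (Q.n s) (D.env A s))).size)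
      (Q.n s ^ Q.cbd (Ten l (Nat.unpair m0).2)) = _
    have e : Nat.unpair m0 = (a, b) := Nat.unpair_pair a b
    rw [e]
    have h1 := Q.cbd_spec (Ten l b) (n := Q.n s) (by have := Q.n_ge s; omega) (env_size D A s)
    refine min_eq_left (le_trans (min_le_right _ _) ?_)
    exact h1
  rw [← key, ← key]
  exact D.lc m0 (n := m) (by omega) ((le_max_right (m0 + 1) _).trans hk) hs hcc

/-- The set of sequences of reals defined by a formula and functions. -/
def SF (φ : Fm) (T : ℕ → Tr l) : Set (ℕ → Cantor) :=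
  {A | Sat (M D) (fun i => x1 D (T i) A) φ}

open scoped Classical in
theorem cellInv {φ : Fm} (hφ : IsSharp φ) (T : ℕ → Tr l) : ∃ n, CellInv n (SF D φ T) := by
  have hd : ∀ b, Df b (l + 1) fun v => SatN v φ := fun b => ⟨φ, .sharp hφ, fun _ => Iff.rfl⟩
  let χ : (ℕ → ℕ) → ℕ := fun v => if SatN v φ then 1 else 0
  have hχ : Fn (l + 1) χ := Fn.ite (hd _) (hd _) (Fn.const 1) (Fn.const 0)
  obtain ⟨n, hn⟩ := lc D (cT hχ T) (kT l 1)
  refine ⟨n, fun m hm A A' hA => ?_⟩
  unfold SF
  rw [mem_ofPred_eq, mem_ofPred_eq, elem D hφ.sk, elem D hφ.sk]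
  apply eventually_congr
  filter_upwards [hf_of_atTop (D.tend m)] with s hs
  have h1 := hn m hm A A' hA s hs
  have h2 : ∀ A, min (tv D (cT hχ T) A s) (tv D (kT l 1) A s).size =
      if SatN (nE D T A s) φ then 1 else 0 := by
    intro A
    have e : tv D (kT l 1) A s = 1 := rfl
    rw [e, Nat.size_one, tv_cT]
    simp only [χ]
    split_ifs <;> simp
  rw [h2, h2] at h1
  by_cases a1 : SatN (nE D T A s) φ <;> by_cases a2 : SatN (nE D T A' s) φ <;>
    simp_all

theorem sgC_sharp {φ : Fm} (hφ : IsSharp φ) (T : ℕ → Tr l) (n : ℕ) : SgC n (SF D φ T) := by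
  obtain ⟨m, hm⟩ := cellInv D hφ T
  exact SgC.of_zero (fun g hg => hm.isFs hg) n

theorem sgC_sharp_compl {φ : Fm} (hφ : IsSharp φ) (T : ℕ → Tr l) (n : ℕ) :
    SgC n (SF D φ T)ᶜ := by
  obtain ⟨m, hm⟩ := cellInv D hφ T
  exact SgC.of_zero (fun g hg => hm.compl.isFs hg) n

theorem fn_min : Fn (l + 1) fun v => min (v 0) (v 1).size := by
  have h : Fn (l + 1) fun v => if v 0 ≤ (v 1).size then v 0 else (v 1).size :=
    Fn.ite (Df.le (TF.var 0) (TF.var 1).size) (Df.le (TF.var 0) (TF.var 1).size) (Fn.var 0)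
      (Fn.tf (TF.var 1).size)
  exact h.congr fun v => by
    split_ifs with h
    · rw [min_eq_left h]
    · rw [min_eq_right (by omega)]

theorem small_rep (x y : (M D).N) (h : (M D).le x ((M D).len y)) :
    ∃ (u : Tr l) (L : List (List Bool)), x = x1 D u (H23.dec L) := by
  obtain ⟨T, A, hv⟩ := repM D (seq2 x y)
  have h0 : x = x1 D (T 0) A := congrFun hv 0
  have h1 : y = x1 D (T 1) A := congrFun hv 1
  let W : Tr l := cT fn_min T
  have hW : ∀ A s, tv D W A s = min (tv D (T 0) A s) (tv D (T 1) A s).size := fun _ _ => rfl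
  have hx : x = x1 D W A := by
    rw [h0, x1_eq]
    have h2 : ∀ᶠ s in HF, tv D (T 0) A s ≤ (tv D (T 1) A s).size := by
      refine (le_M D x ((M D).len y) _ _ ?_ ?_).1 h
      · rw [h0]; rfl
      · rw [u1_len, h1]; rfl
    filter_upwards [h2] with s hs
    rw [hW, min_eq_left hs]
  obtain ⟨n, hn⟩ := lc D (T 0) (T 1)
  obtain ⟨m, hm, hcc⟩ := (eventually_ccell n A).exists
  let L : List (List Bool) := (List.range n).map fun i => (List.range m).map (A i)
  have hl : ∀ i < n, ∀ k, H23.dec L i k = if k < m then A i k else false := by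
    intro i hi k
    have e1 : L.getD i [] = (List.range m).map (A i) := by
      simp [L, List.getD, hi]
    unfold H23.dec
    rw [e1]
    by_cases hk : k < m
    · simp [List.getD, hk]
    · simp [List.getD, hk]
  have hcell : CCell n m A (H23.dec L) := by
    refine ⟨fun i hi => codeR_eq_of_agree fun k hk => ?_, hcc.2.1, fun i hi j hj he => ?_⟩
    · rw [hl i hi, if_pos hk]
    · funext k
      rw [hl i hi, hl j hj]
      by_cases hk : k < m
      · have := agree_of_codeR_eq he k hk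
        rw [hl i hi, hl j hj, if_pos hk, if_pos hk] at this
        rw [if_pos hk, if_pos hk, this]
      · rw [if_neg hk, if_neg hk]
  refine ⟨W, L, ?_⟩
  rw [hx, x1_eq]
  filter_upwards [hf_of_atTop (D.tend m)] with s hs
  rw [hW, hW]
  exact hn m hm A (H23.dec L) hcell s hs

/-- even and odd real variables. -/
def evT (t : Tr l) : Tr l := rel (fun i => 2 * i) t
def odT (t : Tr l) : Tr l := rel (fun i => 2 * i + 1) t

theorem x1_evT (t : Tr l) (A B : ℕ → Cantor) : x1 D (evT t) (ilv A B) = x1 D t A := by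
  unfold evT; rw [x1_rel D, ilv_even]
theorem x1_odT (t : Tr l) (A B : ℕ → Cantor) : x1 D (odT t) (ilv A B) = x1 D t B := by
  unfold odT; rw [x1_rel D, ilv_odd]

/-- Replacing the function with index `k`. -/
def updN (T : ℕ → Tr l) (k : ℕ) (u : Tr l) : ℕ → Tr l := fun i =>
  if i = k then odT u else evT (T i)

theorem x1_updN (T : ℕ → Tr l) (k : ℕ) (u : Tr l) (A B : ℕ → Cantor) :
    (fun i => x1 D (updN T k u i) (ilv A B)) =
      Function.update (fun i => x1 D (T i) A) k (x1 D u B) := by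
  funext i
  unfold updN
  by_cases h : i = k
  · subst h; simp [x1_odT D]
  · simp [h, x1_evT D]

theorem mem_SF_updN (φ : Fm) (T : ℕ → Tr l) (k : ℕ) (u : Tr l) (A B : ℕ → Cantor) :
    ilv A B ∈ SF D φ (updN T k u) ↔
      Sat (M D) (Function.update (fun i => x1 D (T i) A) k (x1 D u B)) φ := by
  unfold SF
  rw [mem_ofPred_eq, x1_updN D]

theorem mem_guard (t : Tm) {m : ℕ} (hm : ∀ (M : Str) (v v' : ℕ → M.N),
    (∀ i < m, v i = v' i) → t.val M v = t.val M v')
    (T : ℕ → Tr l) (u : Tr l) (A B : ℕ → Cantor) :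
    ilv A B ∈ SF D (.le (.var m) t) (updN T m u) ↔
      (M D).le (x1 D u B) (t.val (M D) (fun i => x1 D (T i) A)) := by
  rw [mem_SF_updN D]
  simp only [Sat, Tm.val, Function.update_self]
  rw [hm (M D) _ (fun i => x1 D (T i) A) (fun i hi => Function.update_of_ne (by omega) _ _)]

theorem SF_compl_all (k : ℕ) (t : Tm) (φ : Fm) (T : ℕ → Tr l) {m : ℕ}
    (hm : ∀ (M : Str) (v v' : ℕ → M.N), (∀ i < m, v i = v' i) → t.val M v = t.val M v') :
    (SF D (.all k t φ) T)ᶜ = ⋃ u : Tr l, {A | ∃ B, ilv A B ∈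
      SF D (.le (.var m) t) (updN T m u) ∩ (SF D φ (updN T k u))ᶜ} := by
  ext A
  simp only [mem_compl_iff, mem_iUnion, mem_ofPred_eq, mem_inter_iff, mem_guard D t hm,
    mem_SF_updN D]
  unfold SF
  rw [mem_ofPred_eq]
  simp only [Sat]
  push Not
  constructor
  · rintro ⟨X, hX1, hX2⟩
    obtain ⟨u, B, rfl⟩ := x1_surj D X
    exact ⟨u, B, hX1, hX2⟩
  · rintro ⟨u, B, h1, h2⟩
    exact ⟨_, h1, h2⟩

theorem SF_sall (k : ℕ) (t : Tm) (φ : Fm) (T : ℕ → Tr l) {m : ℕ}
    (hm : ∀ (M : Str) (v v' : ℕ → M.N), (∀ i < m, v i = v' i) → t.val M v = t.val M v') :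
    SF D (.all k (.len t) φ) T = ⋂ q : Tr l × List (List Bool), (fun A => ilv A (H23.dec q.2)) ⁻¹'
      ((SF D (.le (.var m) (.len t)) (updN T m q.1))ᶜ ∪ SF D φ (updN T k q.1)) := by
  have hm' : ∀ (M : Str) (v v' : ℕ → M.N), (∀ i < m, v i = v' i) →
      (Tm.len t).val M v = (Tm.len t).val M v' := fun M v v' h => by
    simp only [Tm.val]; rw [hm M v v' h]
  ext A
  simp only [mem_iInter, mem_preimage, mem_union, mem_compl_iff, mem_guard D (.len t) hm',
    mem_SF_updN D]
  unfold SF
  rw [mem_ofPred_eq]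
  simp only [Sat]
  constructor
  · intro h q
    by_cases h1 : (M D).le (x1 D q.1 (H23.dec q.2))
      ((Tm.len t).val (M D) (fun i => x1 D (T i) A))
    · exact Or.inr (h _ h1)
    · exact Or.inl h1
  · intro h a ha
    obtain ⟨u, L, rfl⟩ := small_rep D a _ ha
    rcases h (u, L) with h1 | h1
    · exact absurd ha h1
    · exact h1

theorem upper {b : Bool} {i : ℕ} {φ : Fm} (h : IsSP b i φ) (T : ℕ → Tr l) :
    PC b (i + 1) (SF D φ T) := by
  induction h generalizing T with
  | @sharp b i φ hφ =>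
    cases b with
    | true => exact sgC_sharp D hφ T _
    | false => exact sgC_sharp_compl D hφ T _
  | @up b c i φ _ ih =>
    have := ih T
    cases b <;> cases c
    · exact SgC.succ this
    · have h2 := SgC.compl this
      rw [compl_compl] at h2
      exact h2
    · exact SgC.compl this
    · exact SgC.succ this
  | @imp b i φ ψ _ _ ih1 ih2 =>
    have h1 := ih1 T
    have h2 := ih2 T
    have e : SF D (φ.imp ψ) T = (SF D φ T)ᶜ ∪ SF D ψ T := by
      ext A
      simp only [SF, mem_ofPred_eq, mem_union, mem_compl_iff, Sat]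
      tauto
    cases b with
    | true =>
      change SgC (i + 1) _
      rw [e]
      exact SgC.union h1 h2
    | false =>
      change SgC (i + 1) _
      rw [e, compl_union, compl_compl]
      exact SgC.inter h1 h2
  | @sall b i k t φ _ ih =>
    obtain ⟨m, hm⟩ := val_dep t
    cases b with
    | true =>
      change SgC (i + 1) _
      rw [SF_sall D k t φ T hm]
      refine SgC.iInter _ fun q => SgC.comap (SgC.union ?_ ?_)
        (continuous_ilv continuous_id continuous_const)
      · exact sgC_sharp_compl D (.le _ _) _ _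
      · exact ih _
    | false =>
      change SgC (i + 1) _
      rw [SF_sall D k t φ T hm, compl_iInter]
      refine SgC.iUnion _ fun q => ?_
      rw [← preimage_compl, compl_union, compl_compl]
      refine SgC.comap (SgC.inter ?_ ?_) (continuous_ilv continuous_id continuous_const)
      · exact sgC_sharp D (.le _ _) _ _
      · exact ih _
  | @all i k t φ _ ih =>
    obtain ⟨m, hm⟩ := val_dep t
    change SgC (i + 1 + 1) _
    rw [SF_compl_all D k t φ T hm]
    refine SgC.iUnion _ fun u => SgC.proj (SgC.inter ?_ ?_)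
    · exact sgC_sharp D (.le _ _) _ _
    · exact ih _

end

end Pool.Agent.H23R
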